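import Pool.Agent.Y752.KP.Std

set_option autoImplicit false

/-! Integrals of products of functions of linearly independent linear forms. -/

namespace Pool.Agent.Y752.LP

open MeasureTheory Set Matrix
open scoped ENNReal Classical

noncomputable section

variable {ι : Type} {d : ℕ}

lemma dual {ψ : ι → Fin d → ℝ} {i : ι} {A : Finset ι} (hi : i ∉ A)
    (h : LinearIndepOn ℝ ψ (insert i (A : Set ι))) :
    ∃ u : Fin d → ℝ, ψ i ⬝ᵥ u = 1 ∧ ∀ j ∈ A, ψ j ⬝ᵥ u = 0 := by
  rw [linearIndepOn_insert (by simpa using hi)] at h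
  obtain ⟨f, hf1, hf2⟩ := Submodule.exists_le_ker_of_notMem h.2
  set u : Fin d → ℝ := fun l => f (Pi.single l 1) with hu
  have hfu : ∀ x : Fin d → ℝ, f x = x ⬝ᵥ u := by
    intro x
    conv_lhs => rw [pi_eq_sum_univ' x]
    rw [map_sum]
    unfold dotProduct
    refine Finset.sum_congr rfl fun l _ => ?_
    rw [map_smul, smul_eq_mul, hu]
  refine ⟨(f (ψ i))⁻¹ • u, ?_, fun j hj => ?_⟩
  · rw [dotProduct_smul, ← hfu, smul_eq_mul, inv_mul_cancel₀ hf1]
  · have : f (ψ j) = 0 := hf2 (Submodule.subset_span ⟨j, hj, rfl⟩)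
    rw [dotProduct_smul, ← hfu, this, smul_zero]

/-- the cube -/
def cube (d : ℕ) (R : ℝ) : Set (Fin d → ℝ) := Icc (fun _ => -R) (fun _ => R)

lemma mem_cube {R : ℝ} {x : Fin d → ℝ} : x ∈ cube d R ↔ ∀ l, |x l| ≤ R := by
  unfold cube
  rw [mem_Icc, Pi.le_def, Pi.le_def, ← forall_and]
  refine forall_congr' fun l => ?_
  rw [abs_le]

lemma cube_meas (d : ℕ) (R : ℝ) : MeasurableSet (cube d R) := measurableSet_Icc

lemma cube_vol (d : ℕ) {R : ℝ} (hR : 0 ≤ R) : volume (cube d R) = ENNReal.ofReal ((2 * R) ^ d) := by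
  unfold cube
  rw [Real.volume_Icc_pi, Finset.prod_const, Finset.card_univ, Fintype.card_fin,
    ENNReal.ofReal_pow (by positivity)]
  congr 2
  ring

/-- size of a form on the cube -/
def sz (c : Fin d → ℝ) : ℝ := ∑ l, |c l|

lemma sz_nonneg (c : Fin d → ℝ) : 0 ≤ sz c := Finset.sum_nonneg fun _ _ => abs_nonneg _

lemma dot_le {c x : Fin d → ℝ} {R : ℝ} (hx : x ∈ cube d R) : |c ⬝ᵥ x| ≤ sz c * R := by
  rw [mem_cube] at hx
  unfold dotProduct sz
  refine (Finset.abs_sum_le_sum_abs _ _).trans ?_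
  rw [Finset.sum_mul]
  refine Finset.sum_le_sum fun l _ => ?_
  rw [abs_mul]
  exact mul_le_mul_of_nonneg_left (hx l) (abs_nonneg _)

lemma cube_sub {R a : ℝ} {x u : Fin d → ℝ} (hx : x ∈ cube d R) (ha : |a| ≤ R) :
    x - a • u ∈ cube d (R * (1 + sz u)) := by
  rw [mem_cube] at hx ⊢
  intro l
  have h1 : |u l| ≤ sz u := Finset.single_le_sum (f := fun l => |u l|) (fun _ _ => abs_nonneg _)
    (Finset.mem_univ l)
  have h2 : |(x - a • u) l| ≤ |x l| + |a| * |u l| := by
    rw [Pi.sub_apply, Pi.smul_apply, smul_eq_mul, ← abs_mul]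
    exact abs_sub _ _
  have h3 : 0 ≤ |a| := abs_nonneg _
  have h4 : |a| * |u l| ≤ R * sz u := mul_le_mul ha h1 (abs_nonneg _) (h3.trans ha)
  have := hx l
  linarith

lemma dot_meas (c : Fin d → ℝ) : Measurable fun x : Fin d → ℝ => c ⬝ᵥ x := by
  unfold dotProduct
  fun_prop

lemma dot_cont (c : Fin d → ℝ) : Continuous fun x : Fin d → ℝ => c ⬝ᵥ x := by
  unfold dotProduct
  fun_prop

theorem ind_bound (ψ : ι → Fin d → ℝ) : ∀ s : Finset ι, LinearIndepOn ℝ ψ (s : Set ι) →
    ∃ C K : ℝ, 1 ≤ C ∧ 1 ≤ K ∧ ∀ G : ι → ℝ → ℝ≥0∞, (∀ j, Measurable (G j)) → ∀ R : ℝ, 0 < R →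
      ∫⁻ x in cube d R, ∏ j ∈ s, G j (ψ j ⬝ᵥ x) ≤
        ENNReal.ofReal (C * R ^ d) *
          ∏ j ∈ s, ((ENNReal.ofReal R)⁻¹ * ∫⁻ u in Icc (-(K * R)) (K * R), G j u) := by
  intro s
  induction s using Finset.induction_on with
  | empty =>
    intro _
    refine ⟨2 ^ d, 1, one_le_pow₀ (by norm_num), le_rfl, fun G _ R hR => ?_⟩
    simp only [Finset.prod_empty, mul_one, lintegral_const, one_mul, Measure.restrict_apply_univ]
    rw [cube_vol d hR.le, mul_pow]
  | insert i s hi ih =>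
    intro hs
    obtain ⟨u, hu1, hu0⟩ := dual hi (by rwa [Finset.coe_insert] at hs)
    obtain ⟨C, K, hC, hK, hmain⟩ := ih (hs.mono (by simp))
    set r : ℝ := 1 + sz u with hr
    have hr1 : 1 ≤ r := by have := sz_nonneg u; linarith
    set K2 : ℝ := sz (ψ i) * r + 1 with hK2
    have hK21 : 1 ≤ K2 := by
      have := mul_nonneg (sz_nonneg (ψ i)) (zero_le_one.trans hr1)
      linarith
    refine ⟨C * r ^ d, max (K * r) K2, by
      nlinarith [one_le_pow₀ hr1 (n := d)], le_trans hK21 (le_max_right _ _), fun G hG R hR => ?_⟩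
    set K3 := max (K * r) K2 with hK3
    have hRr : 0 < R * r := by positivity
    set Φ : (Fin d → ℝ) → ℝ≥0∞ := fun x => ∏ j ∈ s, G j (ψ j ⬝ᵥ x) with hΦ
    have hΦm : Measurable Φ := Finset.measurable_prod _ fun j _ => (hG j).comp (dot_meas _)
    have hΦu : ∀ (a : ℝ) (x : Fin d → ℝ), Φ (x + a • u) = Φ x := by
      intro a x
      rw [hΦ]
      refine Finset.prod_congr rfl fun j hj => ?_
      rw [dotProduct_add, dotProduct_smul, hu0 j hj, smul_zero, add_zero]
    have step1 : ∀ a ∈ Icc (0:ℝ) R, ∫⁻ x in cube d R, G i (ψ i ⬝ᵥ x) * Φ x ≤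
        ∫⁻ x in cube d (R * r), G i (ψ i ⬝ᵥ x + a) * Φ x := by
      intro a ha
      rw [← lintegral_indicator (cube_meas d R), ← lintegral_indicator (cube_meas d (R * r)),
        ← lintegral_add_right_eq_self _ (a • u)]
      refine lintegral_mono fun x => ?_
      rw [indicator_apply, indicator_apply]
      by_cases h : x + a • u ∈ cube d R
      · have h2 : x ∈ cube d (R * r) := by
          have := cube_sub (u := u) h (show |a| ≤ R by rw [abs_of_nonneg ha.1]; exact ha.2)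
          rwa [add_sub_cancel_right] at this
        rw [if_pos h, if_pos h2, hΦu, dotProduct_add, dotProduct_smul, hu1, smul_eq_mul, mul_one]
      · rw [if_neg h]
        exact zero_le
    have step2 : ENNReal.ofReal R * ∫⁻ x in cube d R, G i (ψ i ⬝ᵥ x) * Φ x ≤
        ∫⁻ a in Icc (0:ℝ) R, ∫⁻ x in cube d (R * r), G i (ψ i ⬝ᵥ x + a) * Φ x := by
      calc ENNReal.ofReal R * ∫⁻ x in cube d R, G i (ψ i ⬝ᵥ x) * Φ x
          = ∫⁻ _a in Icc (0:ℝ) R, ∫⁻ x in cube d R, G i (ψ i ⬝ᵥ x) * Φ x := by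
            rw [lintegral_const, Measure.restrict_apply_univ, Real.volume_Icc, sub_zero, mul_comm]
        _ ≤ _ := setLIntegral_mono' measurableSet_Icc step1
    have hmeas : Measurable (fun p : ℝ × (Fin d → ℝ) => G i (ψ i ⬝ᵥ p.2 + p.1) * Φ p.2) := by
      refine Measurable.mul ((hG i).comp ?_) (hΦm.comp measurable_snd)
      exact ((dot_meas _).comp measurable_snd).add measurable_fst
    rw [lintegral_lintegral_swap hmeas.aemeasurable] at step2
    have step3 : ∀ x ∈ cube d (R * r), ∫⁻ a in Icc (0:ℝ) R, G i (ψ i ⬝ᵥ x + a) * Φ x ≤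
        (∫⁻ w in Icc (-(K3 * R)) (K3 * R), G i w) * Φ x := by
      intro x hx
      have hm1 : Measurable fun a : ℝ => G i (ψ i ⬝ᵥ x + a) :=
        (hG i).comp (measurable_const.add measurable_id)
      rw [lintegral_mul_const _ hm1]
      refine mul_le_mul' ?_ le_rfl
      rw [← lintegral_indicator measurableSet_Icc, ← lintegral_indicator measurableSet_Icc,
        ← lintegral_add_left_eq_self (indicator (Icc (-(K3 * R)) (K3 * R)) (G i)) (ψ i ⬝ᵥ x)]
      refine lintegral_mono fun a => ?_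
      rw [indicator_apply, indicator_apply]
      by_cases h : a ∈ Icc (0:ℝ) R
      · have h2 := abs_le.1 (dot_le (c := ψ i) hx)
        have h3 : K2 * R ≤ K3 * R := by
          have := le_max_right (K * r) K2
          gcongr
        have h4 : K2 * R = sz (ψ i) * (R * r) + R := by rw [hK2]; ring
        rw [if_pos h, if_pos]
        constructor
        · have := h.1; linarith [h2.1]
        · have := h.2; linarith [h2.2]
      · rw [if_neg h]
        exact zero_le
    have step4 := step2.trans (setLIntegral_mono' (cube_meas d (R * r)) step3)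
    rw [lintegral_const_mul _ hΦm] at step4
    have ih2 := hmain G hG (R * r) hRr
    have hRne : ENNReal.ofReal R ≠ 0 := by
      rw [Ne, ENNReal.ofReal_eq_zero, not_le]
      exact hR
    have hRtop : ENNReal.ofReal R ≠ ⊤ := ENNReal.ofReal_ne_top
    have e1 : ∏ j ∈ insert i s, G j (ψ j ⬝ᵥ (0 : Fin d → ℝ)) = ∏ j ∈ insert i s, G j (ψ j ⬝ᵥ (0 : Fin d → ℝ)) := rfl
    calc ∫⁻ x in cube d R, ∏ j ∈ insert i s, G j (ψ j ⬝ᵥ x)
        = ∫⁻ x in cube d R, G i (ψ i ⬝ᵥ x) * Φ x := by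
          refine lintegral_congr fun x => ?_
          rw [Finset.prod_insert hi]
      _ = (ENNReal.ofReal R)⁻¹ * (ENNReal.ofReal R * ∫⁻ x in cube d R, G i (ψ i ⬝ᵥ x) * Φ x) := by
          rw [← mul_assoc, ENNReal.inv_mul_cancel hRne hRtop, one_mul]
      _ ≤ (ENNReal.ofReal R)⁻¹ * ((∫⁻ w in Icc (-(K3 * R)) (K3 * R), G i w) *
            (ENNReal.ofReal (C * (R * r) ^ d) *
          ∏ j ∈ s, ((ENNReal.ofReal (R * r))⁻¹ * ∫⁻ u in Icc (-(K * (R * r))) (K * (R * r)), G j u))) := by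
          exact mul_le_mul' le_rfl (step4.trans (mul_le_mul' le_rfl ih2))
      _ ≤ (ENNReal.ofReal R)⁻¹ * ((∫⁻ w in Icc (-(K3 * R)) (K3 * R), G i w) *
            (ENNReal.ofReal (C * r ^ d * R ^ d) *
          ∏ j ∈ s, ((ENNReal.ofReal R)⁻¹ * ∫⁻ u in Icc (-(K3 * R)) (K3 * R), G j u))) := by
          have e2 : C * (R * r) ^ d = C * r ^ d * R ^ d := by rw [mul_pow]; ring
          rw [e2]
          have e3 : K * (R * r) ≤ K3 * R := by
            have := le_max_left (K * r) K2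
            calc K * (R * r) = (K * r) * R := by ring
              _ ≤ K3 * R := by gcongr
          gcongr
          nlinarith
      _ = _ := by
          rw [Finset.prod_insert hi]
          ring

end

end Pool.Agent.Y752.LP
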