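import Pool.Agent.Y752.LP.A

set_option autoImplicit false

/-! A bilinear bound on a square. -/

namespace Pool.Agent.Y752.LP

open Complex MeasureTheory Set
open Pool.Agent.Y752.KP (ee ee_norm ee_cont op_gen ee_arg)

noncomputable section

lemma bil_pos {F P Q : ℝ → ℂ} (cF : Continuous F) (cP : Continuous P) (cQ : Continuous Q)
    {α β γ H M : ℝ} (hα : 0 < α) (hβ : 0 < β) (hH : 0 ≤ H) (hM0 : 0 < M)
    (hM : ∀ lam : ℝ, ‖∫ u in γ..(γ + 2 * (max α β * H)), F u * ee lam u‖ ≤ M) :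
    ‖∫ a in (0:ℝ)..H, ∫ b in (0:ℝ)..H, F (γ + α * a + β * b) * (P b * Q a)‖ ≤
      M / Real.sqrt (α * β) / 2 * ((∫ b in (0:ℝ)..H, ‖P b‖ ^ 2) + ∫ a in (0:ℝ)..H, ‖Q a‖ ^ 2) := by
  set W := max α β * H with hW
  have hW0 : 0 ≤ W := mul_nonneg (hα.le.trans (le_max_left _ _)) hH
  set e : ℝ → ℂ := fun u => F (γ + u) with he
  have ce : Continuous e := cF.comp (by fun_prop)
  set R : ℝ → ℂ := fun t => P (t / β) with hR
  have cR : Continuous R := cP.comp (by fun_prop)
  have hop := op_gen e ce (T := W) (S := β * H) (M := M) hW0 (by positivity)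
    (mul_le_mul_of_nonneg_right (le_max_right _ _) hH) hM0.le (fun lam => by
      have h1 := intervalIntegral.integral_comp_add_left (a := (0:ℝ)) (b := 2 * W)
        (fun u => F u * ee lam (u - γ)) γ
      rw [add_zero] at h1
      have h2 : ∫ u in (0:ℝ)..(2 * W), e u * ee lam u =
          ∫ u in (0:ℝ)..(2 * W), (fun u => F u * ee lam (u - γ)) (γ + u) := by
        refine intervalIntegral.integral_congr fun u _ => ?_
        simp only [he]
        rw [add_sub_cancel_left]
      rw [h2, h1]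
      have h3 : ∫ u in γ..(γ + 2 * W), F u * ee lam (u - γ) =
          (∫ u in γ..(γ + 2 * W), F u * ee lam u) * ee lam (-γ) := by
        rw [← intervalIntegral.integral_mul_const]
        refine intervalIntegral.integral_congr fun u _ => ?_
        rw [sub_eq_add_neg, ee_arg]
        ring
      rw [h3, norm_mul, ee_norm, mul_one]
      exact hM lam) R cR
  set g : ℝ → ℂ := fun a => ∫ b in (0:ℝ)..H, F (γ + α * a + β * b) * P b with hg
  have cg : Continuous g := by
    rw [hg]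
    refine intervalIntegral.continuous_parametric_intervalIntegral_of_continuous' ?_ _ _
    exact (cF.comp (by fun_prop)).mul (cP.comp continuous_snd)
  have hg1 : ∀ a, g a = (β : ℂ)⁻¹ * ∫ t in (0:ℝ)..(β * H), e (t + α * a) * R t := by
    intro a
    have h1 := intervalIntegral.integral_comp_mul_left (a := (0:ℝ)) (b := H)
      (fun t => e (t + α * a) * R t) hβ.ne'
    rw [mul_zero] at h1
    rw [← Complex.ofReal_inv, ← Complex.real_smul, ← h1]
    refine intervalIntegral.integral_congr fun b _ => ?_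
    simp only [he, hR]
    rw [mul_div_cancel_left₀ _ hβ.ne']
    congr 2
    ring
  have hg2 : ∫ a in (0:ℝ)..H, ‖g a‖ ^ 2 ≤ M ^ 2 / (α * β) * ∫ b in (0:ℝ)..H, ‖P b‖ ^ 2 := by
    have e1 : ∫ a in (0:ℝ)..H, ‖g a‖ ^ 2 = α⁻¹ * ∫ y in (0:ℝ)..(α * H),
        (β⁻¹) ^ 2 * ‖∫ t in (0:ℝ)..(β * H), e (t + y) * R t‖ ^ 2 := by
      have h1 := intervalIntegral.integral_comp_mul_left (a := (0:ℝ)) (b := H)
        (fun y => (β⁻¹) ^ 2 * ‖∫ t in (0:ℝ)..(β * H), e (t + y) * R t‖ ^ 2) hα.ne'
      rw [mul_zero, smul_eq_mul] at h1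
      rw [← h1]
      refine intervalIntegral.integral_congr fun a _ => ?_
      rw [hg1, norm_mul, mul_pow, norm_inv, Complex.norm_real, Real.norm_of_nonneg hβ.le]
    have cint : Continuous fun y => ‖∫ t in (0:ℝ)..(β * H), e (t + y) * R t‖ ^ 2 := by
      have : Continuous fun y => ∫ t in (0:ℝ)..(β * H), e (t + y) * R t := by
        refine intervalIntegral.continuous_parametric_intervalIntegral_of_continuous' ?_ _ _
        exact (ce.comp (by fun_prop)).mul (cR.comp continuous_snd)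
      fun_prop
    have e2 : ∫ y in (0:ℝ)..(α * H), ‖∫ t in (0:ℝ)..(β * H), e (t + y) * R t‖ ^ 2 ≤
        M ^ 2 * ∫ t in (0:ℝ)..(β * H), ‖R t‖ ^ 2 := by
      refine le_trans ?_ hop
      refine intervalIntegral.integral_mono_interval le_rfl (by positivity)
        (mul_le_mul_of_nonneg_right (le_max_left _ _) hH)
        (Filter.Eventually.of_forall fun y => by positivity) (cint.intervalIntegrable _ _)
    have e3 : ∫ t in (0:ℝ)..(β * H), ‖R t‖ ^ 2 = β * ∫ b in (0:ℝ)..H, ‖P b‖ ^ 2 := by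
      have h1 := intervalIntegral.integral_comp_div (a := (0:ℝ)) (b := β * H)
        (fun b => ‖P b‖ ^ 2) hβ.ne'
      rw [zero_div, mul_div_cancel_left₀ _ hβ.ne', smul_eq_mul] at h1
      exact h1
    rw [e1, intervalIntegral.integral_const_mul]
    rw [e3] at e2
    calc α⁻¹ * (β⁻¹ ^ 2 * ∫ y in (0:ℝ)..(α * H), ‖∫ t in (0:ℝ)..(β * H), e (t + y) * R t‖ ^ 2)
        ≤ α⁻¹ * (β⁻¹ ^ 2 * (M ^ 2 * (β * ∫ b in (0:ℝ)..H, ‖P b‖ ^ 2))) := by gcongr
      _ = _ := by field_simp
  have hs0 : 0 < Real.sqrt (α * β) := Real.sqrt_pos.2 (by positivity)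
  set c : ℝ := M / Real.sqrt (α * β) with hc
  have hc0 : 0 < c := by positivity
  have hc2 : c ^ 2 = M ^ 2 / (α * β) := by rw [hc, div_pow, Real.sq_sqrt (by positivity)]
  have e4 : ∫ a in (0:ℝ)..H, ∫ b in (0:ℝ)..H, F (γ + α * a + β * b) * (P b * Q a) =
      ∫ a in (0:ℝ)..H, g a * Q a := by
    refine intervalIntegral.integral_congr fun a _ => ?_
    simp only [hg]
    rw [← intervalIntegral.integral_mul_const]
    refine intervalIntegral.integral_congr fun b _ => ?_
    ring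
  rw [e4]
  calc ‖∫ a in (0:ℝ)..H, g a * Q a‖ ≤ ∫ a in (0:ℝ)..H, ‖g a * Q a‖ :=
        intervalIntegral.norm_integral_le_integral_norm hH
    _ ≤ ∫ a in (0:ℝ)..H, (1 / (2 * c) * ‖g a‖ ^ 2 + c / 2 * ‖Q a‖ ^ 2) := by
        refine intervalIntegral.integral_mono_on hH (Continuous.intervalIntegrable (by fun_prop) _ _)
          (Continuous.intervalIntegrable (by fun_prop) _ _) fun a _ => ?_
        rw [norm_mul]
        have h1 : 0 ≤ (‖g a‖ - c * ‖Q a‖) ^ 2 := sq_nonneg _
        have h2 : 1 / (2 * c) * ‖g a‖ ^ 2 + c / 2 * ‖Q a‖ ^ 2 - ‖g a‖ * ‖Q a‖ =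
            (‖g a‖ - c * ‖Q a‖) ^ 2 / (2 * c) := by
          field_simp
          ring
        have h3 : 0 ≤ (‖g a‖ - c * ‖Q a‖) ^ 2 / (2 * c) := by positivity
        linarith
    _ = 1 / (2 * c) * (∫ a in (0:ℝ)..H, ‖g a‖ ^ 2) + c / 2 * ∫ a in (0:ℝ)..H, ‖Q a‖ ^ 2 := by
        rw [intervalIntegral.integral_add (Continuous.intervalIntegrable (by fun_prop) _ _)
          (Continuous.intervalIntegrable (by fun_prop) _ _), intervalIntegral.integral_const_mul,
          intervalIntegral.integral_const_mul]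
    _ ≤ 1 / (2 * c) * (c ^ 2 * ∫ b in (0:ℝ)..H, ‖P b‖ ^ 2) + c / 2 * ∫ a in (0:ℝ)..H, ‖Q a‖ ^ 2 := by
        rw [hc2]
        gcongr
    _ = _ := by
        field_simp

lemma refl_int {H : ℝ} (f : ℝ → ℂ) : ∫ a in (0:ℝ)..H, f (H - a) = ∫ a in (0:ℝ)..H, f a := by
  rw [intervalIntegral.integral_comp_sub_left, sub_self, sub_zero]

lemma refl_intR {H : ℝ} (f : ℝ → ℝ) : ∫ a in (0:ℝ)..H, f (H - a) = ∫ a in (0:ℝ)..H, f a := by
  rw [intervalIntegral.integral_comp_sub_left, sub_self, sub_zero]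

/-- general signs -/
theorem bil {F P Q : ℝ → ℂ} (cF : Continuous F) (cP : Continuous P) (cQ : Continuous Q)
    {α β γ H M : ℝ} (hα : α ≠ 0) (hβ : β ≠ 0) (hH : 0 ≤ H) (hM0 : 0 < M)
    (hM : ∀ A B lam : ℝ, γ - 2 * ((|α| + |β|) * H) ≤ A → A ≤ B → B ≤ γ + 2 * ((|α| + |β|) * H) →
      ‖∫ u in A..B, F u * ee lam u‖ ≤ M) :
    ‖∫ a in (0:ℝ)..H, ∫ b in (0:ℝ)..H, F (γ + α * a + β * b) * (P b * Q a)‖ ≤
      M / Real.sqrt (|α| * |β|) / 2 *
        ((∫ b in (0:ℝ)..H, ‖P b‖ ^ 2) + ∫ a in (0:ℝ)..H, ‖Q a‖ ^ 2) := by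
  have hα' : 0 < |α| := abs_pos.2 hα
  have hβ' : 0 < |β| := abs_pos.2 hβ
  have hmax : max |α| |β| * H ≤ (|α| + |β|) * H := by
    refine mul_le_mul_of_nonneg_right (max_le ?_ ?_) hH <;> linarith
  have hmax0 : 0 ≤ max |α| |β| * H := mul_nonneg (hα'.le.trans (le_max_left _ _)) hH
  have hαH : |α| * H ≤ (|α| + |β|) * H := mul_le_mul_of_nonneg_right (by linarith) hH
  have hβH : |β| * H ≤ (|α| + |β|) * H := mul_le_mul_of_nonneg_right (by linarith) hH
  have hαH0 : 0 ≤ |α| * H := by positivity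
  have hβH0 : 0 ≤ |β| * H := by positivity
  have hsum : (|α| + |β|) * H = |α| * H + |β| * H := by ring
  rcases lt_or_gt_of_ne hα with hα1 | hα1
  · have aα : |α| = -α := abs_of_neg hα1
    rcases lt_or_gt_of_ne hβ with hβ1 | hβ1
    · have aβ : |β| = -β := abs_of_neg hβ1
      have h := bil_pos cF (P := fun b => P (H - b)) (Q := fun a => Q (H - a)) (cP.comp (by fun_prop))
        (cQ.comp (by fun_prop)) (α := |α|) (β := |β|) (γ := γ + α * H + β * H) hα' hβ' hH hM0
        (fun lam => hM _ _ lam (by nlinarith) (by linarith) (by nlinarith))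
      rw [refl_intR (fun b => ‖P b‖ ^ 2), refl_intR (fun b => ‖Q b‖ ^ 2)] at h
      have e1 : ∫ a in (0:ℝ)..H, ∫ b in (0:ℝ)..H, F (γ + α * a + β * b) * (P b * Q a) =
          ∫ a in (0:ℝ)..H, ∫ b in (0:ℝ)..H, F (γ + α * H + β * H + |α| * a + |β| * b) *
            (P (H - b) * Q (H - a)) := by
        rw [← refl_int]
        refine intervalIntegral.integral_congr fun a _ => ?_
        rw [← refl_int]
        refine intervalIntegral.integral_congr fun b _ => ?_
        rw [aα, aβ]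
        congr 2
        ring
      rw [e1]
      exact h
    · have aβ : |β| = β := abs_of_pos hβ1
      have h := bil_pos cF (P := P) (Q := fun a => Q (H - a)) cP
        (cQ.comp (by fun_prop)) (α := |α|) (β := |β|) (γ := γ + α * H) hα' hβ' hH hM0
        (fun lam => hM _ _ lam (by nlinarith) (by linarith) (by nlinarith))
      rw [refl_intR (fun b => ‖Q b‖ ^ 2)] at h
      have e1 : ∫ a in (0:ℝ)..H, ∫ b in (0:ℝ)..H, F (γ + α * a + β * b) * (P b * Q a) =
          ∫ a in (0:ℝ)..H, ∫ b in (0:ℝ)..H, F (γ + α * H + |α| * a + |β| * b) *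
            (P b * Q (H - a)) := by
        rw [← refl_int]
        refine intervalIntegral.integral_congr fun a _ => ?_
        refine intervalIntegral.integral_congr fun b _ => ?_
        rw [aα, aβ]
        congr 2
        ring
      rw [e1]
      exact h
  · have aα : |α| = α := abs_of_pos hα1
    rcases lt_or_gt_of_ne hβ with hβ1 | hβ1
    · have aβ : |β| = -β := abs_of_neg hβ1
      have h := bil_pos cF (P := fun b => P (H - b)) (Q := Q) (cP.comp (by fun_prop))
        cQ (α := |α|) (β := |β|) (γ := γ + β * H) hα' hβ' hH hM0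
        (fun lam => hM _ _ lam (by nlinarith) (by linarith) (by nlinarith))
      rw [refl_intR (fun b => ‖P b‖ ^ 2)] at h
      have e1 : ∫ a in (0:ℝ)..H, ∫ b in (0:ℝ)..H, F (γ + α * a + β * b) * (P b * Q a) =
          ∫ a in (0:ℝ)..H, ∫ b in (0:ℝ)..H, F (γ + β * H + |α| * a + |β| * b) *
            (P (H - b) * Q a) := by
        refine intervalIntegral.integral_congr fun a _ => ?_
        rw [← refl_int]
        refine intervalIntegral.integral_congr fun b _ => ?_
        rw [aα, aβ]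
        congr 2
        ring
      rw [e1]
      exact h
    · have aβ : |β| = β := abs_of_pos hβ1
      have h := bil_pos cF (P := P) (Q := Q) cP cQ (α := |α|) (β := |β|) (γ := γ) hα' hβ' hH hM0
        (fun lam => hM _ _ lam (by nlinarith) (by linarith) (by nlinarith))
      rw [aα, aβ] at h ⊢
      exact h

end

end Pool.Agent.Y752.LP
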