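import Pool.Agent.Y752.LP.B

set_option autoImplicit false

/-! Averaging over translations. -/

namespace Pool.Agent.Y752.LP

open Complex MeasureTheory Set Matrix
open Pool.Agent.Y752.KP (ee ee_norm ee_cont op_gen ee_arg)

noncomputable section

variable {d : ℕ}

lemma cube_compact (d : ℕ) (R : ℝ) : IsCompact (cube d R) := isCompact_Icc

lemma cont_int {E : Type} [NormedAddCommGroup E] {f : (Fin d → ℝ) → E} (hf : Continuous f) (R : ℝ) :
    IntegrableOn f (cube d R) := hf.continuousOn.integrableOn_compact (cube_compact d R)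

lemma swap1 {E : Type} [NormedAddCommGroup E] [NormedSpace ℝ E] {R H : ℝ} (hH : 0 ≤ H) {Ψ : (Fin d → ℝ) → ℝ → E}
    (hΨ : Continuous fun p : (Fin d → ℝ) × ℝ => Ψ p.1 p.2) :
    ∫ b in (0:ℝ)..H, ∫ x in cube d R, Ψ x b = ∫ x in cube d R, ∫ b in (0:ℝ)..H, Ψ x b := by
  rw [intervalIntegral.integral_of_le hH]
  have h1 : ∀ x : Fin d → ℝ, ∫ b in (0:ℝ)..H, Ψ x b = ∫ b in Ioc 0 H, Ψ x b := fun x =>
    intervalIntegral.integral_of_le hH
  simp_rw [h1]
  refine integral_integral_swap ?_
  rw [Measure.prod_restrict]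
  have h2 : Continuous (Function.uncurry fun (b : ℝ) (x : Fin d → ℝ) => Ψ x b) :=
    hΨ.comp (continuous_snd.prodMk continuous_fst)
  have h3 : IntegrableOn (Function.uncurry fun (b : ℝ) (x : Fin d → ℝ) => Ψ x b)
      (Icc 0 H ×ˢ cube d R) := h2.continuousOn.integrableOn_compact (isCompact_Icc.prod (cube_compact d R))
  exact h3.mono_set (prod_mono Ioc_subset_Icc_self subset_rfl)

lemma param_cont {E : Type} [NormedAddCommGroup E] [NormedSpace ℝ E] {X : Type} [TopologicalSpace X]
    [FirstCountableTopology X] [LocallyCompactSpace X] {R : ℝ} {Ψ : X → (Fin d → ℝ) → E} (hΨ : Continuous fun p : X × (Fin d → ℝ) => Ψ p.1 p.2) :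
    Continuous fun s => ∫ x in cube d R, Ψ s x :=
  continuous_parametric_integral_of_continuous hΨ (cube_compact d R)

/-- translation of integrals over cubes of nonnegative functions -/
lemma cube_shift {f : (Fin d → ℝ) → ℝ} (hf : Continuous f) (h0 : ∀ x, 0 ≤ f x) {R : ℝ}
    {s : Fin d → ℝ} (hs : ‖s‖ ≤ R) : ∫ x in cube d R, f (x + s) ≤ ∫ x in cube d (2 * R), f x := by
  rw [← integral_indicator (cube_meas d R), ← integral_indicator (cube_meas d (2 * R))]
  have h1 : ∫ x, indicator (cube d (2 * R)) f x = ∫ x, indicator (cube d (2 * R)) f (x + s) :=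
    (integral_add_right_eq_self (indicator (cube d (2 * R)) f) s).symm
  rw [h1]
  have i1 : Integrable (indicator (cube d (2 * R)) f) := by
    rw [integrable_indicator_iff (cube_meas d _)]
    exact cont_int hf _
  refine integral_mono ?_ (i1.comp_add_right s) fun x => ?_
  · rw [integrable_indicator_iff (cube_meas d _)]
    exact cont_int (hf.comp (by fun_prop)) _
  · by_cases hx : x ∈ cube d R
    · have h2 : x + s ∈ cube d (2 * R) := by
        rw [mem_cube] at hx ⊢
        intro l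
        have h3 : |s l| ≤ R := (norm_le_pi_norm s l).trans hs
        have h4 := abs_add_le (x l) (s l)
        have h5 := hx l
        rw [Pi.add_apply]
        linarith
      simp only [indicator_of_mem hx, indicator_of_mem h2]
      exact le_rfl
    · simp only [indicator_of_notMem hx]
      exact indicator_nonneg (fun y _ => h0 y) _

structure Wt (w : (Fin d → ℝ) → ℝ) (R Λ : ℝ) : Prop where
  cont : Continuous w
  nonneg : ∀ x, 0 ≤ w x
  le_one : ∀ x, w x ≤ 1
  supp : ∀ x, x ∉ cube d R → w x = 0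
  lip : ∀ x y, |w x - w y| ≤ Λ * ‖x - y‖

lemma Wt.int {w : (Fin d → ℝ) → ℝ} {R Λ : ℝ} (hw : Wt w R Λ) (Φ : (Fin d → ℝ) → ℂ) :
    ∫ x, (w x : ℂ) * Φ x = ∫ x in cube d R, (w x : ℂ) * Φ x := by
  rw [← integral_indicator (cube_meas d R)]
  congr 1
  ext x
  by_cases hx : x ∈ cube d R
  · rw [indicator_of_mem hx]
  · rw [indicator_of_notMem hx, hw.supp x hx, Complex.ofReal_zero, zero_mul]

lemma Wt.shift {w : (Fin d → ℝ) → ℝ} {R Λ : ℝ} (hw : Wt w R Λ) {Φ : (Fin d → ℝ) → ℂ}
    (hΦ : Continuous Φ) {s : Fin d → ℝ} (hs : ‖s‖ ≤ R) :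
    ‖(∫ x, (w x : ℂ) * Φ x) - ∫ x, (w x : ℂ) * Φ (x + s)‖ ≤
      Λ * ‖s‖ * ∫ x in cube d (2 * R), ‖Φ x‖ := by
  have h1 : ∫ x, (w (x - s) : ℂ) * Φ x = ∫ x, (w x : ℂ) * Φ (x + s) := by
    rw [← integral_add_right_eq_self (fun x => (w (x - s) : ℂ) * Φ x) s]
    simp only [add_sub_cancel_right]
  rw [← h1]
  have hR : 0 ≤ R := (norm_nonneg s).trans hs
  have sub1 : cube d R ⊆ cube d (2 * R) := by
    intro x hx
    rw [mem_cube] at hx ⊢
    intro l
    have := hx l
    linarith
  have supp2 : ∀ x, x ∉ cube d (2 * R) → w (x - s) = 0 := by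
    intro x hx
    refine hw.supp _ fun h => hx ?_
    rw [mem_cube] at h ⊢
    intro l
    have h3 : |s l| ≤ R := (norm_le_pi_norm s l).trans hs
    have h4 := h l
    rw [Pi.sub_apply] at h4
    have h5 : |x l| ≤ |x l - s l| + |s l| := by
      have := abs_add_le (x l - s l) (s l)
      rwa [sub_add_cancel] at this
    linarith
  have e1 : ∫ x, (w x : ℂ) * Φ x = ∫ x in cube d (2 * R), (w x : ℂ) * Φ x := by
    rw [← integral_indicator (cube_meas d _)]
    congr 1
    ext x
    by_cases hx : x ∈ cube d (2 * R)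
    · rw [indicator_of_mem hx]
    · rw [indicator_of_notMem hx, hw.supp x (fun h => hx (sub1 h)), Complex.ofReal_zero, zero_mul]
  have e2 : ∫ x, (w (x - s) : ℂ) * Φ x = ∫ x in cube d (2 * R), (w (x - s) : ℂ) * Φ x := by
    rw [← integral_indicator (cube_meas d _)]
    congr 1
    ext x
    by_cases hx : x ∈ cube d (2 * R)
    · rw [indicator_of_mem hx]
    · rw [indicator_of_notMem hx, supp2 x hx, Complex.ofReal_zero, zero_mul]
  have cw := hw.cont
  have cw2 : Continuous fun x => w (x - s) := cw.comp (by fun_prop)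
  rw [e1, e2, ← integral_sub (cont_int (by fun_prop) _) (cont_int (by fun_prop) _)]
  refine (norm_integral_le_integral_norm _).trans ?_
  rw [← integral_const_mul]
  refine integral_mono (cont_int (by fun_prop) _) (cont_int (by fun_prop) _) fun x => ?_
  simp only
  rw [← sub_mul, ← Complex.ofReal_sub, norm_mul, Complex.norm_real, Real.norm_eq_abs]
  have h3 := hw.lip x (x - s)
  rw [sub_sub_cancel] at h3
  exact mul_le_mul_of_nonneg_right h3 (norm_nonneg _)

lemma dbl_const (H : ℝ) (z : ℂ) : ((H : ℂ) ^ 2) * z = ∫ _a in (0:ℝ)..H, ∫ _b in (0:ℝ)..H, z := by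
  rw [intervalIntegral.integral_const, intervalIntegral.integral_const, sub_zero, Complex.real_smul,
    Complex.real_smul]
  ring

lemma dbl_avg {H E : ℝ} (hH : 0 < H) {S : ℝ → ℝ → ℂ} (cS : Continuous fun p : ℝ × ℝ => S p.1 p.2)
    (z : ℂ) (h : ∀ a ∈ Icc 0 H, ∀ b ∈ Icc 0 H, ‖z - S a b‖ ≤ E) :
    ‖((H : ℂ) ^ 2) * z - ∫ a in (0:ℝ)..H, ∫ b in (0:ℝ)..H, S a b‖ ≤ H ^ 2 * E := by
  have c1 : Continuous fun a : ℝ => ∫ b in (0:ℝ)..H, S a b :=
    intervalIntegral.continuous_parametric_intervalIntegral_of_continuous' cS _ _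
  rw [dbl_const, ← intervalIntegral.integral_sub (continuous_const.intervalIntegrable _ _)
    (c1.intervalIntegrable _ _)]
  have h1 : ∀ a ∈ Icc 0 H, ‖(∫ _b in (0:ℝ)..H, z) - ∫ b in (0:ℝ)..H, S a b‖ ≤ H * E := by
    intro a ha
    have c2 : Continuous fun b : ℝ => S a b := cS.comp (by fun_prop : Continuous fun b : ℝ => (a, b))
    rw [← intervalIntegral.integral_sub (continuous_const.intervalIntegrable _ _)
      (c2.intervalIntegrable _ _)]
    have h2 := intervalIntegral.norm_integral_le_of_norm_le_const (a := (0:ℝ)) (b := H)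
      (f := fun b => z - S a b) (C := E) (fun b hb => by
        rw [uIoc_of_le hH.le] at hb
        exact h a ha b ⟨hb.1.le, hb.2⟩)
    rw [sub_zero, abs_of_pos hH] at h2
    linarith
  have h3 := intervalIntegral.norm_integral_le_of_norm_le_const (a := (0:ℝ)) (b := H)
    (f := fun a => (∫ _b in (0:ℝ)..H, z) - ∫ b in (0:ℝ)..H, S a b) (C := H * E) (fun a ha => by
      rw [uIoc_of_le hH.le] at ha
      exact h1 a ⟨ha.1.le, ha.2⟩)
  rw [sub_zero, abs_of_pos hH] at h3
  linarith

end

end Pool.Agent.Y752.LP
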