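import Pool.Agent.Y752.LP.C1

set_option autoImplicit false

/-! Averaging over translations: the main estimate. -/

namespace Pool.Agent.Y752.LP

open Complex MeasureTheory Set Matrix
open Pool.Agent.Y752.KP (ee ee_norm ee_cont op_gen ee_arg)

noncomputable section

variable {d : ℕ}

theorem step {w : (Fin d → ℝ) → ℝ} {R Λ : ℝ} (hw : Wt w R Λ) (hΛ : 0 ≤ Λ) {F : ℝ → ℂ}
    {P Q : (Fin d → ℝ) → ℂ} (cF : Continuous F) (cP : Continuous P) (cQ : Continuous Q)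
    {ψ u v : Fin d → ℝ} (hPu : ∀ (a : ℝ) x, P (x + a • u) = P x)
    (hQv : ∀ (b : ℝ) x, Q (x + b • v) = Q x) (hα : ψ ⬝ᵥ u ≠ 0) (hβ : ψ ⬝ᵥ v ≠ 0)
    {H M K : ℝ} (hH : 0 < H) (hM0 : 0 < M) (hHR : H * (‖u‖ + ‖v‖) ≤ R)
    (hK : sz ψ * R + 2 * ((|ψ ⬝ᵥ u| + |ψ ⬝ᵥ v|) * H) ≤ K)
    (hM : ∀ A B lam : ℝ, -K ≤ A → A ≤ B → B ≤ K → B - A ≤ 4 * ((|ψ ⬝ᵥ u| + |ψ ⬝ᵥ v|) * H) →
      ‖∫ t in A..B, F t * ee lam t‖ ≤ M) :
    ‖∫ x, (w x : ℂ) * (F (ψ ⬝ᵥ x) * (P x * Q x))‖ ≤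
      M / Real.sqrt (|ψ ⬝ᵥ u| * |ψ ⬝ᵥ v|) / (2 * H) * ((∫ x in cube d (2 * R), ‖P x‖ ^ 2) +
        ∫ x in cube d (2 * R), ‖Q x‖ ^ 2) +
      Λ * (H * (‖u‖ + ‖v‖)) * ∫ x in cube d (2 * R), ‖F (ψ ⬝ᵥ x) * (P x * Q x)‖ := by
  set α := ψ ⬝ᵥ u with hαd
  set β := ψ ⬝ᵥ v with hβd
  set Φ : (Fin d → ℝ) → ℂ := fun x => F (ψ ⬝ᵥ x) * (P x * Q x) with hΦ
  have cd := dot_cont ψ
  have cΦ : Continuous Φ := (cF.comp cd).mul (cP.mul cQ)
  set I0 := ∫ x, (w x : ℂ) * Φ x with hI0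
  have cw := hw.cont
  have hR0 : 0 ≤ R := le_trans (by positivity) hHR
  set S : ℝ → ℝ → ℂ := fun a b => ∫ x in cube d R, (w x : ℂ) * Φ (x + (a • u + b • v)) with hS
  have cS : Continuous fun p : ℝ × ℝ => S p.1 p.2 := by
    rw [hS]
    refine param_cont (X := ℝ × ℝ) (Ψ := fun p x => (w x : ℂ) * Φ (x + (p.1 • u + p.2 • v))) ?_
    exact (Complex.continuous_ofReal.comp (cw.comp continuous_snd)).mul (cΦ.comp (by fun_prop))
  have hsn : ∀ a ∈ Icc 0 H, ∀ b ∈ Icc 0 H, ‖a • u + b • v‖ ≤ H * (‖u‖ + ‖v‖) := by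
    intro a ha b hb
    refine (norm_add_le _ _).trans ?_
    rw [norm_smul, norm_smul, Real.norm_of_nonneg ha.1, Real.norm_of_nonneg hb.1, mul_add]
    have h1 := mul_le_mul_of_nonneg_right ha.2 (norm_nonneg u)
    have h2 := mul_le_mul_of_nonneg_right hb.2 (norm_nonneg v)
    linarith
  set E := Λ * (H * (‖u‖ + ‖v‖)) * ∫ x in cube d (2 * R), ‖Φ x‖ with hE
  have hN0 : 0 ≤ ∫ x in cube d (2 * R), ‖Φ x‖ := integral_nonneg fun _ => norm_nonneg _
  have hIS : ∀ a ∈ Icc 0 H, ∀ b ∈ Icc 0 H, ‖I0 - S a b‖ ≤ E := by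
    intro a ha b hb
    have h1 := hsn a ha b hb
    have h2 := hw.shift cΦ (s := a • u + b • v) (h1.trans hHR)
    rw [hw.int (fun x => Φ (x + (a • u + b • v)))] at h2
    refine h2.trans ?_
    rw [hE]
    gcongr
  -- the double average
  have hdouble : ‖((H : ℂ) ^ 2) * I0 - ∫ a in (0:ℝ)..H, ∫ b in (0:ℝ)..H, S a b‖ ≤ H ^ 2 * E :=
    dbl_avg hH cS I0 hIS
  -- interchange
  have hswap : ∫ a in (0:ℝ)..H, ∫ b in (0:ℝ)..H, S a b =
      ∫ x in cube d R, (w x : ℂ) * ∫ a in (0:ℝ)..H, ∫ b in (0:ℝ)..H,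
        F (ψ ⬝ᵥ x + α * a + β * b) * (P (x + b • v) * Q (x + a • u)) := by
    have e1 : ∀ a : ℝ, ∫ b in (0:ℝ)..H, S a b = ∫ x in cube d R, ∫ b in (0:ℝ)..H,
        (w x : ℂ) * Φ (x + (a • u + b • v)) := by
      intro a
      refine swap1 hH.le (Ψ := fun x b => (w x : ℂ) * Φ (x + (a • u + b • v))) ?_
      exact (Complex.continuous_ofReal.comp (cw.comp continuous_fst)).mul (cΦ.comp (by fun_prop))
    simp_rw [e1]
    rw [swap1 hH.le (Ψ := fun x a => ∫ b in (0:ℝ)..H, (w x : ℂ) * Φ (x + (a • u + b • v)))]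
    · refine setIntegral_congr_fun (cube_meas d R) fun x _ => ?_
      rw [← intervalIntegral.integral_const_mul]
      refine intervalIntegral.integral_congr fun a _ => ?_
      rw [← intervalIntegral.integral_const_mul]
      refine intervalIntegral.integral_congr fun b _ => ?_
      simp only [hΦ]
      have e2 : P (x + (a • u + b • v)) = P (x + b • v) := by
        rw [add_comm (a • u), ← add_assoc, hPu]
      have e3 : Q (x + (a • u + b • v)) = Q (x + a • u) := by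
        rw [← add_assoc, hQv]
      have e4 : ψ ⬝ᵥ (x + (a • u + b • v)) = ψ ⬝ᵥ x + α * a + β * b := by
        rw [dotProduct_add, dotProduct_add, dotProduct_smul, dotProduct_smul, smul_eq_mul,
          smul_eq_mul, hαd, hβd]
        ring
      rw [e2, e3, e4]
    · refine intervalIntegral.continuous_parametric_intervalIntegral_of_continuous' ?_ _ _
      exact (Complex.continuous_ofReal.comp (cw.comp (by fun_prop))).mul (cΦ.comp (by fun_prop))
  -- bound of the inner integral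
  set c := M / Real.sqrt (|α| * |β|) / 2 with hc
  have hc0 : 0 ≤ c := by positivity
  have hin : ∀ x ∈ cube d R, ‖∫ a in (0:ℝ)..H, ∫ b in (0:ℝ)..H,
      F (ψ ⬝ᵥ x + α * a + β * b) * (P (x + b • v) * Q (x + a • u))‖ ≤
      c * ((∫ b in (0:ℝ)..H, ‖P (x + b • v)‖ ^ 2) + ∫ a in (0:ℝ)..H, ‖Q (x + a • u)‖ ^ 2) := by
    intro x hx
    have h1 := abs_le.1 (dot_le (c := ψ) hx)
    refine bil cF (P := fun b => P (x + b • v)) (Q := fun a => Q (x + a • u)) (cP.comp (by fun_prop))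
      (cQ.comp (by fun_prop)) hα hβ hH.le hM0 fun A B lam hA hAB hB => ?_
    exact hM A B lam (by linarith [h1.1]) hAB (by linarith [h1.2]) (by linarith)
  have hS2 : ‖∫ a in (0:ℝ)..H, ∫ b in (0:ℝ)..H, S a b‖ ≤
      H * (c * ((∫ x in cube d (2 * R), ‖P x‖ ^ 2) + ∫ x in cube d (2 * R), ‖Q x‖ ^ 2)) := by
    rw [hswap]
    have cp1 : Continuous fun p : (Fin d → ℝ) × ℝ => ‖P (p.1 + p.2 • v)‖ ^ 2 :=
      (cP.comp (by fun_prop)).norm.pow 2
    have cp2 : Continuous fun p : (Fin d → ℝ) × ℝ => ‖Q (p.1 + p.2 • u)‖ ^ 2 :=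
      (cQ.comp (by fun_prop)).norm.pow 2
    have cq1 : Continuous fun x : Fin d → ℝ => ∫ b in (0:ℝ)..H, ‖P (x + b • v)‖ ^ 2 :=
      intervalIntegral.continuous_parametric_intervalIntegral_of_continuous' cp1 _ _
    have cq2 : Continuous fun x : Fin d → ℝ => ∫ b in (0:ℝ)..H, ‖Q (x + b • u)‖ ^ 2 :=
      intervalIntegral.continuous_parametric_intervalIntegral_of_continuous' cp2 _ _
    have cin : Continuous fun x : Fin d → ℝ => ∫ a in (0:ℝ)..H, ∫ b in (0:ℝ)..H,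
      F (ψ ⬝ᵥ x + α * a + β * b) * (P (x + b • v) * Q (x + a • u)) := by
      refine intervalIntegral.continuous_parametric_intervalIntegral_of_continuous' ?_ _ _
      refine intervalIntegral.continuous_parametric_intervalIntegral_of_continuous' ?_ _ _
      have c1 : Continuous fun p : ((Fin d → ℝ) × ℝ) × ℝ => ψ ⬝ᵥ p.1.1 := cd.comp (by fun_prop)
      refine (cF.comp ?_).mul ((cP.comp (by fun_prop)).mul (cQ.comp (by fun_prop)))
      fun_prop
    have hmulP : ∫ x in cube d R, ∫ b in (0:ℝ)..H, ‖P (x + b • v)‖ ^ 2 ≤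
        H * ∫ x in cube d (2 * R), ‖P x‖ ^ 2 := by
      rw [← swap1 hH.le cp1]
      have h2 : ∀ b ∈ Icc 0 H, ∫ x in cube d R, ‖P (x + b • v)‖ ^ 2 ≤ ∫ x in cube d (2 * R), ‖P x‖ ^ 2 := by
        intro b hb
        refine cube_shift (f := fun x => ‖P x‖ ^ 2) (cP.norm.pow 2) (fun x => by positivity) ?_
        have h3 := hsn 0 ⟨le_rfl, hH.le⟩ b hb
        rw [zero_smul, zero_add] at h3
        exact h3.trans hHR
      have c3 : Continuous fun b : ℝ => ∫ x in cube d R, ‖P (x + b • v)‖ ^ 2 :=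
        param_cont (X := ℝ) (Ψ := fun b x => ‖P (x + b • v)‖ ^ 2) (cp1.comp (by fun_prop :
          Continuous fun p : ℝ × (Fin d → ℝ) => (p.2, p.1)))
      calc ∫ b in (0:ℝ)..H, ∫ x in cube d R, ‖P (x + b • v)‖ ^ 2
          ≤ ∫ _b in (0:ℝ)..H, ∫ x in cube d (2 * R), ‖P x‖ ^ 2 :=
            intervalIntegral.integral_mono_on hH.le (c3.intervalIntegrable _ _)
              (continuous_const.intervalIntegrable _ _) h2
        _ = _ := by rw [intervalIntegral.integral_const, sub_zero, smul_eq_mul]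
    have hmulQ : ∫ x in cube d R, ∫ b in (0:ℝ)..H, ‖Q (x + b • u)‖ ^ 2 ≤
        H * ∫ x in cube d (2 * R), ‖Q x‖ ^ 2 := by
      rw [← swap1 hH.le cp2]
      have h2 : ∀ b ∈ Icc 0 H, ∫ x in cube d R, ‖Q (x + b • u)‖ ^ 2 ≤ ∫ x in cube d (2 * R), ‖Q x‖ ^ 2 := by
        intro b hb
        refine cube_shift (f := fun x => ‖Q x‖ ^ 2) (cQ.norm.pow 2) (fun x => by positivity) ?_
        have h3 := hsn b hb 0 ⟨le_rfl, hH.le⟩
        rw [zero_smul, add_zero] at h3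
        exact h3.trans hHR
      have c3 : Continuous fun b : ℝ => ∫ x in cube d R, ‖Q (x + b • u)‖ ^ 2 :=
        param_cont (X := ℝ) (Ψ := fun b x => ‖Q (x + b • u)‖ ^ 2) (cp2.comp (by fun_prop :
          Continuous fun p : ℝ × (Fin d → ℝ) => (p.2, p.1)))
      calc ∫ b in (0:ℝ)..H, ∫ x in cube d R, ‖Q (x + b • u)‖ ^ 2
          ≤ ∫ _b in (0:ℝ)..H, ∫ x in cube d (2 * R), ‖Q x‖ ^ 2 :=
            intervalIntegral.integral_mono_on hH.le (c3.intervalIntegrable _ _)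
              (continuous_const.intervalIntegrable _ _) h2
        _ = _ := by rw [intervalIntegral.integral_const, sub_zero, smul_eq_mul]
    refine (norm_integral_le_integral_norm _).trans ?_
    calc ∫ x in cube d R, ‖(w x : ℂ) * ∫ a in (0:ℝ)..H, ∫ b in (0:ℝ)..H,
          F (ψ ⬝ᵥ x + α * a + β * b) * (P (x + b • v) * Q (x + a • u))‖
        ≤ ∫ x in cube d R, c * ((∫ b in (0:ℝ)..H, ‖P (x + b • v)‖ ^ 2) +
            ∫ a in (0:ℝ)..H, ‖Q (x + a • u)‖ ^ 2) := by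
          refine setIntegral_mono_on (cont_int (by fun_prop) _) (cont_int (by fun_prop) _)
            (cube_meas d R) fun x hx => ?_
          rw [norm_mul, Complex.norm_real, Real.norm_of_nonneg (hw.nonneg x)]
          refine le_trans ?_ (hin x hx)
          exact mul_le_of_le_one_left (norm_nonneg _) (hw.le_one x)
      _ = c * ((∫ x in cube d R, ∫ b in (0:ℝ)..H, ‖P (x + b • v)‖ ^ 2) +
            ∫ x in cube d R, ∫ a in (0:ℝ)..H, ‖Q (x + a • u)‖ ^ 2) := by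
          rw [integral_const_mul, integral_add (cont_int cq1 _) (cont_int cq2 _)]
      _ ≤ c * (H * (∫ x in cube d (2 * R), ‖P x‖ ^ 2) + H * ∫ x in cube d (2 * R), ‖Q x‖ ^ 2) := by
          gcongr
      _ = _ := by ring
  have hfin : H ^ 2 * ‖I0‖ ≤ H ^ 2 * E + H * (c * ((∫ x in cube d (2 * R), ‖P x‖ ^ 2) +
      ∫ x in cube d (2 * R), ‖Q x‖ ^ 2)) := by
    have h1 : ‖((H : ℂ) ^ 2) * I0‖ = H ^ 2 * ‖I0‖ := by
      rw [norm_mul, norm_pow, Complex.norm_real, Real.norm_of_nonneg hH.le]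
    rw [← h1]
    have h2 := norm_sub_norm_le (((H : ℂ) ^ 2) * I0) (∫ a in (0:ℝ)..H, ∫ b in (0:ℝ)..H, S a b)
    linarith
  have hH2 : 0 < H ^ 2 := by positivity
  have h4 : ‖I0‖ ≤ (H ^ 2 * E + H * (c * ((∫ x in cube d (2 * R), ‖P x‖ ^ 2) +
      ∫ x in cube d (2 * R), ‖Q x‖ ^ 2))) / H ^ 2 := by
    rw [le_div_iff₀ hH2]
    linarith
  refine h4.trans (le_of_eq ?_)
  rw [hE, hc]
  field_simp
  ring

end

end Pool.Agent.Y752.LP
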