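import Pool.Agent.Y752.LP.C2

set_option autoImplicit false

/-! The square of zeta and its main function on symmetric intervals. -/

namespace Pool.Agent.Y752.LP

open Complex MeasureTheory Set
open Pool.Agent.TH612.GS (z)
open Pool.Agent.Y752.KP

noncomputable section

lemma z_neg (u : ℝ) : z (-u) = (starRingEnd ℂ) (z u) := by
  unfold z
  rw [← riemannZeta_conj]
  congr 1
  rw [map_add, map_mul, conj_I, conj_ofReal, map_div₀, map_one, map_ofNat]
  push_cast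
  ring

lemma f2_neg (u : ℝ) : f2 (-u) = f2 u := by
  unfold f2
  rw [z_neg, Complex.norm_conj]

lemma ee_neg2 (θ u : ℝ) : ee θ (-u) = ee (-θ) u := by
  unfold ee
  congr 2
  push_cast
  ring

lemma gY_neg (Y : ℕ) (u : ℝ) : gY Y (-u) = gY Y u := by
  unfold gY
  rw [qs_swap Y (fun q => ((wt q * (Real.log ((1 + |u|) / (2 * Real.pi)) - Real.log (q.1 * q.2) +
    2 * Real.eulerMascheroniConstant) : ℝ) : ℂ) * ee (Real.log q.1 - Real.log q.2) u)]
  refine Finset.sum_congr rfl fun q _ => ?_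
  rw [wt_swap, abs_neg, Prod.fst_swap, Prod.snd_swap, ee_neg2, neg_sub, mul_comm (q.2 : ℝ)]

lemma log_scale {K T : ℝ} (hK : 1 ≤ K) (hT : K ≤ T) (hT1 : 1 < T) : Real.log (K * T) ≤ 2 * Real.log T := by
  rw [Real.log_mul (by linarith) (by linarith)]
  have := Real.log_le_log (by linarith) hT
  linarith

theorem KAs {K : ℝ} (hK : 1 ≤ K) : ∃ C T₀ : ℝ, 1 ≤ C ∧ 1000 ≤ T₀ ∧ ∀ T : ℝ, T₀ ≤ T → ∀ Y : ℕ, 1 ≤ Y →
    (Y : ℝ) ≤ T ^ (1 / 20 : ℝ) → ∀ A B lam : ℝ, -(K * T) ≤ A → A ≤ B → B ≤ K * T →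
    ‖∫ u in A..B, (f2 u - gY Y u) * ee lam u‖ ≤
      C * Real.log T ^ 5 * ((B - A) / Real.sqrt Y + T ^ (9 / 10 : ℝ) * (Y : ℝ) ^ 2) := by
  obtain ⟨C, T0, hC, hT0, hKA⟩ := KA
  refine ⟨64 * K * C, max T0 K, by nlinarith, hT0.trans (le_max_left _ _), ?_⟩
  intro T hT Y hY1 hY A B lam hA hAB hB
  have hTT0 : T0 ≤ T := (le_max_left _ _).trans hT
  have hTK : K ≤ T := (le_max_right _ _).trans hT
  have hT1000 : 1000 ≤ T := hT0.trans hTT0
  have hTp : 0 < T := by linarith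
  have hKT : T ≤ K * T := by nlinarith
  have hKT0 : T0 ≤ K * T := hTT0.trans hKT
  have hY' : (Y : ℝ) ≤ (K * T) ^ (1 / 20 : ℝ) := hY.trans (Real.rpow_le_rpow hTp.le hKT (by norm_num))
  have hlog := log_scale hK hTK (by linarith)
  have hlog0 : 0 ≤ Real.log (K * T) := Real.log_nonneg (by linarith)
  have hlogT : 0 ≤ Real.log T := Real.log_nonneg (by linarith)
  have hpow : (K * T) ^ (9 / 10 : ℝ) ≤ K * T ^ (9 / 10 : ℝ) := by
    rw [Real.mul_rpow (by linarith) hTp.le]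
    have : K ^ (9 / 10 : ℝ) ≤ K ^ (1:ℝ) := Real.rpow_le_rpow_of_exponent_le hK (by norm_num)
    rw [Real.rpow_one] at this
    gcongr
  -- bound on the positive side
  have hpos : ∀ A B lam : ℝ, 0 ≤ A → A ≤ B → B ≤ K * T →
      ‖∫ u in A..B, (f2 u - gY Y u) * ee lam u‖ ≤ 32 * K * C * Real.log T ^ 5 *
        ((B - A) / Real.sqrt Y + T ^ (9 / 10 : ℝ) * (Y : ℝ) ^ 2) := by
    intro A B lam hA hAB hB
    have hBA : 0 ≤ B - A := by linarith
    refine (hKA (K * T) hKT0 Y hY1 hY' A B lam hA hAB (by linarith [mul_pos (by linarith : 0 < K) hTp])).trans ?_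
    calc C * Real.log (K * T) ^ 5 * ((B - A) / Real.sqrt Y + (K * T) ^ (9 / 10 : ℝ) * (Y : ℝ) ^ 2)
        ≤ C * (2 * Real.log T) ^ 5 * (K * ((B - A) / Real.sqrt Y) + K * T ^ (9 / 10 : ℝ) * (Y : ℝ) ^ 2) := by
          have h1 : (B - A) / Real.sqrt Y ≤ K * ((B - A) / Real.sqrt Y) :=
            le_mul_of_one_le_left (by positivity) hK
          gcongr
      _ = _ := by ring
  have ce : Continuous fun u => f2 u - gY Y u := f2_cont.sub (gY_cont Y)
  have cee : Continuous fun u => (f2 u - gY Y u) * ee lam u := ce.mul (ee_cont lam)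
  have hneg : ∀ A B : ℝ, ∫ u in A..B, (f2 u - gY Y u) * ee lam u =
      ∫ u in (-B)..(-A), (f2 u - gY Y u) * ee (-lam) u := by
    intro A B
    rw [← intervalIntegral.integral_comp_neg]
    refine intervalIntegral.integral_congr fun u _ => ?_
    rw [f2_neg, gY_neg, ee_neg2, neg_neg]
  have hX0 : 0 ≤ T ^ (9 / 10 : ℝ) * (Y : ℝ) ^ 2 := by positivity
  have hsq : 0 ≤ Real.sqrt Y := Real.sqrt_nonneg _
  have hC0 : 0 ≤ 32 * K * C * Real.log T ^ 5 := by positivity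
  rcases le_total 0 A with h0 | h0
  · refine (hpos A B lam h0 hAB hB).trans ?_
    have h1 : 0 ≤ (B - A) / Real.sqrt Y := div_nonneg (by linarith) hsq
    nlinarith
  · rcases le_total B 0 with h1 | h1
    · rw [hneg]
      refine (hpos (-B) (-A) (-lam) (by linarith) (by linarith) (by linarith)).trans ?_
      have h2 : 0 ≤ (B - A) / Real.sqrt Y := div_nonneg (by linarith) hsq
      have h3 : (-A - -B) / Real.sqrt Y = (B - A) / Real.sqrt Y := by congr 1; ring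
      rw [h3]
      nlinarith
    · rw [← intervalIntegral.integral_add_adjacent_intervals (cee.intervalIntegrable A 0)
        (cee.intervalIntegrable 0 B), hneg A 0, neg_zero]
      refine (norm_add_le _ _).trans ?_
      have h2 := hpos 0 (-A) (-lam) le_rfl (by linarith) (by linarith)
      have h3 := hpos 0 B lam le_rfl h1 hB
      have h4 : (B - A) / Real.sqrt Y = (-A - 0) / Real.sqrt Y + (B - 0) / Real.sqrt Y := by
        rw [← add_div]; congr 1; ring
      rw [h4]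
      have h5 : 0 ≤ (-A - 0) / Real.sqrt Y := div_nonneg (by linarith) hsq
      have h6 : 0 ≤ (B - 0) / Real.sqrt Y := div_nonneg (by linarith) hsq
      nlinarith

/-- mean squares on symmetric intervals -/
theorem l2s {K : ℝ} (hK : 1 ≤ K) : ∃ C T₀ : ℝ, 1 ≤ C ∧ 1000 ≤ T₀ ∧ ∀ T : ℝ, T₀ ≤ T → ∀ Y : ℕ, 1 ≤ Y →
    (Y : ℝ) ≤ T ^ (1 / 20 : ℝ) →
    ∫ u in (-(K * T))..(K * T), ‖f2 u‖ ^ 2 ≤ C * T * Real.log T ^ 4 ∧
    ∫ u in (-(K * T))..(K * T), ‖gY Y u‖ ^ 2 ≤ C * T * Real.log T ^ 4 := by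
  obtain ⟨T1, hT1, hsz⟩ := Y_size (show (0:ℝ) < 1 / 40 by norm_num) le_rfl
  refine ⟨2560 * K, max T1 K, by linarith, hT1.trans (le_max_left _ _), ?_⟩
  intro T hT Y hY1 hY
  have hTT0 : T1 ≤ T := (le_max_left _ _).trans hT
  have hTK : K ≤ T := (le_max_right _ _).trans hT
  have hT1000 : 1000 ≤ T := hT1.trans hTT0
  have hTp : 0 < T := by linarith
  have hKT : T ≤ K * T := by nlinarith
  have hlog := log_scale hK hTK (by linarith)
  have hlog0 : 0 ≤ Real.log (K * T) := Real.log_nonneg (by linarith)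
  have hlogT : 0 ≤ Real.log T := Real.log_nonneg (by linarith)
  have hlog4 : Real.log (K * T) ^ 4 ≤ 16 * Real.log T ^ 4 := by
    calc Real.log (K * T) ^ 4 ≤ (2 * Real.log T) ^ 4 := by gcongr
      _ = _ := by ring
  have hYr : (1:ℝ) ≤ Y := by exact_mod_cast hY1
  have hsplit : ∀ h : ℝ → ℂ, Continuous h → (∀ u, h (-u) = h u) →
      ∫ u in (-(K * T))..(K * T), ‖h u‖ ^ 2 = 2 * ∫ u in (0:ℝ)..(K * T), ‖h u‖ ^ 2 := by
    intro h ch he
    have c2 : Continuous fun u => ‖h u‖ ^ 2 := ch.norm.pow 2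
    rw [← intervalIntegral.integral_add_adjacent_intervals (c2.intervalIntegrable _ 0)
      (c2.intervalIntegrable 0 _)]
    have h1 : ∫ u in (-(K * T))..0, ‖h u‖ ^ 2 = ∫ u in (0:ℝ)..(K * T), ‖h u‖ ^ 2 := by
      have h2 := intervalIntegral.integral_comp_neg (a := (0:ℝ)) (b := K * T) (fun u => ‖h u‖ ^ 2)
      rw [neg_zero] at h2
      rw [← h2]
      refine intervalIntegral.integral_congr fun u _ => ?_
      rw [he]
    rw [h1]
    ring
  constructor
  · rw [hsplit f2 f2_cont f2_neg]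
    have h1 := z_four (T := K * T) (by linarith)
    have h2 : ∫ u in (0:ℝ)..(K * T), ‖f2 u‖ ^ 2 = ∫ u in (0:ℝ)..(K * T), (‖z u‖ ^ 2) ^ 2 := by
      refine intervalIntegral.integral_congr fun u _ => ?_
      rw [f2_norm]
    rw [h2]
    calc 2 * ∫ u in (0:ℝ)..(K * T), (‖z u‖ ^ 2) ^ 2 ≤ 2 * (K * T * (16 * Real.log T ^ 4)) := by
          refine mul_le_mul_of_nonneg_left (h1.trans ?_) (by norm_num)
          gcongr
      _ = 32 * (K * T * Real.log T ^ 4) := by ring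
      _ ≤ 2560 * K * T * Real.log T ^ 4 := by
          have : 0 ≤ K * T * Real.log T ^ 4 := by positivity
          linarith
  · rw [hsplit (gY Y) (gY_cont Y) (gY_neg Y)]
    have hYT : (Y : ℝ) + 1 ≤ T ∧ (Y : ℝ) ^ 6 ≤ T := by
      have hT1' : (1:ℝ) ≤ T := by linarith
      have h1 : (Y : ℝ) ^ 6 ≤ (T ^ (1 / 20 : ℝ)) ^ 6 := by gcongr
      have h2 : (T ^ (1 / 20 : ℝ)) ^ 6 = T ^ (3 / 10 : ℝ) := by
        rw [← Real.rpow_natCast, ← Real.rpow_mul hTp.le]; norm_num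
      have h3 : T ^ (3 / 10 : ℝ) ≤ T ^ (1 / 2 : ℝ) := Real.rpow_le_rpow_of_exponent_le hT1' (by norm_num)
      have h4 : T ^ (1 / 2 : ℝ) * T ^ (1 / 2 : ℝ) = T := by
        rw [← Real.rpow_add hTp]; norm_num
      have h5 : 2 ≤ T ^ (1 / 2 : ℝ) := by
        rw [← Real.sqrt_eq_rpow]
        exact Real.le_sqrt_of_sq_le (by linarith)
      have h6 : (Y : ℝ) ≤ (Y : ℝ) ^ 6 := le_self_pow₀ hYr (by norm_num)
      constructor <;> nlinarith
    have h1 := g_ms (T := K * T) (by linarith) hY1 (by linarith [hYT.1]) (A := 0) (B := K * T) le_rfl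
      (by linarith) (by linarith [hYT.2])
    calc 2 * ∫ u in (0:ℝ)..(K * T), ‖gY Y u‖ ^ 2 ≤ 2 * (80 * (K * T - 0) * (16 * Real.log T ^ 4)) := by
          refine mul_le_mul_of_nonneg_left (h1.trans ?_) (by norm_num)
          have : 0 ≤ K * T - 0 := by linarith
          gcongr
      _ = 2560 * K * T * Real.log T ^ 4 := by ring

end

end Pool.Agent.Y752.LP
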