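import Pool.Agent.Y752.LP.C2

set_option autoImplicit false

/-! Products of functions of independent forms: the version for continuous functions. -/

namespace Pool.Agent.Y752.LP

open MeasureTheory Set Matrix
open scoped ENNReal

noncomputable section

variable {ι : Type} {d : ℕ}

theorem prod_int (ψ : ι → Fin d → ℝ) (s : Finset ι) (hs : LinearIndepOn ℝ ψ (s : Set ι)) :
    ∃ C K : ℝ, 1 ≤ C ∧ 1 ≤ K ∧ ∀ g : ι → ℝ → ℝ, (∀ j, Continuous (g j)) → (∀ j u, 0 ≤ g j u) →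
      ∀ R B : ℝ, 0 < R → 0 ≤ B → (∀ j ∈ s, ∫ u in (-(K * R))..(K * R), g j u ≤ B * R) →
      ∫ x in cube d R, ∏ j ∈ s, g j (ψ j ⬝ᵥ x) ≤ C * R ^ d * B ^ s.card := by
  obtain ⟨C, K, hC, hK, h⟩ := ind_bound ψ s hs
  refine ⟨C, K, hC, hK, fun g cg g0 R B hR hB hint => ?_⟩
  have cprod : Continuous fun x : Fin d → ℝ => ∏ j ∈ s, g j (ψ j ⬝ᵥ x) :=
    continuous_finsetProd _ fun j _ => (cg j).comp (dot_cont _)
  have h0 : ∀ x : Fin d → ℝ, 0 ≤ ∏ j ∈ s, g j (ψ j ⬝ᵥ x) := fun x =>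
    Finset.prod_nonneg fun j _ => g0 j _
  rw [integral_eq_lintegral_of_nonneg_ae (Filter.Eventually.of_forall h0)
    cprod.aestronglyMeasurable]
  refine ENNReal.toReal_le_of_le_ofReal (by positivity) ?_
  have e1 : ∀ x : Fin d → ℝ, ENNReal.ofReal (∏ j ∈ s, g j (ψ j ⬝ᵥ x)) =
      ∏ j ∈ s, ENNReal.ofReal (g j (ψ j ⬝ᵥ x)) := fun x =>
    ENNReal.ofReal_prod_of_nonneg fun j _ => g0 j _
  simp_rw [e1]
  refine (h (fun j u => ENNReal.ofReal (g j u)) (fun j => (cg j).measurable.ennreal_ofReal) R hR).trans ?_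
  have h2 : ∀ j ∈ s, (ENNReal.ofReal R)⁻¹ * ∫⁻ u in Icc (-(K * R)) (K * R), ENNReal.ofReal (g j u) ≤
      ENNReal.ofReal B := by
    intro j hj
    have h3 : ∫⁻ u in Icc (-(K * R)) (K * R), ENNReal.ofReal (g j u) =
        ENNReal.ofReal (∫ u in (-(K * R))..(K * R), g j u) := by
      rw [intervalIntegral.integral_of_le (by nlinarith), ← integral_Icc_eq_integral_Ioc,
        ofReal_integral_eq_lintegral_ofReal ((cg j).integrableOn_Icc)
          (Filter.Eventually.of_forall fun u => g0 j u)]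
    rw [h3]
    calc (ENNReal.ofReal R)⁻¹ * ENNReal.ofReal (∫ u in (-(K * R))..(K * R), g j u)
        ≤ (ENNReal.ofReal R)⁻¹ * ENNReal.ofReal (B * R) := by
          gcongr
          exact hint j hj
      _ = ENNReal.ofReal B := by
          rw [ENNReal.ofReal_mul hB, mul_comm, mul_assoc, ENNReal.mul_inv_cancel, mul_one]
          · rw [Ne, ENNReal.ofReal_eq_zero, not_le]; exact hR
          · exact ENNReal.ofReal_ne_top
  calc ENNReal.ofReal (C * R ^ d) * ∏ j ∈ s, ((ENNReal.ofReal R)⁻¹ *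
        ∫⁻ u in Icc (-(K * R)) (K * R), ENNReal.ofReal (g j u))
      ≤ ENNReal.ofReal (C * R ^ d) * ∏ _j ∈ s, ENNReal.ofReal B :=
        mul_le_mul' le_rfl (Finset.prod_le_prod' h2)
    _ = ENNReal.ofReal (C * R ^ d * B ^ s.card) := by
        rw [Finset.prod_const, ← ENNReal.ofReal_pow hB, ← ENNReal.ofReal_mul (by positivity)]

end

end Pool.Agent.Y752.LP
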