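import Pool.Agent.Y752.LP.D1
import Pool.Agent.Y752.LP.D2

set_option autoImplicit false

/-! Replacement of one factor. -/

namespace Pool.Agent.Y752.LP

open Complex MeasureTheory Set Matrix
open Pool.Agent.TH612.GS (z)
open Pool.Agent.Y752.KP

noncomputable section

variable {ι : Type} [Fintype ι] [DecidableEq ι] {d : ℕ}

/-- one of the three functions -/
def Typ (Y : ℕ) (F : ℝ → ℂ) : Prop := F = f2 ∨ F = gY Y ∨ F = fun u => f2 u - gY Y u

lemma Typ.cont {Y : ℕ} {F : ℝ → ℂ} (h : Typ Y F) : Continuous F := by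
  rcases h with h | h | h
  · rw [h]; exact f2_cont
  · rw [h]; exact gY_cont Y
  · rw [h]; exact f2_cont.sub (gY_cont Y)

theorem NB (ψ : ι → Fin d → ℝ) (s : Finset ι) (hs : LinearIndepOn ℝ ψ (s : Set ι)) :
    ∃ C T₀ : ℝ, 1 ≤ C ∧ 1000 ≤ T₀ ∧ ∀ T : ℝ, T₀ ≤ T → ∀ Y : ℕ, 1 ≤ Y → (Y : ℝ) ≤ T ^ (1 / 20 : ℝ) →
      ∀ F : ι → ℝ → ℂ, (∀ j, Typ Y (F j)) →
      ∫ x in cube d (4 * T), ‖∏ j ∈ s, F j (ψ j ⬝ᵥ x)‖ ^ 2 ≤ C * T ^ d * Real.log T ^ (4 * s.card) := by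
  obtain ⟨C1, K1, hC1, hK1, hprod⟩ := prod_int ψ s hs
  obtain ⟨C2, T2, hC2, hT2, hl2⟩ := l2s (K := 4 * K1) (by linarith)
  refine ⟨C1 * 4 ^ d * C2 ^ s.card, T2, ?_, hT2, fun T hT Y hY1 hY F hF => ?_⟩
  · have h1 : (1:ℝ) ≤ 4 ^ d := one_le_pow₀ (by norm_num)
    have h2 : (1:ℝ) ≤ C2 ^ s.card := one_le_pow₀ hC2
    have h3 : 1 ≤ C1 * 4 ^ d := by nlinarith
    nlinarith
  have hT1000 : 1000 ≤ T := hT2.trans hT
  have hlogT : 0 ≤ Real.log T := Real.log_nonneg (by linarith)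
  obtain ⟨hf, hg⟩ := hl2 T hT Y hY1 hY
  have h1 := hprod (fun j u => ‖F j u‖ ^ 2) (fun j => (hF j).cont.norm.pow 2) (fun j u => by positivity)
    (4 * T) (C2 * Real.log T ^ 4) (by linarith) (by positivity) (fun j _ => by
      have e1 : K1 * (4 * T) = 4 * K1 * T := by ring
      rw [e1]
      have cf := f2_cont
      have cg := gY_cont Y
      have hle : -(4 * K1 * T) ≤ 4 * K1 * T := by nlinarith
      have hX : 0 ≤ C2 * T * Real.log T ^ 4 := by positivity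
      rcases hF j with h | h | h
      · simp only [h]
        linarith
      · simp only [h]
        linarith
      · simp only [h]
        calc ∫ u in (-(4 * K1 * T))..(4 * K1 * T), ‖f2 u - gY Y u‖ ^ 2
            ≤ ∫ u in (-(4 * K1 * T))..(4 * K1 * T), (2 * ‖f2 u‖ ^ 2 + 2 * ‖gY Y u‖ ^ 2) := by
              refine intervalIntegral.integral_mono_on hle
                (Continuous.intervalIntegrable (by fun_prop) _ _)
                (Continuous.intervalIntegrable (by fun_prop) _ _) fun u _ => ?_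
              have h2 := norm_sub_le (f2 u) (gY Y u)
              have h3 := norm_nonneg (f2 u - gY Y u)
              have h4 : ‖f2 u - gY Y u‖ ^ 2 ≤ (‖f2 u‖ + ‖gY Y u‖) ^ 2 := by gcongr
              nlinarith [sq_nonneg (‖f2 u‖ - ‖gY Y u‖)]
          _ = 2 * (∫ u in (-(4 * K1 * T))..(4 * K1 * T), ‖f2 u‖ ^ 2) +
              2 * ∫ u in (-(4 * K1 * T))..(4 * K1 * T), ‖gY Y u‖ ^ 2 := by
              rw [intervalIntegral.integral_add (Continuous.intervalIntegrable (by fun_prop) _ _)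
                (Continuous.intervalIntegrable (by fun_prop) _ _), intervalIntegral.integral_const_mul,
                intervalIntegral.integral_const_mul]
          _ ≤ _ := by linarith)
  have e2 : ∀ x : Fin d → ℝ, ‖∏ j ∈ s, F j (ψ j ⬝ᵥ x)‖ ^ 2 = ∏ j ∈ s, ‖F j (ψ j ⬝ᵥ x)‖ ^ 2 := by
    intro x
    rw [norm_prod, Finset.prod_pow]
  simp_rw [e2]
  refine h1.trans (le_of_eq ?_)
  rw [mul_pow, mul_pow, ← pow_mul]
  ring

/-- the product with the factors in `S` replaced -/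
def Fs (Y : ℕ) (S : Finset ι) (j : ι) : ℝ → ℂ := if j ∈ S then gY Y else f2

def PhS (ψ : ι → Fin d → ℝ) (Y : ℕ) (S : Finset ι) (x : Fin d → ℝ) : ℂ := ∏ j, Fs Y S j (ψ j ⬝ᵥ x)

lemma Fs_typ (Y : ℕ) (S : Finset ι) (j : ι) : Typ Y (Fs Y S j) := by
  unfold Fs
  split_ifs
  · exact Or.inr (Or.inl rfl)
  · exact Or.inl rfl

lemma PhS_cont (ψ : ι → Fin d → ℝ) (Y : ℕ) (S : Finset ι) : Continuous (PhS ψ Y S) := by
  unfold PhS
  exact continuous_finsetProd _ fun j _ => (Fs_typ Y S j).cont.comp (dot_cont _)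

/-- the hypothesis on the forms -/
def Cx1 (ψ : ι → Fin d → ℝ) : Prop := ∀ i, ∃ A B : Finset ι, (∀ j, j = i ∨ j ∈ A ∨ j ∈ B) ∧
  LinearIndepOn ℝ ψ (insert i A : Set ι) ∧ LinearIndepOn ℝ ψ (insert i B : Set ι)

lemma Cx1.split {ψ : ι → Fin d → ℝ} (h : Cx1 ψ) (i : ι) : ∃ A B : Finset ι, i ∉ A ∧ i ∉ B ∧
    Disjoint A B ∧ Finset.univ.erase i = A ∪ B ∧ LinearIndepOn ℝ ψ (insert i (A : Set ι)) ∧
    LinearIndepOn ℝ ψ (insert i (B : Set ι)) := by
  obtain ⟨A, B, h1, h2, h3⟩ := h i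
  refine ⟨A.erase i, (B \ A).erase i, Finset.notMem_erase _ _, Finset.notMem_erase _ _, ?_, ?_, ?_, ?_⟩
  · rw [Finset.disjoint_left]
    intro j hj hj2
    exact (Finset.mem_sdiff.1 (Finset.mem_of_mem_erase hj2)).2 (Finset.mem_of_mem_erase hj)
  · ext j
    simp only [Finset.mem_erase, Finset.mem_univ, and_true, Finset.mem_union, Finset.mem_sdiff]
    constructor
    · intro hj
      rcases h1 j with h | h | h
      · exact absurd h hj
      · exact Or.inl ⟨hj, h⟩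
      · by_cases hA : j ∈ A
        · exact Or.inl ⟨hj, hA⟩
        · exact Or.inr ⟨hj, h, hA⟩
    · rintro (⟨h, _⟩ | ⟨h, _⟩) <;> exact h
  · refine h2.mono ?_
    exact insert_subset_insert (by
      intro j hj
      exact Finset.mem_of_mem_erase hj)
  · refine h3.mono ?_
    exact insert_subset_insert (by
      intro j hj
      exact (Finset.mem_sdiff.1 (Finset.mem_of_mem_erase hj)).1)

theorem one_step {ψ : ι → Fin d → ℝ} (hψ : Cx1 ψ) (i : ι) : ∃ C T₀ : ℝ, ∃ n : ℕ, 1 ≤ C ∧ 1000 ≤ T₀ ∧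
    ∀ T : ℝ, T₀ ≤ T → ∀ Y : ℕ, 1 ≤ Y → (Y : ℝ) ≤ T ^ (1 / 20 : ℝ) → ∀ (w : (Fin d → ℝ) → ℝ) (Λ : ℝ),
      Wt w (2 * T) Λ → 0 ≤ Λ → ∀ S : Finset ι, i ∉ S →
      ‖(∫ x, (w x : ℂ) * PhS ψ Y S x) - ∫ x, (w x : ℂ) * PhS ψ Y (insert i S) x‖ ≤
        C * T ^ d * Real.log T ^ n * (1 / Real.sqrt Y + T ^ (-(1 / 20) : ℝ) * (Y : ℝ) ^ 2 +
          Λ * T ^ (19 / 20 : ℝ)) := by
  obtain ⟨A, B, hiA, hiB, hAB, hun, hA, hB⟩ := hψ.split i
  obtain ⟨u, hu1, hu0⟩ := dual hiA hA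
  obtain ⟨v, hv1, hv0⟩ := dual hiB hB
  obtain ⟨CP, TP, hCP, hTP, hNP⟩ := NB ψ A (hA.mono (subset_insert _ _))
  obtain ⟨CQ, TQ, hCQ, hTQ, hNQ⟩ := NB ψ B (hB.mono (subset_insert _ _))
  obtain ⟨CI, TI, hCI, hTI, hNI⟩ := NB ψ (insert i A) (by rwa [Finset.coe_insert])
  set K : ℝ := 2 * sz (ψ i) + 4 with hK
  have hK1 : 1 ≤ K := by have := sz_nonneg (ψ i); linarith
  obtain ⟨CK, TK, hCK, hTK, hKA⟩ := KAs hK1
  obtain ⟨T1, hT1, hlp⟩ := logpow (‖u‖ + ‖v‖) 0 (show (0:ℝ) < 1 / 20 by norm_num)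
  set n := 4 * (Fintype.card ι) with hn
  set r := ‖u‖ + ‖v‖ with hr
  have hr0 : 0 ≤ r := by positivity
  refine ⟨(8 * CK * (CP + CQ) + r * (CI + CQ)), max TP (max TQ (max TI (max TK T1))), n + 5, ?_,
    hTP.trans (le_max_left _ _), ?_⟩
  · nlinarith [mul_nonneg hr0 (show (0:ℝ) ≤ CI + CQ by linarith)]
  intro T hT Y hY1 hY w Λ hw hΛ S hiS
  have t1 : TP ≤ T := (le_max_left _ _).trans hT
  have t2 : TQ ≤ T := (le_max_left _ _).trans ((le_max_right _ _).trans hT)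
  have t3 : TI ≤ T := (le_max_left _ _).trans ((le_max_right _ _).trans ((le_max_right _ _).trans hT))
  have t4 : TK ≤ T := (le_max_left _ _).trans ((le_max_right _ _).trans ((le_max_right _ _).trans
    ((le_max_right _ _).trans hT)))
  have t5 : T1 ≤ T := (le_max_right _ _).trans ((le_max_right _ _).trans ((le_max_right _ _).trans
    ((le_max_right _ _).trans hT)))
  have hT1000 : 1000 ≤ T := hTP.trans t1
  have hTp : 0 < T := by linarith
  have hT1' : 1 ≤ T := by linarith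
  have hL1 : 1 ≤ Real.log T := by
    rw [Real.le_log_iff_exp_le hTp]
    have := Real.exp_one_lt_d9
    linarith
  have hYr : (1:ℝ) ≤ Y := by exact_mod_cast hY1
  set L := Real.log T with hLd
  set H := T ^ (19 / 20 : ℝ) with hH
  have hHp : 0 < H := Real.rpow_pos_of_pos hTp _
  have hHT : H ≤ T := by
    have := Real.rpow_le_rpow_of_exponent_le hT1' (show (19 / 20 : ℝ) ≤ 1 by norm_num)
    rwa [Real.rpow_one] at this
  have hHr : H * r ≤ 2 * T := by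
    have h1 := hlp T t5
    rw [pow_zero, mul_one] at h1
    have h2 : H * T ^ (1 / 20 : ℝ) = T := by
      rw [hH, ← Real.rpow_add hTp]; norm_num
    have h3 : H * r ≤ H * T ^ (1 / 20 : ℝ) := by gcongr
    linarith
  -- the functions
  set F : ℝ → ℂ := fun t => f2 t - gY Y t with hF
  have tF : Typ Y F := Or.inr (Or.inr rfl)
  set P : (Fin d → ℝ) → ℂ := fun x => ∏ j ∈ A, Fs Y S j (ψ j ⬝ᵥ x) with hP
  set Q : (Fin d → ℝ) → ℂ := fun x => ∏ j ∈ B, Fs Y S j (ψ j ⬝ᵥ x) with hQ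
  have cP : Continuous P := continuous_finsetProd _ fun j _ => (Fs_typ Y S j).cont.comp (dot_cont _)
  have cQ : Continuous Q := continuous_finsetProd _ fun j _ => (Fs_typ Y S j).cont.comp (dot_cont _)
  have hPu : ∀ (a : ℝ) x, P (x + a • u) = P x := by
    intro a x
    refine Finset.prod_congr rfl fun j hj => ?_
    rw [dotProduct_add, dotProduct_smul, hu0 j hj, smul_zero, add_zero]
  have hQv : ∀ (b : ℝ) x, Q (x + b • v) = Q x := by
    intro a x
    refine Finset.prod_congr rfl fun j hj => ?_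
    rw [dotProduct_add, dotProduct_smul, hv0 j hj, smul_zero, add_zero]
  have hdiff : ∀ x, PhS ψ Y S x - PhS ψ Y (insert i S) x = F (ψ i ⬝ᵥ x) * (P x * Q x) := by
    intro x
    have hPQ : P x * Q x = ∏ j ∈ Finset.univ.erase i, Fs Y S j (ψ j ⬝ᵥ x) := by
      rw [hun, Finset.prod_union hAB]
    unfold PhS
    rw [← Finset.mul_prod_erase Finset.univ _ (Finset.mem_univ i),
      ← Finset.mul_prod_erase Finset.univ (fun j => Fs Y (insert i S) j (ψ j ⬝ᵥ x)) (Finset.mem_univ i)]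
    have h2 : ∏ j ∈ Finset.univ.erase i, Fs Y (insert i S) j (ψ j ⬝ᵥ x) =
        ∏ j ∈ Finset.univ.erase i, Fs Y S j (ψ j ⬝ᵥ x) := by
      refine Finset.prod_congr rfl fun j hj => ?_
      have hji : j ≠ i := Finset.ne_of_mem_erase hj
      unfold Fs
      simp only [Finset.mem_insert, hji, false_or]
    have h3 : Fs Y S i = f2 := by unfold Fs; rw [if_neg hiS]
    have h4 : Fs Y (insert i S) i = gY Y := by unfold Fs; rw [if_pos (Finset.mem_insert_self _ _)]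
    rw [h2, hPQ, h3, h4, hF]
    ring
  have cw := hw.cont
  have e1 : (∫ x, (w x : ℂ) * PhS ψ Y S x) - ∫ x, (w x : ℂ) * PhS ψ Y (insert i S) x =
      ∫ x, (w x : ℂ) * (F (ψ i ⬝ᵥ x) * (P x * Q x)) := by
    rw [hw.int, hw.int, hw.int]
    have c1 := PhS_cont ψ Y S
    have c2 := PhS_cont ψ Y (insert i S)
    rw [← integral_sub (cont_int (by fun_prop) _) (cont_int (by fun_prop) _)]
    congr 1
    ext x
    rw [← hdiff]
    ring
  rw [e1]
  -- the Fourier bound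
  set M : ℝ := CK * L ^ 5 * (8 * H / Real.sqrt Y + T ^ (9 / 10 : ℝ) * (Y : ℝ) ^ 2) with hM
  have hsY : 0 < Real.sqrt Y := Real.sqrt_pos.2 (by linarith)
  have hMp : 0 < M := by positivity
  have hst := step hw hΛ tF.cont cP cQ (ψ := ψ i) (u := u) (v := v) hPu hQv (by rw [hu1]; norm_num)
    (by rw [hv1]; norm_num) (H := H) (M := M) (K := K * T) hHp hMp hHr (by
      rw [hu1, hv1, abs_one, hK]
      nlinarith [sz_nonneg (ψ i)]) (fun a b lam ha hab hb hlen => by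
      rw [hu1, hv1, abs_one] at hlen
      refine (hKA T t4 Y hY1 hY a b lam ha hab hb).trans ?_
      rw [hM]
      have : b - a ≤ 8 * H := by linarith
      gcongr)
  rw [hu1, hv1, abs_one, mul_one, Real.sqrt_one, div_one] at hst
  have e4 : 2 * (2 * T) = 4 * T := by ring
  rw [e4] at hst
  -- the mean squares
  have hcardA : A.card ≤ Fintype.card ι := Finset.card_le_univ _
  have hcardB : B.card ≤ Fintype.card ι := Finset.card_le_univ _
  have hcardI : (insert i A).card ≤ Fintype.card ι := Finset.card_le_univ _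
  have hpw : ∀ k : ℕ, k ≤ Fintype.card ι → L ^ (4 * k) ≤ L ^ n := fun k hk =>
    pow_le_pow_right₀ hL1 (by rw [hn]; omega)
  have hTd : 0 ≤ T ^ d := by positivity
  have nP : ∫ x in cube d (4 * T), ‖P x‖ ^ 2 ≤ CP * T ^ d * L ^ n :=
    (hNP T t1 Y hY1 hY _ (Fs_typ Y S)).trans (by have := hpw _ hcardA; gcongr)
  have nQ : ∫ x in cube d (4 * T), ‖Q x‖ ^ 2 ≤ CQ * T ^ d * L ^ n :=
    (hNQ T t2 Y hY1 hY _ (Fs_typ Y S)).trans (by have := hpw _ hcardB; gcongr)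
  have nI : ∫ x in cube d (4 * T), ‖F (ψ i ⬝ᵥ x) * P x‖ ^ 2 ≤ CI * T ^ d * L ^ n := by
    have h1 := hNI T t3 Y hY1 hY (fun j => if j = i then F else Fs Y S j) (fun j => by
      by_cases hj : j = i
      · simp only [hj, if_true]; exact tF
      · simp only [hj, if_false]; exact Fs_typ Y S j)
    have h2 : ∀ x : Fin d → ℝ, ∏ j ∈ insert i A, (fun j => if j = i then F else Fs Y S j) j (ψ j ⬝ᵥ x) =
        F (ψ i ⬝ᵥ x) * P x := by
      intro x
      rw [Finset.prod_insert hiA]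
      simp only [if_true]
      congr 1
      refine Finset.prod_congr rfl fun j hj => ?_
      have : j ≠ i := fun h => hiA (h ▸ hj)
      simp only [this, if_false]
    simp_rw [h2] at h1
    exact h1.trans (by have := hpw _ hcardI; gcongr)
  have cFx : Continuous fun x : Fin d → ℝ => F (ψ i ⬝ᵥ x) := tF.cont.comp (dot_cont _)
  have c1 : Continuous fun x : Fin d → ℝ => ‖F (ψ i ⬝ᵥ x) * (P x * Q x)‖ := (cFx.mul (cP.mul cQ)).norm
  have c2 : Continuous fun x : Fin d → ℝ => ‖F (ψ i ⬝ᵥ x) * P x‖ ^ 2 := (cFx.mul cP).norm.pow 2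
  have c3 : Continuous fun x : Fin d → ℝ => ‖Q x‖ ^ 2 := cQ.norm.pow 2
  have nΦ : ∫ x in cube d (4 * T), ‖F (ψ i ⬝ᵥ x) * (P x * Q x)‖ ≤ (CI + CQ) * T ^ d * L ^ n := by
    calc ∫ x in cube d (4 * T), ‖F (ψ i ⬝ᵥ x) * (P x * Q x)‖
        ≤ ∫ x in cube d (4 * T), (‖F (ψ i ⬝ᵥ x) * P x‖ ^ 2 + ‖Q x‖ ^ 2) := by
          refine integral_mono (cont_int c1 _) (cont_int (c2.add c3) _) fun x => ?_
          simp only
          rw [← mul_assoc, norm_mul]
          nlinarith [sq_nonneg (‖F (ψ i ⬝ᵥ x) * P x‖ - ‖Q x‖), sq_nonneg (‖F (ψ i ⬝ᵥ x) * P x‖),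
            sq_nonneg (‖Q x‖)]
      _ = (∫ x in cube d (4 * T), ‖F (ψ i ⬝ᵥ x) * P x‖ ^ 2) + ∫ x in cube d (4 * T), ‖Q x‖ ^ 2 :=
          integral_add (cont_int c2 _) (cont_int c3 _)
      _ ≤ CI * T ^ d * L ^ n + CQ * T ^ d * L ^ n := add_le_add nI nQ
      _ = _ := by ring
  have hMH : M / (2 * H) = CK * L ^ 5 * (4 * (1 / Real.sqrt Y) + T ^ (-(1 / 20) : ℝ) * (Y : ℝ) ^ 2 / 2) := by
    have h1 : T ^ (9 / 10 : ℝ) = H * T ^ (-(1 / 20) : ℝ) := by
      rw [hH, ← Real.rpow_add hTp]; norm_num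
    rw [hM, h1]
    field_simp
    ring
  have hA1 : 0 ≤ 1 / Real.sqrt Y := by positivity
  have hA2 : 0 ≤ T ^ (-(1 / 20) : ℝ) * (Y : ℝ) ^ 2 := by positivity
  have hA3 : 0 ≤ Λ * H := by positivity
  have hLn : L ^ n ≤ L ^ (n + 5) := pow_le_pow_right₀ hL1 (by omega)
  have hnn : 0 ≤ (∫ x in cube d (4 * T), ‖P x‖ ^ 2) + ∫ x in cube d (4 * T), ‖Q x‖ ^ 2 :=
    add_nonneg (integral_nonneg fun _ => by positivity) (integral_nonneg fun _ => by positivity)
  calc ‖∫ x, (w x : ℂ) * (F (ψ i ⬝ᵥ x) * (P x * Q x))‖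
      ≤ M / (2 * H) * ((∫ x in cube d (4 * T), ‖P x‖ ^ 2) + ∫ x in cube d (4 * T), ‖Q x‖ ^ 2) +
        Λ * (H * (‖u‖ + ‖v‖)) * ∫ x in cube d (4 * T), ‖F (ψ i ⬝ᵥ x) * (P x * Q x)‖ := hst
    _ ≤ CK * L ^ 5 * (4 * (1 / Real.sqrt Y) + T ^ (-(1 / 20) : ℝ) * (Y : ℝ) ^ 2 / 2) *
          (CP * T ^ d * L ^ n + CQ * T ^ d * L ^ n) +
        Λ * (H * r) * ((CI + CQ) * T ^ d * L ^ n) := by
        rw [hMH]
        gcongr
    _ ≤ CK * L ^ 5 * (8 * (1 / Real.sqrt Y + T ^ (-(1 / 20) : ℝ) * (Y : ℝ) ^ 2 + Λ * H)) *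
          (CP * T ^ d * L ^ n + CQ * T ^ d * L ^ n) +
        r * (CI + CQ) * T ^ d * L ^ (n + 5) * (1 / Real.sqrt Y + T ^ (-(1 / 20) : ℝ) * (Y : ℝ) ^ 2 + Λ * H) := by
        refine add_le_add ?_ ?_
        · gcongr
          linarith
        · calc Λ * (H * r) * ((CI + CQ) * T ^ d * L ^ n)
              = r * (CI + CQ) * T ^ d * L ^ n * (Λ * H) := by ring
            _ ≤ _ := by
                gcongr
                linarith
    _ = _ := by
        rw [pow_add]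
        ring

end

end Pool.Agent.Y752.LP
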