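import Pool.Agent.Y752.LP.D3

set_option autoImplicit false

/-! Weights close to the indicator function of a cube, and replacement of all factors. -/

namespace Pool.Agent.Y752.LP

open Complex MeasureTheory Set Matrix
open Pool.Agent.TH612.GS (z)
open Pool.Agent.Y752.KP

noncomputable section

/-- the box `[a, b] ^ d` -/
def box (d : ℕ) (a b : ℝ) : Set (Fin d → ℝ) := Icc (fun _ => a) (fun _ => b)

variable {d : ℕ}

lemma mem_box {a b : ℝ} {x : Fin d → ℝ} : x ∈ box d a b ↔ ∀ l, a ≤ x l ∧ x l ≤ b := by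
  unfold box
  rw [mem_Icc, Pi.le_def, Pi.le_def, ← forall_and]

lemma box_meas (d : ℕ) (a b : ℝ) : MeasurableSet (box d a b) := measurableSet_Icc

lemma box_vol (d : ℕ) {a b : ℝ} (h : a ≤ b) : volume (box d a b) = ENNReal.ofReal ((b - a) ^ d) := by
  unfold box
  rw [Real.volume_Icc_pi, Finset.prod_const, Finset.card_univ, Fintype.card_fin,
    ENNReal.ofReal_pow (by linarith)]

/-- a weight equal to one on the box -/
def tw (d : ℕ) (a b ρ : ℝ) (x : Fin d → ℝ) : ℝ := max 0 (1 - Metric.infDist x (box d a b) / ρ)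

lemma tw_one {a b ρ : ℝ} {x : Fin d → ℝ} (hx : x ∈ box d a b) : tw d a b ρ x = 1 := by
  unfold tw
  rw [Metric.infDist_zero_of_mem hx, zero_div, sub_zero]
  norm_num

lemma tw_nonneg (a b ρ : ℝ) (x : Fin d → ℝ) : 0 ≤ tw d a b ρ x := le_max_left _ _

lemma tw_le_one {a b ρ : ℝ} (hρ : 0 < ρ) (x : Fin d → ℝ) : tw d a b ρ x ≤ 1 := by
  unfold tw
  refine max_le zero_le_one ?_
  have : 0 ≤ Metric.infDist x (box d a b) / ρ := div_nonneg Metric.infDist_nonneg hρ.le
  linarith

lemma box_ne {a b : ℝ} (h : a ≤ b) : (box d a b).Nonempty := ⟨fun _ => a, by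
  rw [mem_box]
  exact fun _ => ⟨le_rfl, h⟩⟩

lemma tw_zero {a b ρ : ℝ} (hab : a ≤ b) (hρ : 0 < ρ) {x : Fin d → ℝ} (hx : x ∉ box d (a - ρ) (b + ρ)) :
    tw d a b ρ x = 0 := by
  unfold tw
  refine max_eq_left ?_
  have h1 : ρ ≤ Metric.infDist x (box d a b) := by
    refine (Metric.le_infDist (box_ne hab)).2 fun y hy => ?_
    rw [mem_box] at hx hy
    push Not at hx
    obtain ⟨l, hl⟩ := hx
    refine le_trans ?_ (dist_le_pi_dist x y l)
    rw [Real.dist_eq]
    obtain ⟨h1, h2⟩ := hy l
    by_cases h3 : a - ρ ≤ x l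
    · have h4 := hl h3
      rw [abs_of_nonneg (by linarith)]
      linarith
    · push Not at h3
      rw [abs_of_nonpos (by linarith)]
      linarith
  have h2 : 1 ≤ Metric.infDist x (box d a b) / ρ := by rwa [le_div_iff₀ hρ, one_mul]
  linarith

lemma tw_wt {a b ρ R : ℝ} (hab : a ≤ b) (hρ : 0 < ρ) (hR1 : -R ≤ a - ρ) (hR2 : b + ρ ≤ R) :
    Wt (tw d a b ρ) R (1 / ρ) where
  cont := by
    unfold tw
    exact continuous_const.max (continuous_const.sub ((Metric.continuous_infDist_pt _).div_const _))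
  nonneg := tw_nonneg a b ρ
  le_one := tw_le_one hρ
  supp := by
    intro x hx
    refine tw_zero hab hρ fun h => hx ?_
    rw [mem_box] at h
    rw [mem_cube]
    intro l
    rw [abs_le]
    constructor <;> linarith [(h l).1, (h l).2]
  lip := by
    intro x y
    have h1 := (Metric.lipschitz_infDist_pt (box d a b)).dist_le_mul x y
    rw [NNReal.coe_one, one_mul, Real.dist_eq, dist_eq_norm] at h1
    unfold tw
    have h2 := abs_max_sub_max_le_abs (1 - Metric.infDist x (box d a b) / ρ)
      (1 - Metric.infDist y (box d a b) / ρ) 0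
    rw [max_comm, max_comm (0:ℝ) (1 - Metric.infDist y (box d a b) / ρ)]
    refine h2.trans ?_
    have h3 : 1 - Metric.infDist x (box d a b) / ρ - (1 - Metric.infDist y (box d a b) / ρ) =
        -((Metric.infDist x (box d a b) - Metric.infDist y (box d a b)) / ρ) := by ring
    rw [h3, abs_neg, abs_div, abs_of_pos hρ, one_div, inv_mul_eq_div]
    gcongr

lemma pow_diff (n : ℕ) {a b : ℝ} (hb : 0 ≤ b) (hab : b ≤ a) :
    a ^ n - b ^ n ≤ (a - b) * n * a ^ (n - 1) := by
  have h := abs_pow_sub_pow_le a b n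
  rw [abs_of_nonneg (sub_nonneg.2 hab), abs_of_nonneg (hb.trans hab), abs_of_nonneg hb,
    max_eq_left hab] at h
  exact (le_abs_self _).trans h

/-- comparison with the sharp cut-off -/
lemma box_diff {a b T ρ Bd R : ℝ} (hρ : 0 < ρ) (hab : a ≤ b)
    (h1 : -(2 * ρ) ≤ a - ρ) (h2 : b + ρ ≤ T + 2 * ρ)
    (h3 : a ≤ 2 * ρ) (h4 : T - 2 * ρ ≤ b) (hTρ : 4 * ρ ≤ T) (hR : T + 2 * ρ ≤ R) (hBd : 0 ≤ Bd)
    {Φ : (Fin d → ℝ) → ℂ} (hΦ : Continuous Φ) (hb : ∀ x ∈ cube d R, ‖Φ x‖ ≤ Bd) :
    ‖(∫ x, (tw d a b ρ x : ℂ) * Φ x) - ∫ x in box d 0 T, Φ x‖ ≤ Bd * (8 * ρ * d * (T + 4 * ρ) ^ (d - 1)) := by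
  set O := box d (-(2 * ρ)) (T + 2 * ρ) with hO
  set In := box d (2 * ρ) (T - 2 * ρ) with hIn
  have e1 : (∫ x, (tw d a b ρ x : ℂ) * Φ x) = ∫ x in O, (tw d a b ρ x : ℂ) * Φ x := by
    rw [← integral_indicator (box_meas d _ _)]
    congr 1
    ext x
    by_cases hx : x ∈ O
    · rw [indicator_of_mem hx]
    · rw [indicator_of_notMem hx, tw_zero hab hρ, Complex.ofReal_zero, zero_mul]
      intro h
      apply hx
      rw [hO, mem_box]
      rw [mem_box] at h
      intro l
      constructor <;> linarith [(h l).1, (h l).2]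
  have e2 : ∫ x in box d 0 T, Φ x = ∫ x in O, indicator (box d 0 T) Φ x := by
    rw [setIntegral_indicator (box_meas d _ _)]
    congr 2
    ext x
    rw [mem_inter_iff, hO, mem_box, mem_box]
    constructor
    · intro h
      refine ⟨fun l => ?_, h⟩
      constructor <;> linarith [(h l).1, (h l).2]
    · exact fun h => h.2
  have cw := (tw_wt (d := d) (R := |a| + |b| + 2 * ρ) hab hρ (by
    have := neg_abs_le a; have := abs_nonneg b; linarith) (by
    have := le_abs_self b; have := abs_nonneg a; linarith)).cont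
  have iO : IntegrableOn (fun x => (tw d a b ρ x : ℂ) * Φ x) O :=
    Continuous.continuousOn (by fun_prop) |>.integrableOn_compact isCompact_Icc
  have iO2 : IntegrableOn (indicator (box d 0 T) Φ) O := by
    have : IntegrableOn Φ O := hΦ.continuousOn.integrableOn_compact isCompact_Icc
    exact this.indicator (box_meas d _ _)
  rw [e1, e2, ← integral_sub iO iO2]
  have hpt : ∀ x ∈ O, ‖(tw d a b ρ x : ℂ) * Φ x - indicator (box d 0 T) Φ x‖ ≤
      indicator (O \ In) (fun _ => Bd) x := by
    intro x hx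
    have hxR : x ∈ cube d R := by
      rw [hO, mem_box] at hx
      rw [mem_cube]
      intro l
      rw [abs_le]
      constructor <;> linarith [(hx l).1, (hx l).2]
    by_cases hxi : x ∈ In
    · have h5 : x ∈ box d a b := by
        rw [hIn, mem_box] at hxi
        rw [mem_box]
        intro l
        constructor <;> linarith [(hxi l).1, (hxi l).2]
      have h6 : x ∈ box d 0 T := by
        rw [hIn, mem_box] at hxi
        rw [mem_box]
        intro l
        constructor <;> linarith [(hxi l).1, (hxi l).2]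
      rw [tw_one h5, indicator_of_mem h6, Complex.ofReal_one, one_mul, sub_self, norm_zero]
      exact indicator_nonneg (fun _ _ => hBd) _
    · rw [indicator_of_mem (show x ∈ O \ In from ⟨hx, hxi⟩)]
      have h7 := hb x hxR
      have h8 := tw_nonneg (d := d) a b ρ x
      have h9 := tw_le_one (d := d) (a := a) (b := b) hρ x
      by_cases hxt : x ∈ box d 0 T
      · rw [indicator_of_mem hxt]
        have e3 : (tw d a b ρ x : ℂ) * Φ x - Φ x = ((tw d a b ρ x - 1 : ℝ) : ℂ) * Φ x := by
          push_cast; ring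
        rw [e3, norm_mul, Complex.norm_real, Real.norm_eq_abs, abs_of_nonpos (by linarith)]
        nlinarith [norm_nonneg (Φ x)]
      · rw [indicator_of_notMem hxt, sub_zero, norm_mul, Complex.norm_real, Real.norm_of_nonneg h8]
        nlinarith [norm_nonneg (Φ x)]
  refine (norm_integral_le_integral_norm _).trans ?_
  have hsub : In ⊆ O := by
    intro x hx
    rw [hIn, mem_box] at hx
    rw [hO, mem_box]
    intro l
    constructor <;> linarith [(hx l).1, (hx l).2]
  have fO : volume O ≠ ⊤ := by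
    rw [hO, box_vol d (by linarith)]
    exact ENNReal.ofReal_ne_top
  calc ∫ x in O, ‖(tw d a b ρ x : ℂ) * Φ x - indicator (box d 0 T) Φ x‖
      ≤ ∫ x in O, indicator (O \ In) (fun _ => Bd) x := by
        refine setIntegral_mono_on (iO.sub iO2).norm ?_ (box_meas d _ _) hpt
        refine IntegrableOn.indicator ?_ ((box_meas d _ _).diff (box_meas d _ _))
        exact integrableOn_const (hs := fO)
    _ = Bd * (volume (O \ In)).toReal := by
        rw [setIntegral_indicator ((box_meas d _ _).diff (box_meas d _ _)),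
          inter_eq_self_of_subset_right sdiff_subset, setIntegral_const, smul_eq_mul, mul_comm]
        rfl
    _ ≤ _ := by
        refine mul_le_mul_of_nonneg_left ?_ hBd
        rw [measure_sdiff hsub (box_meas d _ _).nullMeasurableSet (ne_top_of_le_ne_top fO (measure_mono hsub)),
          hO, hIn, box_vol d (by linarith), box_vol d (by linarith), ← ENNReal.ofReal_sub _ (by
            have : 0 ≤ T - 2 * ρ - 2 * ρ := by linarith
            positivity), ENNReal.toReal_ofReal (by
            have : T - 2 * ρ - 2 * ρ ≤ T + 2 * ρ - -(2 * ρ) := by linarith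
            have h0 : 0 ≤ T - 2 * ρ - 2 * ρ := by linarith
            have := pow_le_pow_left₀ h0 this d
            linarith)]
        have h := pow_diff d (a := T + 2 * ρ - -(2 * ρ)) (b := T - 2 * ρ - 2 * ρ) (by linarith) (by linarith)
        refine h.trans (le_of_eq ?_)
        have e5 : T + 2 * ρ - -(2 * ρ) = T + 4 * ρ := by ring
        have e6 : T + 2 * ρ - -(2 * ρ) - (T - 2 * ρ - 2 * ρ) = 8 * ρ := by ring
        rw [e6, e5]

end

end Pool.Agent.Y752.LP
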