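import Pool.Agent.Y752.LP.D4

set_option autoImplicit false

/-! Replacement of all factors on a cube. -/

namespace Pool.Agent.Y752.LP

open Complex MeasureTheory Set Matrix
open Pool.Agent.TH612.GS (z)
open Pool.Agent.Y752.KP

noncomputable section

variable {ι : Type} [Fintype ι] [DecidableEq ι] {d : ℕ}

lemma gY_sup {K T : ℝ} (hK : 1 ≤ K) (hT : K ≤ T) (hT7 : 7 ≤ T) {Y : ℕ} (hY : 1 ≤ Y)
    (hYT : (Y : ℝ) + 1 ≤ T) {u : ℝ} (hu : |u| ≤ K * T) : ‖gY Y u‖ ≤ 6 * (Y : ℝ) ^ 2 * Real.log T := by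
  have hKT : T ≤ K * T := by nlinarith
  have h1 : ‖gY Y u‖ = ‖gY Y |u|‖ := by
    rcases abs_cases u with h | h
    · rw [h.1]
    · rw [h.1, gY_neg]
  rw [h1]
  refine (g_sup (T := K * T) (by linarith) hY (by linarith) (abs_nonneg u) (by linarith)).trans ?_
  have hlog := log_scale hK hT (by linarith)
  have : 0 ≤ 3 * (Y : ℝ) ^ 2 := by positivity
  nlinarith

lemma PhS_univ (ψ : ι → Fin d → ℝ) (Y : ℕ) (x : Fin d → ℝ) :
    PhS ψ Y Finset.univ x = ∏ j, gY Y (ψ j ⬝ᵥ x) := by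
  unfold PhS Fs
  simp

/-- the product of the squares -/
def phr (ψ : ι → Fin d → ℝ) (x : Fin d → ℝ) : ℝ := ∏ j, ‖z (ψ j ⬝ᵥ x)‖ ^ 2

lemma PhS_empty (ψ : ι → Fin d → ℝ) (Y : ℕ) (x : Fin d → ℝ) :
    PhS ψ Y ∅ x = ((phr ψ x : ℝ) : ℂ) := by
  unfold PhS Fs phr f2
  simp

lemma phr_cont (ψ : ι → Fin d → ℝ) : Continuous (phr ψ) := by
  unfold phr
  exact continuous_finsetProd _ fun j _ => ((z_cont.comp (dot_cont _)).norm.pow 2)

lemma phr_nonneg (ψ : ι → Fin d → ℝ) (x : Fin d → ℝ) : 0 ≤ phr ψ x :=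
  Finset.prod_nonneg fun j _ => by positivity

theorem tele {ψ : ι → Fin d → ℝ} (hψ : Cx1 ψ) : ∃ C T₀ : ℝ, ∃ n : ℕ, 0 ≤ C ∧ 1000 ≤ T₀ ∧
    ∀ T : ℝ, T₀ ≤ T → ∀ Y : ℕ, 1 ≤ Y → (Y : ℝ) ≤ T ^ (1 / 20 : ℝ) → ∀ (w : (Fin d → ℝ) → ℝ) (Λ : ℝ),
      Wt w (2 * T) Λ → 0 ≤ Λ →
      ‖(∫ x, (w x : ℂ) * PhS ψ Y ∅ x) - ∫ x, (w x : ℂ) * PhS ψ Y Finset.univ x‖ ≤
        C * T ^ d * Real.log T ^ n * (1 / Real.sqrt Y + T ^ (-(1 / 20) : ℝ) * (Y : ℝ) ^ 2 +
          Λ * T ^ (19 / 20 : ℝ)) := by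
  choose C T0 n hC hT0 h using one_step hψ
  set T1 : ℝ := 1000 + ∑ i, T0 i with hT1
  have hT0n : ∀ i, 0 ≤ T0 i := fun i => by linarith [hT0 i]
  have hT0le : ∀ i, T0 i ≤ T1 := fun i => by
    have := Finset.single_le_sum (f := T0) (fun i _ => hT0n i) (Finset.mem_univ i)
    linarith
  have hCn : ∀ i, 0 ≤ C i := fun i => by linarith [hC i]
  refine ⟨∑ i, C i, T1, ∑ i, n i, Finset.sum_nonneg fun i _ => hCn i, by
    have := Finset.sum_nonneg fun i (_ : i ∈ Finset.univ) => hT0n i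
    linarith, ?_⟩
  intro T hT Y hY1 hY w Λ hw hΛ
  have hT1000 : 1000 ≤ T := by
    have := Finset.sum_nonneg fun i (_ : i ∈ Finset.univ) => hT0n i
    linarith
  have hTp : 0 < T := by linarith
  have hL1 : 1 ≤ Real.log T := by
    rw [Real.le_log_iff_exp_le hTp]
    have := Real.exp_one_lt_d9
    linarith
  set X := 1 / Real.sqrt Y + T ^ (-(1 / 20) : ℝ) * (Y : ℝ) ^ 2 + Λ * T ^ (19 / 20 : ℝ) with hX
  have hX0 : 0 ≤ X := by positivity
  have key : ∀ S : Finset ι, ‖(∫ x, (w x : ℂ) * PhS ψ Y ∅ x) - ∫ x, (w x : ℂ) * PhS ψ Y S x‖ ≤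
      ∑ i ∈ S, C i * T ^ d * Real.log T ^ (∑ i, n i) * X := by
    intro S
    induction S using Finset.induction_on with
    | empty => rw [sub_self, norm_zero, Finset.sum_empty]
    | insert i S hi ih =>
      rw [Finset.sum_insert hi]
      have h1 := h i T ((hT0le i).trans hT) Y hY1 hY w Λ hw hΛ S hi
      have h2 : Real.log T ^ n i ≤ Real.log T ^ (∑ i, n i) :=
        pow_le_pow_right₀ hL1 (Finset.single_le_sum (f := n) (fun i _ => Nat.zero_le _) (Finset.mem_univ i))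
      have h3 : C i * T ^ d * Real.log T ^ n i * X ≤ C i * T ^ d * Real.log T ^ (∑ i, n i) * X := by
        have := hCn i
        gcongr
      have h4 : (∫ x, (w x : ℂ) * PhS ψ Y ∅ x) - ∫ x, (w x : ℂ) * PhS ψ Y (insert i S) x =
          ((∫ x, (w x : ℂ) * PhS ψ Y S x) - ∫ x, (w x : ℂ) * PhS ψ Y (insert i S) x) +
          ((∫ x, (w x : ℂ) * PhS ψ Y ∅ x) - ∫ x, (w x : ℂ) * PhS ψ Y S x) := by ring
      rw [h4]
      refine (norm_add_le _ _).trans (add_le_add (h1.trans h3) ih)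
  refine (key Finset.univ).trans (le_of_eq ?_)
  rw [Finset.sum_mul, Finset.sum_mul, Finset.sum_mul]

theorem rep {ψ : ι → Fin d → ℝ} (hψ : Cx1 ψ) {δ : ℝ} (hδ : 0 < δ)
    (hδ1 : δ * (1000 * ((Fintype.card ι : ℝ) + 1)) ≤ 1) : ∃ T₀ : ℝ, 1000 ≤ T₀ ∧
    ∀ T : ℝ, T₀ ≤ T → ∀ Y : ℕ, T ^ δ ≤ Y → (Y : ℝ) ≤ 2 * T ^ δ →
      ‖((∫ x in box d 0 T, phr ψ x : ℝ) : ℂ) - ∫ x in box d 0 T, ∏ j, gY Y (ψ j ⬝ᵥ x)‖ ≤
        T ^ d * T ^ (-(δ / 4)) := by
  obtain ⟨C, T1, n, hC, hT1, htele⟩ := tele hψ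
  set m := Fintype.card ι with hm
  have hm0 : (0:ℝ) ≤ m := by positivity
  have hδ2 : δ ≤ 1 / 1000 := by nlinarith
  have hδ3 : 2 * δ * m + δ ≤ 1 / 500 := by nlinarith
  obtain ⟨T2, hT2, hsz⟩ := Y_size hδ (by linarith)
  set K : ℝ := 1 + 2 * ∑ j, sz (ψ j) with hK
  have hKs : ∀ j, 2 * sz (ψ j) ≤ K := fun j => by
    have := Finset.single_le_sum (f := fun j => sz (ψ j)) (fun j _ => sz_nonneg _) (Finset.mem_univ j)
    linarith
  have hK1 : 1 ≤ K := by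
    have := Finset.sum_nonneg fun j (_ : j ∈ Finset.univ) => sz_nonneg (ψ j)
    linarith
  obtain ⟨T3, hT3, hlp1⟩ := logpow (6 * (6 * C)) n (show (0:ℝ) < δ / 8 by positivity)
  obtain ⟨T4, hT4, hlp2⟩ := logpow (6 * (24 ^ m * (8 * d * 5 ^ d))) m (show (0:ℝ) < δ by positivity)
  obtain ⟨T5, hT5, hlp3⟩ := logpow 10 0 (show (0:ℝ) < 1 / 40 by norm_num)
  refine ⟨max T1 (max T2 (max T3 (max T4 (max T5 K)))), hT1.trans (le_max_left _ _), ?_⟩
  intro T hT Y hYl hYu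
  have t1 : T1 ≤ T := (le_max_left _ _).trans hT
  have hT' := (le_max_right _ _).trans hT
  have t2 : T2 ≤ T := (le_max_left _ _).trans hT'
  have hT'' := (le_max_right _ _).trans hT'
  have t3 : T3 ≤ T := (le_max_left _ _).trans hT''
  have hT3' := (le_max_right _ _).trans hT''
  have t4 : T4 ≤ T := (le_max_left _ _).trans hT3'
  have hT4' := (le_max_right _ _).trans hT3'
  have t5 : T5 ≤ T := (le_max_left _ _).trans hT4'
  have t6 : K ≤ T := (le_max_right _ _).trans hT4'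
  have hT1000 : 1000 ≤ T := hT1.trans t1
  have hTp : 0 < T := by linarith
  have hT1' : 1 ≤ T := by linarith
  obtain ⟨hY1, hY20, hYT, hY6⟩ := hsz T t2 Y hYl hYu
  have hYr : (1:ℝ) ≤ Y := by exact_mod_cast hY1
  set L := Real.log T with hL
  have hL1 : 1 ≤ L := by
    rw [hL, Real.le_log_iff_exp_le hTp]
    have := Real.exp_one_lt_d9
    linarith
  set ρ := T ^ (39 / 40 : ℝ) with hρ
  have hρp : 0 < ρ := Real.rpow_pos_of_pos hTp _
  have hρT : ρ * T ^ (1 / 40 : ℝ) = T := by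
    rw [hρ, ← Real.rpow_add hTp]; norm_num
  have h10 : 10 ≤ T ^ (1 / 40 : ℝ) := by
    have := hlp3 T t5
    rwa [pow_zero, mul_one] at this
  have hρ10 : 10 * ρ ≤ T := by nlinarith
  -- the two weights
  have hw1 : Wt (tw d 0 T ρ) (2 * T) (1 / ρ) := tw_wt hTp.le hρp (by linarith) (by linarith)
  have hw2 : Wt (tw d ρ (T - ρ) ρ) (2 * T) (1 / ρ) := tw_wt (by linarith) hρp (by linarith) (by linarith)
  set X := 1 / Real.sqrt Y + T ^ (-(1 / 20) : ℝ) * (Y : ℝ) ^ 2 + 1 / ρ * T ^ (19 / 20 : ℝ) with hX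
  have hXle : X ≤ 6 * T ^ (-(δ / 2)) := by
    have a1 : 1 / Real.sqrt Y ≤ T ^ (-(δ / 2)) := by
      have h1 : T ^ (δ / 2) ≤ Real.sqrt Y := by
        have h2 : T ^ (δ / 2) = Real.sqrt (T ^ δ) := by
          rw [Real.sqrt_eq_rpow, ← Real.rpow_mul hTp.le]; ring_nf
        rw [h2]
        exact Real.sqrt_le_sqrt hYl
      rw [Real.rpow_neg hTp.le, one_div]
      exact inv_anti₀ (Real.rpow_pos_of_pos hTp _) h1
    have a2 : T ^ (-(1 / 20) : ℝ) * (Y : ℝ) ^ 2 ≤ 4 * T ^ (-(δ / 2)) := by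
      calc T ^ (-(1 / 20) : ℝ) * (Y : ℝ) ^ 2 ≤ T ^ (-(1 / 20) : ℝ) * (2 * T ^ δ) ^ 2 := by gcongr
        _ = 4 * (T ^ (-(1 / 20) : ℝ) * (T ^ δ * T ^ δ)) := by ring
        _ = 4 * T ^ (-(1 / 20) + (δ + δ)) := by
            rw [← Real.rpow_add hTp, ← Real.rpow_add hTp]
        _ ≤ 4 * T ^ (-(δ / 2)) := by
            have := Real.rpow_le_rpow_of_exponent_le hT1' (show -(1 / 20) + (δ + δ) ≤ -(δ / 2) by linarith)
            linarith
    have a3 : 1 / ρ * T ^ (19 / 20 : ℝ) ≤ T ^ (-(δ / 2)) := by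
      have e1 : 1 / ρ * T ^ (19 / 20 : ℝ) = T ^ (-(1 / 40) : ℝ) := by
        rw [one_div, hρ, ← Real.rpow_neg hTp.le, ← Real.rpow_add hTp]; norm_num
      rw [e1]
      exact Real.rpow_le_rpow_of_exponent_le hT1' (by linarith)
    linarith
  set E1 := C * T ^ d * L ^ n * X with hE1
  have hE1le : 6 * E1 ≤ T ^ d * T ^ (-(3 * δ / 8)) := by
    have h1 := hlp1 T t3
    calc 6 * E1 ≤ 6 * (C * T ^ d * L ^ n * (6 * T ^ (-(δ / 2)))) := by
          rw [hE1]; gcongr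
      _ = T ^ d * (6 * (6 * C) * L ^ n) * T ^ (-(δ / 2)) := by ring
      _ ≤ T ^ d * T ^ (δ / 8) * T ^ (-(δ / 2)) := by gcongr
      _ = T ^ d * T ^ (-(3 * δ / 8)) := by
          rw [mul_assoc, ← Real.rpow_add hTp]; congr 2; ring
  have b1 := htele T t1 Y hY1 hY20 _ _ hw1 (by positivity)
  have b2 := htele T t1 Y hY1 hY20 _ _ hw2 (by positivity)
  rw [← hX, ← hE1] at b1 b2
  -- sharp cut-offs for the main functions
  set Bd : ℝ := (6 * (Y : ℝ) ^ 2 * L) ^ m with hBd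
  have hBd0 : 0 ≤ Bd := by positivity
  have hsup : ∀ x ∈ cube d (2 * T), ‖PhS ψ Y Finset.univ x‖ ≤ Bd := by
    intro x hx
    rw [PhS_univ, norm_prod]
    calc ∏ j, ‖gY Y (ψ j ⬝ᵥ x)‖ ≤ ∏ _j : ι, (6 * (Y : ℝ) ^ 2 * L) := by
          refine Finset.prod_le_prod (fun _ _ => norm_nonneg _) fun j _ => ?_
          refine gY_sup hK1 t6 (by linarith) hY1 hYT ((dot_le hx).trans ?_)
          have := hKs j
          nlinarith
      _ = Bd := by rw [Finset.prod_const, Finset.card_univ]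
  set E2 := Bd * (8 * ρ * d * (T + 4 * ρ) ^ (d - 1)) with hE2
  have c1 := box_diff (d := d) (a := 0) (b := T) (T := T) (ρ := ρ) (Bd := Bd) (R := 2 * T) hρp hTp.le
    (by linarith) (by linarith) (by linarith) (by linarith) (by linarith) (by linarith) hBd0
    (PhS_cont ψ Y Finset.univ) hsup
  have c2 := box_diff (d := d) (a := ρ) (b := T - ρ) (T := T) (ρ := ρ) (Bd := Bd) (R := 2 * T) hρp
    (by linarith) (by linarith) (by linarith) (by linarith) (by linarith) (by linarith) (by linarith) hBd0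
    (PhS_cont ψ Y Finset.univ) hsup
  have hE2le : 6 * E2 ≤ T ^ d * T ^ (-(3 * δ / 8)) := by
    have h0 : 8 * ρ * d * (T + 4 * ρ) ^ (d - 1) ≤ (8 * d * 5 ^ d) * (T ^ d * T ^ (-(1 / 40) : ℝ)) := by
      rcases Nat.eq_zero_or_pos d with hd | hd
      · subst hd
        simp
      · have h1 : T + 4 * ρ ≤ 5 * T := by linarith
        have h2 : ρ = T * T ^ (-(1 / 40) : ℝ) := by
          rw [hρ]
          nth_rewrite 2 [← Real.rpow_one T]
          rw [← Real.rpow_add hTp]; norm_num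
        have h3 : (5:ℝ) ^ (d - 1) ≤ 5 ^ d := pow_le_pow_right₀ (by norm_num) (by omega)
        have h4 : T ^ d = T * T ^ (d - 1) := by
          rw [← pow_succ']; congr 1; omega
        calc 8 * ρ * d * (T + 4 * ρ) ^ (d - 1) ≤ 8 * ρ * d * (5 * T) ^ (d - 1) := by gcongr
          _ = 8 * d * 5 ^ (d - 1) * (T ^ (d - 1) * ρ) := by rw [mul_pow]; ring
          _ ≤ 8 * d * 5 ^ d * (T ^ (d - 1) * ρ) := by gcongr
          _ = _ := by rw [h2, h4]; ring
    have h1 := hlp2 T t4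
    have h5 : Bd ≤ 24 ^ m * L ^ m * T ^ (2 * δ * m) := by
      calc Bd ≤ (6 * (2 * T ^ δ) ^ 2 * L) ^ m := by rw [hBd]; gcongr
        _ = 24 ^ m * L ^ m * ((T ^ δ * T ^ δ)) ^ m := by
            rw [← mul_pow, ← mul_pow]; congr 1; ring
        _ = _ := by
            rw [← Real.rpow_add hTp, ← Real.rpow_natCast (T ^ (δ + δ)) m, ← Real.rpow_mul hTp.le]
            congr 2; ring
    calc 6 * E2 ≤ 6 * ((24 ^ m * L ^ m * T ^ (2 * δ * m)) *
          ((8 * d * 5 ^ d) * (T ^ d * T ^ (-(1 / 40) : ℝ)))) := by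
          rw [hE2]; gcongr
      _ = (6 * (24 ^ m * (8 * d * 5 ^ d)) * L ^ m) * T ^ d * (T ^ (2 * δ * m) * T ^ (-(1 / 40) : ℝ)) := by
          ring
      _ ≤ T ^ δ * T ^ d * (T ^ (2 * δ * m) * T ^ (-(1 / 40) : ℝ)) := by gcongr
      _ = T ^ d * T ^ (δ + (2 * δ * m + -(1 / 40))) := by
          rw [← Real.rpow_add hTp, mul_comm (T ^ δ), mul_assoc, ← Real.rpow_add hTp]
      _ ≤ _ := by
          have := Real.rpow_le_rpow_of_exponent_le hT1'
            (show δ + (2 * δ * m + -(1 / 40)) ≤ -(3 * δ / 8) by linarith)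
          gcongr
  -- the integrals of the squares
  set J : ℝ := ∫ x in box d 0 T, phr ψ x with hJ
  set Jg : ℂ := ∫ x in box d 0 T, ∏ j, gY Y (ψ j ⬝ᵥ x) with hJg
  have hJg' : ∫ x in box d 0 T, PhS ψ Y Finset.univ x = Jg := by
    rw [hJg]
    refine setIntegral_congr_fun (box_meas d _ _) fun x _ => ?_
    rw [PhS_univ]
  rw [hJg'] at c1 c2
  have hreal : ∀ w : (Fin d → ℝ) → ℝ, ∫ x, (w x : ℂ) * PhS ψ Y ∅ x = ((∫ x, w x * phr ψ x : ℝ) : ℂ) := by
    intro w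
    rw [← integral_complex_ofReal]
    congr 1
    ext x
    rw [PhS_empty]
    push_cast
    rfl
  rw [hreal] at b1 b2
  have cφ := phr_cont ψ
  have hIw : ∀ w : (Fin d → ℝ) → ℝ, ∀ R Λ, Wt w R Λ → Integrable fun x => w x * phr ψ x := by
    intro w R Λ hw
    have cw := hw.cont
    have h1 : (fun x => w x * phr ψ x) = indicator (cube d R) fun x => w x * phr ψ x := by
      ext x
      by_cases hx : x ∈ cube d R
      · rw [indicator_of_mem hx]
      · rw [indicator_of_notMem hx, hw.supp x hx, zero_mul]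
    rw [h1, integrable_indicator_iff (cube_meas d R)]
    exact cont_int (by fun_prop) _
  have iJ : Integrable (indicator (box d 0 T) (phr ψ)) := by
    rw [integrable_indicator_iff (box_meas d _ _)]
    exact cφ.continuousOn.integrableOn_compact isCompact_Icc
  have up : J ≤ ∫ x, tw d 0 T ρ x * phr ψ x := by
    rw [hJ, ← integral_indicator (box_meas d _ _)]
    refine integral_mono iJ (hIw _ _ _ hw1) fun x => ?_
    by_cases hx : x ∈ box d 0 T
    · simp only [indicator_of_mem hx, tw_one hx, one_mul]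
      exact le_rfl
    · simp only [indicator_of_notMem hx]
      exact mul_nonneg (tw_nonneg _ _ _ _) (phr_nonneg _ _)
  have low : ∫ x, tw d ρ (T - ρ) ρ x * phr ψ x ≤ J := by
    rw [hJ, ← integral_indicator (box_meas d _ _)]
    refine integral_mono (hIw _ _ _ hw2) iJ fun x => ?_
    by_cases hx : x ∈ box d 0 T
    · simp only [indicator_of_mem hx]
      exact mul_le_of_le_one_left (phr_nonneg _ _) (tw_le_one hρp x)
    · simp only [indicator_of_notMem hx]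
      rw [tw_zero (by linarith) hρp, zero_mul]
      have e1 : ρ - ρ = 0 := sub_self _
      have e2 : T - ρ + ρ = T := by ring
      rwa [e1, e2]
  set q : ℝ := ∫ x, tw d 0 T ρ x * phr ψ x with hq
  set p : ℝ := ∫ x, tw d ρ (T - ρ) ρ x * phr ψ x with hp
  have hqJ : ‖((q : ℝ) : ℂ) - Jg‖ ≤ E1 + E2 := by
    have := norm_sub_le_norm_sub_add_norm_sub ((q : ℝ) : ℂ) (∫ x, (tw d 0 T ρ x : ℂ) * PhS ψ Y Finset.univ x) Jg
    linarith
  have hpJ : ‖((p : ℝ) : ℂ) - Jg‖ ≤ E1 + E2 := by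
    have := norm_sub_le_norm_sub_add_norm_sub ((p : ℝ) : ℂ)
      (∫ x, (tw d ρ (T - ρ) ρ x : ℂ) * PhS ψ Y Finset.univ x) Jg
    linarith
  have hqp : q - p ≤ 2 * (E1 + E2) := by
    have h1 : ‖((q - p : ℝ) : ℂ)‖ ≤ 2 * (E1 + E2) := by
      have e1 : ((q - p : ℝ) : ℂ) = (((q : ℝ) : ℂ) - Jg) - (((p : ℝ) : ℂ) - Jg) := by
        push_cast; ring
      rw [e1]
      refine (norm_sub_le _ _).trans ?_
      linarith
    rw [Complex.norm_real, Real.norm_eq_abs] at h1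
    exact (le_abs_self _).trans h1
  have hJp : ‖((J : ℝ) : ℂ) - ((p : ℝ) : ℂ)‖ ≤ 2 * (E1 + E2) := by
    rw [← Complex.ofReal_sub, Complex.norm_real, Real.norm_eq_abs, abs_of_nonneg (by linarith)]
    linarith
  have hfin := norm_sub_le_norm_sub_add_norm_sub ((J : ℝ) : ℂ) ((p : ℝ) : ℂ) Jg
  have h3 : T ^ (-(3 * δ / 8)) ≤ T ^ (-(δ / 4)) := Real.rpow_le_rpow_of_exponent_le hT1' (by linarith)
  have h4 : T ^ d * T ^ (-(3 * δ / 8)) ≤ T ^ d * T ^ (-(δ / 4)) := by gcongr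
  linarith

end

end Pool.Agent.Y752.LP
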