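import Pool.Agent.Y752.LP.D5

set_option autoImplicit false

/-! The off-diagonal terms: one oscillating term. -/

namespace Pool.Agent.Y752.LP

open Complex MeasureTheory Set Matrix
open Pool.Agent.TH612.GS (z)
open Pool.Agent.Y752.KP

noncomputable section

lemma Lw_diff (u s : ℝ) : |Lw (u + s) - Lw u| ≤ |s| * (1 / (1 + |u|)) + |s| * (1 / (1 + |u + s|)) := by
  have h1 : 0 < 1 + |u| := by positivity
  have h2 : 0 < 1 + |u + s| := by positivity
  have hpi : 0 < 2 * Real.pi := by have := Real.pi_pos; positivity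
  have e1 : Lw (u + s) - Lw u = Real.log (1 + |u + s|) - Real.log (1 + |u|) := by
    unfold Lw
    rw [Real.log_div h2.ne' hpi.ne', Real.log_div h1.ne' hpi.ne']
    ring
  have key : ∀ x y : ℝ, 0 < x → 0 < y → |y - x| ≤ |s| → Real.log y - Real.log x ≤ |s| * (1 / x) := by
    intro x y hx hy hxy
    rw [← Real.log_div hy.ne' hx.ne']
    have h3 := Real.log_le_sub_one_of_pos (div_pos hy hx)
    refine h3.trans ?_
    rw [div_sub_one hx.ne', mul_one_div]
    have := le_abs_self (y - x)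
    gcongr
    linarith
  have ht : |(1 + |u + s|) - (1 + |u|)| ≤ |s| := by
    have : (1 + |u + s|) - (1 + |u|) = |u + s| - |u| := by ring
    rw [this]
    have h5 := abs_abs_sub_abs_le (u + s) u
    rwa [add_sub_cancel_left] at h5
  have a1 := key _ _ h1 h2 ht
  have a2 := key _ _ h2 h1 (by rwa [abs_sub_comm])
  have n1 : 0 ≤ |s| * (1 / (1 + |u|)) := by positivity
  have n2 : 0 ≤ |s| * (1 / (1 + |u + s|)) := by positivity
  rw [e1, abs_le]
  constructor <;> linarith

variable {ι : Type} [Fintype ι] [DecidableEq ι] {d : ℕ}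

lemma prod_diffR (s : Finset ι) (a b : ι → ℝ) {B : ℝ} (hB : 1 ≤ B) (ha : ∀ j ∈ s, |a j| ≤ B)
    (hb : ∀ j ∈ s, |b j| ≤ B) : |∏ j ∈ s, a j - ∏ j ∈ s, b j| ≤ B ^ s.card * ∑ j ∈ s, |a j - b j| := by
  induction s using Finset.induction_on with
  | empty => simp
  | insert i s hi ih =>
    have ih' := ih (fun j hj => ha j (Finset.mem_insert_of_mem hj)) fun j hj =>
      hb j (Finset.mem_insert_of_mem hj)
    have hai := ha i (Finset.mem_insert_self _ _)
    rw [Finset.prod_insert hi, Finset.prod_insert hi, Finset.sum_insert hi,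
      Finset.card_insert_of_notMem hi]
    have e1 : a i * ∏ j ∈ s, a j - b i * ∏ j ∈ s, b j =
        a i * (∏ j ∈ s, a j - ∏ j ∈ s, b j) + (a i - b i) * ∏ j ∈ s, b j := by ring
    have h1 : |∏ j ∈ s, b j| ≤ B ^ s.card := by
      rw [Finset.abs_prod]
      calc ∏ j ∈ s, |b j| ≤ ∏ _j ∈ s, B :=
            Finset.prod_le_prod (fun _ _ => abs_nonneg _) fun j hj => hb j (Finset.mem_insert_of_mem hj)
        _ = _ := by rw [Finset.prod_const]
    have hBp : 0 ≤ B ^ s.card := by positivity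
    rw [e1]
    refine (abs_add_le _ _).trans ?_
    rw [abs_mul, abs_mul]
    have hs0 : 0 ≤ ∑ j ∈ s, |a j - b j| := Finset.sum_nonneg fun _ _ => abs_nonneg _
    calc |a i| * |∏ j ∈ s, a j - ∏ j ∈ s, b j| + |a i - b i| * |∏ j ∈ s, b j|
        ≤ B * (B ^ s.card * ∑ j ∈ s, |a j - b j|) + |a i - b i| * B ^ s.card := by gcongr
      _ ≤ B * (B ^ s.card * ∑ j ∈ s, |a j - b j|) + B * (|a i - b i| * B ^ s.card) := by
          have : 0 ≤ |a i - b i| * B ^ s.card := by positivity
          nlinarith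
      _ = _ := by rw [pow_succ]; ring

/-- the oscillating factor -/
def EE (ψ : ι → Fin d → ℝ) (q : ι → ℕ × ℕ) (x : Fin d → ℝ) : ℂ := ∏ j, ee (fr (q j)) (ψ j ⬝ᵥ x)

/-- the frequency -/
def om (ψ : ι → Fin d → ℝ) (q : ι → ℕ × ℕ) (l : Fin d) : ℝ := ∑ j, fr (q j) * ψ j l

lemma EE_cont (ψ : ι → Fin d → ℝ) (q : ι → ℕ × ℕ) : Continuous (EE ψ q) := by
  unfold EE
  exact continuous_finsetProd _ fun j _ => (ee_cont _).comp (dot_cont _)

lemma EE_norm (ψ : ι → Fin d → ℝ) (q : ι → ℕ × ℕ) (x : Fin d → ℝ) : ‖EE ψ q x‖ = 1 := by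
  unfold EE
  rw [norm_prod]
  simp only [ee_norm, Finset.prod_const_one]

lemma EE_exp (ψ : ι → Fin d → ℝ) (q : ι → ℕ × ℕ) (x : Fin d → ℝ) :
    EE ψ q x = exp (I * ((∑ l, om ψ q l * x l : ℝ) : ℂ)) := by
  unfold EE ee om
  rw [← exp_sum, ← Finset.mul_sum, ← Complex.ofReal_sum]
  congr 3
  unfold dotProduct
  simp_rw [Finset.mul_sum, Finset.sum_mul]
  rw [Finset.sum_comm]
  refine Finset.sum_congr rfl fun l _ => Finset.sum_congr rfl fun j _ => ?_
  ring

lemma EE_diag {ψ : ι → Fin d → ℝ} {q : ι → ℕ × ℕ} (h : ∀ l, om ψ q l = 0) (x : Fin d → ℝ) :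
    EE ψ q x = 1 := by
  rw [EE_exp]
  simp [h]

lemma EE_shift {ψ : ι → Fin d → ℝ} {q : ι → ℕ × ℕ} {l : Fin d} (h : om ψ q l ≠ 0) (x : Fin d → ℝ) :
    EE ψ q (x + Pi.single l (Real.pi / om ψ q l)) = -EE ψ q x := by
  rw [EE_exp, EE_exp]
  have h1 : ∑ k, om ψ q k * (x + Pi.single l (Real.pi / om ψ q l) : Fin d → ℝ) k =
      ∑ k, om ψ q k * x k + Real.pi := by
    have h2 : ∀ k, om ψ q k * (x + Pi.single l (Real.pi / om ψ q l) : Fin d → ℝ) k =
        om ψ q k * x k + om ψ q k * (Pi.single l (Real.pi / om ψ q l) : Fin d → ℝ) k := by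
      intro k
      rw [Pi.add_apply, mul_add]
    simp_rw [h2]
    rw [Finset.sum_add_distrib]
    congr 1
    rw [Finset.sum_eq_single l]
    · rw [Pi.single_eq_same]
      field_simp
    · intro k _ hk
      rw [Pi.single_eq_of_ne hk, mul_zero]
    · intro hl
      exact absurd (Finset.mem_univ l) hl
  rw [h1]
  push_cast
  rw [mul_add, exp_add, mul_comm I (Real.pi : ℂ), exp_pi_mul_I]
  ring

/-- the smooth factor -/
def FL (ψ : ι → Fin d → ℝ) (q : ι → ℕ × ℕ) (x : Fin d → ℝ) : ℝ := ∏ j, (Lw (ψ j ⬝ᵥ x) - lh (q j))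

lemma FL_cont (ψ : ι → Fin d → ℝ) (q : ι → ℕ × ℕ) : Continuous (FL ψ q) := by
  unfold FL
  exact continuous_finsetProd _ fun j _ => (Lw_cont.comp (dot_cont _)).sub continuous_const

lemma expandL (ψ : ι → Fin d → ℝ) (Y : ℕ) (x : Fin d → ℝ) : ∏ j, gY Y (ψ j ⬝ᵥ x) =
    ∑ q ∈ QQ (fun _ : ι => Y), ((wtp q * FL ψ q x : ℝ) : ℂ) * EE ψ q x := by
  have h := expand (fun _ : ι => Y) (fun j => ψ j ⬝ᵥ x) 0
  simp only [zero_add] at h
  rw [h]
  refine Finset.sum_congr rfl fun q _ => ?_
  have h1 : ee (Lam q) 0 = 1 := by unfold ee; simp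
  rw [h1]
  unfold phc EE FL
  push_cast
  ring

/-- integral of `1 / (1 + |ψ x|)` over a cube -/
lemma inv_int {c : Fin d → ℝ} (hc : c ≠ 0) : ∃ C : ℝ, 1 ≤ C ∧ ∀ R : ℝ, 2 ≤ R →
    ∫ x in cube d R, 1 / (1 + |c ⬝ᵥ x|) ≤ C * R ^ d * (Real.log R / R) := by
  have hs : LinearIndepOn ℝ (fun _ : Unit => c) ((Finset.univ : Finset Unit) : Set Unit) := by
    rw [Finset.coe_univ, linearIndepOn_univ_iff]
    exact LinearIndependent.of_subsingleton () hc
  obtain ⟨C, K, hC, hK, h⟩ := prod_int (fun _ : Unit => c) Finset.univ hs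
  have hlog2 : 0 < Real.log 2 := Real.log_pos (by norm_num)
  set D : ℝ := 2 * (1 + Real.log (1 + K) / Real.log 2) with hD
  have hlK : 0 ≤ Real.log (1 + K) := Real.log_nonneg (by linarith)
  have hD1 : 1 ≤ D := by
    have : 0 ≤ Real.log (1 + K) / Real.log 2 := by positivity
    linarith
  refine ⟨C * D, by nlinarith, fun R hR => ?_⟩
  have hRp : 0 < R := by linarith
  have hlR : Real.log 2 ≤ Real.log R := Real.log_le_log (by norm_num) hR
  have hlR0 : 0 < Real.log R := by linarith
  have h1 := h (fun _ u => 1 / (1 + |u|)) (fun _ => by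
    refine continuous_const.div (by fun_prop) fun u => ?_
    positivity) (fun _ u => by positivity) R (D * (Real.log R / R)) hRp (by positivity) (fun _ _ => by
      have hKR : 0 ≤ K * R := by nlinarith
      have cint : Continuous fun u : ℝ => 1 / (1 + |u|) := by
        refine continuous_const.div (by fun_prop) fun u => ?_
        positivity
      have hhalf : ∫ u in (0:ℝ)..(K * R), 1 / (1 + |u|) = Real.log (1 + K * R) := by
        have e1 : ∫ u in (0:ℝ)..(K * R), 1 / (1 + |u|) = ∫ u in (0:ℝ)..(K * R), 1 / (1 + u) := by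
          refine intervalIntegral.integral_congr fun u hu => ?_
          rw [uIcc_of_le hKR] at hu
          rw [abs_of_nonneg hu.1]
        rw [e1, intervalIntegral.integral_comp_add_left (fun u => 1 / u) 1, integral_one_div_of_pos
          (by norm_num) (by linarith)]
        congr 1
        ring
      have hneg : ∫ u in (-(K * R))..0, 1 / (1 + |u|) = Real.log (1 + K * R) := by
        have h2 := intervalIntegral.integral_comp_neg (a := (0:ℝ)) (b := K * R) (fun u => 1 / (1 + |u|))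
        rw [neg_zero] at h2
        rw [← h2, ← hhalf]
        refine intervalIntegral.integral_congr fun u _ => ?_
        simp only [abs_neg]
      rw [← intervalIntegral.integral_add_adjacent_intervals (cint.intervalIntegrable _ 0)
        (cint.intervalIntegrable 0 _), hneg, hhalf]
      have h3 : D * (Real.log R / R) * R = D * Real.log R := by field_simp
      rw [h3]
      have h4 : Real.log (1 + K * R) ≤ Real.log (1 + K) + Real.log R := by
        rw [← Real.log_mul (by linarith) hRp.ne']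
        refine Real.log_le_log (by linarith) ?_
        nlinarith
      have h5 : Real.log (1 + K) ≤ Real.log (1 + K) / Real.log 2 * Real.log R := by
        calc Real.log (1 + K) = Real.log (1 + K) / Real.log 2 * Real.log 2 := by field_simp
          _ ≤ _ := by gcongr
      rw [hD]
      nlinarith)
  simp only [Finset.univ_unique, Finset.prod_singleton, Finset.card_singleton, pow_one] at h1
  refine h1.trans (le_of_eq ?_)
  ring

end

end Pool.Agent.Y752.LP
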