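import Pool.Agent.Y752.LP.E1

set_option autoImplicit false

/-! The off-diagonal terms are small. -/

namespace Pool.Agent.Y752.LP

open Complex MeasureTheory Set Matrix
open Pool.Agent.TH612.GS (z)
open Pool.Agent.Y752.KP

noncomputable section

variable {ι : Type} [Fintype ι] [DecidableEq ι] {d : ℕ}

lemma Lw_even (u : ℝ) : Lw (-u) = Lw u := by
  unfold Lw
  rw [abs_neg]

lemma Lw_bdK {K T u : ℝ} (hK : 1 ≤ K) (hT : K ≤ T) (hT7 : 7 ≤ T) (hu : |u| ≤ K * T) :
    |Lw u| ≤ 4 * Real.log T := by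
  have h1 : Lw u = Lw |u| := by
    rcases abs_cases u with h | h
    · rw [h.1]
    · rw [h.1, Lw_even]
  rw [h1]
  have hKT : T ≤ K * T := by nlinarith
  have h2 := Lw_bd (T := K * T) (u := |u|) (by linarith) (abs_nonneg u) (by linarith)
  have h3 := log_scale hK hT (by linarith)
  linarith

/-- the difference of the integrals over two nearly equal sets -/
lemma set_diff {T ρ Bd : ℝ} (hρ : 0 ≤ ρ) (hρT : 4 * ρ ≤ T) (hBd : 0 ≤ Bd) {G : (Fin d → ℝ) → ℂ}
    (hG : Continuous G) (hb : ∀ x ∈ cube d (2 * T), ‖G x‖ ≤ Bd) {Q1 Q2 : Set (Fin d → ℝ)}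
    (m1 : MeasurableSet Q1) (m2 : MeasurableSet Q2) (s1 : Q1 ⊆ box d (-ρ) (T + ρ))
    (s2 : Q2 ⊆ box d (-ρ) (T + ρ)) (i1 : box d ρ (T - ρ) ⊆ Q1) (i2 : box d ρ (T - ρ) ⊆ Q2) :
    ‖(∫ x in Q1, G x) - ∫ x in Q2, G x‖ ≤ Bd * (4 * ρ * d * (T + 2 * ρ) ^ (d - 1)) := by
  have hT : 0 ≤ T := by linarith
  set O := box d (-ρ) (T + ρ) with hO
  set In := box d ρ (T - ρ) with hIn
  have e : ∀ Q : Set (Fin d → ℝ), MeasurableSet Q → Q ⊆ O →
      ∫ x in Q, G x = ∫ x in O, indicator Q G x := by
    intro Q mQ sQ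
    rw [setIntegral_indicator mQ, inter_eq_self_of_subset_right sQ]
  have iG : IntegrableOn G O := hG.continuousOn.integrableOn_compact isCompact_Icc
  rw [e Q1 m1 s1, e Q2 m2 s2, ← integral_sub (iG.indicator m1) (iG.indicator m2)]
  have hsub : In ⊆ O := i1.trans s1
  have fO : volume O ≠ ⊤ := by
    rw [hO, box_vol d (by linarith)]
    exact ENNReal.ofReal_ne_top
  have hpt : ∀ x ∈ O, ‖indicator Q1 G x - indicator Q2 G x‖ ≤ indicator (O \ In) (fun _ => Bd) x := by
    intro x hx
    have hxR : x ∈ cube d (2 * T) := by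
      rw [hO, mem_box] at hx
      rw [mem_cube]
      intro l
      rw [abs_le]
      constructor <;> linarith [(hx l).1, (hx l).2]
    have h7 := hb x hxR
    by_cases hxi : x ∈ In
    · rw [indicator_of_mem (i1 hxi), indicator_of_mem (i2 hxi), sub_self, norm_zero]
      exact indicator_nonneg (fun _ _ => hBd) _
    · rw [indicator_of_mem (show x ∈ O \ In from ⟨hx, hxi⟩)]
      by_cases h1 : x ∈ Q1 <;> by_cases h2 : x ∈ Q2
      · rw [indicator_of_mem h1, indicator_of_mem h2, sub_self, norm_zero]; exact hBd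
      · rw [indicator_of_mem h1, indicator_of_notMem h2, sub_zero]; exact h7
      · rw [indicator_of_notMem h1, indicator_of_mem h2, zero_sub, norm_neg]; exact h7
      · rw [indicator_of_notMem h1, indicator_of_notMem h2, sub_self, norm_zero]; exact hBd
  refine (norm_integral_le_integral_norm _).trans ?_
  calc ∫ x in O, ‖indicator Q1 G x - indicator Q2 G x‖
      ≤ ∫ x in O, indicator (O \ In) (fun _ => Bd) x := by
        refine setIntegral_mono_on ((iG.indicator m1).sub (iG.indicator m2)).norm ?_ (box_meas d _ _) hpt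
        refine IntegrableOn.indicator ?_ ((box_meas d _ _).diff (box_meas d _ _))
        exact integrableOn_const (hs := fO)
    _ = Bd * (volume (O \ In)).toReal := by
        rw [setIntegral_indicator ((box_meas d _ _).diff (box_meas d _ _)),
          inter_eq_self_of_subset_right sdiff_subset, setIntegral_const, smul_eq_mul, mul_comm]
        rfl
    _ ≤ _ := by
        refine mul_le_mul_of_nonneg_left ?_ hBd
        rw [measure_sdiff hsub (box_meas d _ _).nullMeasurableSet
          (ne_top_of_le_ne_top fO (measure_mono hsub)),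
          hO, hIn, box_vol d (by linarith), box_vol d (by linarith), ← ENNReal.ofReal_sub _ (by
            have : 0 ≤ T - ρ - ρ := by linarith
            positivity), ENNReal.toReal_ofReal (by
            have : T - ρ - ρ ≤ T + ρ - -ρ := by linarith
            have h0 : 0 ≤ T - ρ - ρ := by linarith
            have := pow_le_pow_left₀ h0 this d
            linarith)]
        have h := pow_diff d (a := T + ρ - -ρ) (b := T - ρ - ρ) (by linarith) (by linarith)
        refine h.trans (le_of_eq ?_)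
        have e5 : T + ρ - -ρ = T + 2 * ρ := by ring
        have e6 : T + ρ - -ρ - (T - ρ - ρ) = 4 * ρ := by ring
        rw [e6, e5]

theorem off_one (ψ : ι → Fin d → ℝ) (hψ0 : ∀ j, ψ j ≠ 0) : ∃ C T₀ : ℝ, 1 ≤ C ∧ 1000 ≤ T₀ ∧
    ∀ T : ℝ, T₀ ≤ T → ∀ Y : ℕ, (Y : ℝ) ≤ T → ∀ q ∈ QQ (fun _ : ι => Y), ∀ l : Fin d,
      om ψ q l ≠ 0 → 4 * |Real.pi / om ψ q l| ≤ T →
      ‖∫ x in box d 0 T, (FL ψ q x : ℂ) * EE ψ q x‖ ≤
        C * |Real.pi / om ψ q l| * (T ^ d / T) * Real.log T ^ (Fintype.card ι + 1) := by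
  choose CI hCI hI using fun j => inv_int (hψ0 j)
  set m := Fintype.card ι with hm
  set SC : ℝ := ∑ j, sz (ψ j) * CI j with hSC
  have hSC0 : 0 ≤ SC := Finset.sum_nonneg fun j _ => mul_nonneg (sz_nonneg _) (by linarith [hCI j])
  set K : ℝ := 1 + 2 * ∑ j, sz (ψ j) with hK
  have hKs : ∀ j, 2 * sz (ψ j) ≤ K := fun j => by
    have := Finset.single_le_sum (f := fun j => sz (ψ j)) (fun j _ => sz_nonneg _) (Finset.mem_univ j)
    linarith
  have hK1 : 1 ≤ K := by
    have := Finset.sum_nonneg fun j (_ : j ∈ Finset.univ) => sz_nonneg (ψ j)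
    linarith
  refine ⟨1 + 5 ^ m * (4 * 2 ^ d * SC + 4 * d * 2 ^ d), max 1000 K, by
    have : 0 ≤ 5 ^ m * (4 * 2 ^ d * SC + 4 * d * 2 ^ d) := by positivity
    linarith, le_max_left _ _, ?_⟩
  intro T hT Y hYT q hq l hom hτT
  have hT1000 : 1000 ≤ T := (le_max_left _ _).trans hT
  have hTK : K ≤ T := (le_max_right _ _).trans hT
  have hTp : 0 < T := by linarith
  set L := Real.log T with hL
  have hL1 : 1 ≤ L := by
    rw [hL, Real.le_log_iff_exp_le hTp]
    have := Real.exp_one_lt_d9
    linarith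
  set τ := Real.pi / om ψ q l with hτ
  set s : Fin d → ℝ := Pi.single l τ with hs
  set ρ := |τ| with hρ
  have hρ0 : 0 ≤ ρ := abs_nonneg _
  have hsl : ∀ k, |s k| ≤ ρ := by
    intro k
    by_cases hk : k = l
    · subst hk
      rw [hs, Pi.single_eq_same]
    · rw [hs, Pi.single_eq_of_ne hk, abs_zero]
      exact hρ0
  have hsn : ‖s‖ ≤ ρ := (pi_norm_le_iff_of_nonneg hρ0).2 fun k => by
    rw [Real.norm_eq_abs]; exact hsl k
  have hds : ∀ j, ψ j ⬝ᵥ s = ψ j l * τ := by
    intro j
    rw [hs, dotProduct_single]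
  -- bounds on the cube
  set B := 5 * L with hB
  have hB1 : 1 ≤ B := by linarith
  have hbd : ∀ x ∈ cube d (2 * T), ∀ j, |Lw (ψ j ⬝ᵥ x) - lh (q j)| ≤ B := by
    intro x hx j
    have h1 := Lw_bdK hK1 hTK (by linarith) (u := ψ j ⬝ᵥ x) ((dot_le hx).trans (by
      have := hKs j
      nlinarith))
    have h2 := lh_bd hYT (mem_QQ.1 hq j)
    have h3 := abs_sub (Lw (ψ j ⬝ᵥ x)) (lh (q j))
    linarith
  set G : (Fin d → ℝ) → ℂ := fun x => (FL ψ q x : ℂ) * EE ψ q x with hG
  have cFL := FL_cont ψ q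
  have cEE := EE_cont ψ q
  have cG : Continuous G := (Complex.continuous_ofReal.comp cFL).mul cEE
  have hGb : ∀ x ∈ cube d (2 * T), ‖G x‖ ≤ B ^ m := by
    intro x hx
    rw [hG]
    simp only
    rw [norm_mul, EE_norm, mul_one, Complex.norm_real, Real.norm_eq_abs]
    unfold FL
    rw [Finset.abs_prod]
    calc ∏ j, |Lw (ψ j ⬝ᵥ x) - lh (q j)| ≤ ∏ _j : ι, B :=
          Finset.prod_le_prod (fun _ _ => abs_nonneg _) fun j _ => hbd x hx j
      _ = _ := by rw [Finset.prod_const, Finset.card_univ]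
  set Q := box d 0 T with hQ
  set Q' : Set (Fin d → ℝ) := {y | y - s ∈ Q} with hQ'
  have mQ : MeasurableSet Q := box_meas d _ _
  have mQ' : MeasurableSet Q' := by
    rw [hQ']
    exact mQ.preimage (by fun_prop)
  have hGs : ∀ x, (FL ψ q (x + s) : ℂ) * EE ψ q x = -G (x + s) := by
    intro x
    rw [hG]
    simp only
    rw [hs, EE_shift hom]
    ring
  have hshift : ∫ x in Q, G (x + s) = ∫ x in Q', G x := by
    rw [← integral_indicator mQ, ← integral_indicator mQ',
      ← integral_add_right_eq_self (fun x => indicator Q' G x) s]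
    congr 1
    ext x
    by_cases hx : x ∈ Q
    · have : x + s ∈ Q' := by rw [hQ', mem_ofPred_eq, add_sub_cancel_right]; exact hx
      rw [indicator_of_mem hx, indicator_of_mem this]
    · have : x + s ∉ Q' := by rw [hQ', mem_ofPred_eq, add_sub_cancel_right]; exact hx
      rw [indicator_of_notMem hx, indicator_of_notMem this]
  have iQ : ∀ {E : Type} [NormedAddCommGroup E] {f : (Fin d → ℝ) → E}, Continuous f → IntegrableOn f Q :=
    fun hf => hf.continuousOn.integrableOn_compact isCompact_Icc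
  have cshift : Continuous fun x : Fin d → ℝ => x + s := by fun_prop
  have hsplit : ∫ x in Q, G x = (∫ x in Q, ((FL ψ q x - FL ψ q (x + s) : ℝ) : ℂ) * EE ψ q x) -
      ∫ x in Q', G x := by
    rw [← hshift, ← integral_sub]
    · congr 1
      ext x
      have := hGs x
      rw [sub_eq_add_neg, ← this, hG]
      push_cast
      ring
    · exact iQ ((Complex.continuous_ofReal.comp (cFL.sub (cFL.comp cshift))).mul cEE)
    · exact iQ (cG.comp cshift)
  have h2 : (2:ℂ) * ∫ x in Q, G x = (∫ x in Q, ((FL ψ q x - FL ψ q (x + s) : ℝ) : ℂ) * EE ψ q x) +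
      ((∫ x in Q, G x) - ∫ x in Q', G x) := by
    rw [two_mul]
    nth_rewrite 1 [hsplit]
    ring
  -- second part
  have part2 : ‖(∫ x in Q, G x) - ∫ x in Q', G x‖ ≤ B ^ m * (4 * ρ * d * (T + 2 * ρ) ^ (d - 1)) := by
    refine set_diff hρ0 hτT (by positivity) cG hGb mQ mQ' ?_ ?_ ?_ ?_
    · intro x hx
      rw [hQ, mem_box] at hx
      rw [mem_box]
      intro k
      constructor <;> linarith [(hx k).1, (hx k).2]
    · intro x hx
      rw [hQ', mem_ofPred_eq, hQ, mem_box] at hx
      rw [mem_box]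
      intro k
      have h3 := abs_le.1 (hsl k)
      have h4 := hx k
      rw [Pi.sub_apply] at h4
      constructor <;> linarith [h4.1, h4.2, h3.1, h3.2]
    · intro x hx
      rw [mem_box] at hx
      rw [hQ, mem_box]
      intro k
      constructor <;> linarith [(hx k).1, (hx k).2]
    · intro x hx
      rw [mem_box] at hx
      rw [hQ', mem_ofPred_eq, hQ, mem_box]
      intro k
      have h3 := abs_le.1 (hsl k)
      have h4 := hx k
      rw [Pi.sub_apply]
      constructor <;> linarith [h4.1, h4.2, h3.1, h3.2]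
  -- first part
  have hQT : Q ⊆ cube d T := by
    intro x hx
    rw [hQ, mem_box] at hx
    rw [mem_cube]
    intro k
    rw [abs_le]
    constructor <;> linarith [(hx k).1, (hx k).2]
  have hsub2 : cube d T ⊆ cube d (2 * T) := by
    intro x hx
    rw [mem_cube] at hx ⊢
    intro k
    have := hx k
    linarith
  set h : ι → (Fin d → ℝ) → ℝ := fun j x => 1 / (1 + |ψ j ⬝ᵥ x|) with hh
  have ch : ∀ j, Continuous (h j) := fun j => by
    have cd := dot_cont (ψ j)
    refine continuous_const.div (by fun_prop) fun x => ?_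
    have : 0 ≤ |ψ j ⬝ᵥ x| := abs_nonneg _
    positivity
  have h0 : ∀ j x, 0 ≤ h j x := fun j x => by rw [hh]; positivity
  have hpt : ∀ x ∈ Q, ‖((FL ψ q x - FL ψ q (x + s) : ℝ) : ℂ) * EE ψ q x‖ ≤
      B ^ m * ∑ j, |ψ j l * τ| * (h j x + h j (x + s)) := by
    intro x hx
    have hx1 : x ∈ cube d (2 * T) := hsub2 (hQT hx)
    have hx2 : x + s ∈ cube d (2 * T) := by
      have := mem_cube.1 (hQT hx)
      rw [mem_cube]
      intro k
      have h3 := hsl k
      have h4 := abs_add_le (x k) (s k)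
      have h5 := this k
      rw [Pi.add_apply]
      linarith
    rw [norm_mul, EE_norm, mul_one, Complex.norm_real, Real.norm_eq_abs]
    unfold FL
    refine (prod_diffR Finset.univ _ _ hB1 (fun j _ => hbd x hx1 j) fun j _ => hbd _ hx2 j).trans ?_
    rw [Finset.card_univ]
    refine mul_le_mul_of_nonneg_left (Finset.sum_le_sum fun j _ => ?_) (by positivity)
    have h6 := Lw_diff (ψ j ⬝ᵥ x) (ψ j l * τ)
    have e1 : ψ j ⬝ᵥ (x + s) = ψ j ⬝ᵥ x + ψ j l * τ := by rw [dotProduct_add, hds]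
    have e2 : Lw (ψ j ⬝ᵥ x) - lh (q j) - (Lw (ψ j ⬝ᵥ (x + s)) - lh (q j)) =
        -(Lw (ψ j ⬝ᵥ x + ψ j l * τ) - Lw (ψ j ⬝ᵥ x)) := by rw [e1]; ring
    rw [e2, abs_neg]
    refine h6.trans (le_of_eq ?_)
    rw [hh]
    simp only
    rw [e1]
    ring
  have part1 : ‖∫ x in Q, ((FL ψ q x - FL ψ q (x + s) : ℝ) : ℂ) * EE ψ q x‖ ≤
      B ^ m * (ρ * (4 * 2 ^ d * SC) * (T ^ d / T) * L) := by
    refine (norm_integral_le_integral_norm _).trans ?_
    have c1 : Continuous fun x => ‖((FL ψ q x - FL ψ q (x + s) : ℝ) : ℂ) * EE ψ q x‖ :=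
      ((Complex.continuous_ofReal.comp (cFL.sub (cFL.comp cshift))).mul cEE).norm
    have c2 : Continuous fun x => B ^ m * ∑ j, |ψ j l * τ| * (h j x + h j (x + s)) := by
      refine continuous_const.mul (continuous_finsetSum _ fun j _ => continuous_const.mul ?_)
      exact (ch j).add ((ch j).comp cshift)
    have n2 : ∀ x, 0 ≤ B ^ m * ∑ j, |ψ j l * τ| * (h j x + h j (x + s)) := fun x => by
      refine mul_nonneg (by positivity) (Finset.sum_nonneg fun j _ => mul_nonneg (abs_nonneg _) ?_)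
      exact add_nonneg (h0 _ _) (h0 _ _)
    calc ∫ x in Q, ‖((FL ψ q x - FL ψ q (x + s) : ℝ) : ℂ) * EE ψ q x‖
        ≤ ∫ x in Q, B ^ m * ∑ j, |ψ j l * τ| * (h j x + h j (x + s)) :=
          setIntegral_mono_on (iQ c1) (iQ c2) mQ hpt
      _ ≤ ∫ x in cube d T, B ^ m * ∑ j, |ψ j l * τ| * (h j x + h j (x + s)) :=
          setIntegral_mono_set (cont_int c2 _) (Filter.Eventually.of_forall n2)
            (Filter.Eventually.of_forall hQT)
      _ = B ^ m * ∑ j, |ψ j l * τ| * ((∫ x in cube d T, h j x) + ∫ x in cube d T, h j (x + s)) := by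
          have j1 : ∀ j, IntegrableOn (fun x => h j (x + s)) (cube d T) := fun j =>
            cont_int ((ch j).comp cshift) _
          have j2 : ∀ j, IntegrableOn (fun x => |ψ j l * τ| * (h j x + h j (x + s))) (cube d T) := fun j =>
            ((cont_int (ch j) _).add (j1 j)).const_mul _
          rw [integral_const_mul, integral_finsetSum _ (fun j _ => j2 j)]
          congr 1
          refine Finset.sum_congr rfl fun j _ => ?_
          rw [integral_const_mul, integral_add (cont_int (ch j) _) (j1 j)]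
      _ ≤ B ^ m * ∑ j, sz (ψ j) * CI j * (ρ * (4 * 2 ^ d) * (T ^ d / T) * L) := by
          refine mul_le_mul_of_nonneg_left (Finset.sum_le_sum fun j _ => ?_) (by positivity)
          have i2 : ∫ x in cube d (2 * T), h j x ≤ CI j * (2 * T) ^ d * (Real.log (2 * T) / (2 * T)) :=
            hI j (2 * T) (by linarith)
          have i1 : ∫ x in cube d T, h j x ≤ ∫ x in cube d (2 * T), h j x :=
            setIntegral_mono_set (cont_int (ch j) _) (Filter.Eventually.of_forall fun x => h0 j x)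
              (Filter.Eventually.of_forall hsub2)
          have i3 : ∫ x in cube d T, h j (x + s) ≤ ∫ x in cube d (2 * T), h j x :=
            cube_shift (ch j) (h0 j) (hsn.trans (by linarith))
          have hl2 : Real.log (2 * T) ≤ 2 * L := log_scale (by norm_num) (by linarith) (by linarith)
          have hl20 : 0 ≤ Real.log (2 * T) := Real.log_nonneg (by linarith)
          have hψl : |ψ j l * τ| ≤ sz (ψ j) * ρ := by
            rw [abs_mul]
            refine mul_le_mul_of_nonneg_right ?_ (abs_nonneg _)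
            exact Finset.single_le_sum (f := fun l => |ψ j l|) (fun _ _ => abs_nonneg _)
              (Finset.mem_univ l)
          have hCj : 0 ≤ CI j := by linarith [hCI j]
          have i4 : CI j * (2 * T) ^ d * (Real.log (2 * T) / (2 * T)) ≤ CI j * (2 ^ d * T ^ d) * (L / T) := by
            rw [mul_pow]
            have : Real.log (2 * T) / (2 * T) ≤ L / T := by
              rw [div_le_div_iff₀ (by linarith) hTp]
              nlinarith
            gcongr
          calc |ψ j l * τ| * ((∫ x in cube d T, h j x) + ∫ x in cube d T, h j (x + s))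
              ≤ (sz (ψ j) * ρ) * (CI j * (2 ^ d * T ^ d) * (L / T) + CI j * (2 ^ d * T ^ d) * (L / T)) := by
                have : 0 ≤ sz (ψ j) * ρ := mul_nonneg (sz_nonneg _) hρ0
                gcongr
                · exact i1.trans (i2.trans i4)
                · exact i3.trans (i2.trans i4)
            _ = sz (ψ j) * CI j * (ρ * (2 * 2 ^ d) * (T ^ d / T) * L) := by ring
            _ ≤ sz (ψ j) * CI j * (ρ * (4 * 2 ^ d) * (T ^ d / T) * L) := by
                have : 0 ≤ sz (ψ j) * CI j := mul_nonneg (sz_nonneg _) hCj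
                have h7 : (2:ℝ) * 2 ^ d ≤ 4 * 2 ^ d := by
                  have : (0:ℝ) ≤ 2 ^ d := by positivity
                  linarith
                gcongr
      _ = _ := by
          rw [← Finset.sum_mul, ← hSC]
          ring
  -- conclusion
  have hTd : (T + 2 * ρ) ^ (d - 1) * d ≤ 2 ^ d * d * (T ^ d / T) := by
    rcases Nat.eq_zero_or_pos d with hd | hd
    · subst hd
      simp
    · have e1 : T + 2 * ρ ≤ 2 * T := by linarith
      have e2 : T ^ d / T = T ^ (d - 1) := by
        rw [div_eq_iff hTp.ne', ← pow_succ]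
        congr 1
        omega
      have e3 : (2:ℝ) ^ (d - 1) ≤ 2 ^ d := pow_le_pow_right₀ (by norm_num) (by omega)
      calc (T + 2 * ρ) ^ (d - 1) * d ≤ (2 * T) ^ (d - 1) * d := by gcongr
        _ = 2 ^ (d - 1) * d * T ^ (d - 1) := by rw [mul_pow]; ring
        _ ≤ _ := by rw [e2]; gcongr
  have hfin : 2 * ‖∫ x in Q, G x‖ ≤ B ^ m * (ρ * (4 * 2 ^ d * SC) * (T ^ d / T) * L) +
      B ^ m * (4 * ρ * d * (T + 2 * ρ) ^ (d - 1)) := by
    have h3 : ‖(2:ℂ) * ∫ x in Q, G x‖ = 2 * ‖∫ x in Q, G x‖ := by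
      rw [norm_mul]; norm_num
    rw [← h3, h2]
    exact (norm_add_le _ _).trans (add_le_add part1 part2)
  have hBm : B ^ m = 5 ^ m * L ^ m := by rw [hB, mul_pow]
  have hTdT : 0 ≤ T ^ d / T := by positivity
  calc ‖∫ x in Q, G x‖ ≤ 2 * ‖∫ x in Q, G x‖ := by
        have := norm_nonneg (∫ x in Q, G x)
        linarith
    _ ≤ B ^ m * (ρ * (4 * 2 ^ d * SC) * (T ^ d / T) * L) + B ^ m * (4 * ρ * d * (T + 2 * ρ) ^ (d - 1)) := hfin
    _ ≤ B ^ m * (ρ * (4 * 2 ^ d * SC) * (T ^ d / T) * L) +
        B ^ m * (4 * ρ * (2 ^ d * d * (T ^ d / T)) * L) := by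
        refine add_le_add le_rfl (mul_le_mul_of_nonneg_left ?_ (by positivity))
        calc 4 * ρ * d * (T + 2 * ρ) ^ (d - 1) = 4 * ρ * ((T + 2 * ρ) ^ (d - 1) * d) * 1 := by ring
          _ ≤ 4 * ρ * (2 ^ d * d * (T ^ d / T)) * L := by gcongr
    _ = 5 ^ m * (4 * 2 ^ d * SC + 4 * d * 2 ^ d) * ρ * (T ^ d / T) * L ^ (m + 1) := by
        rw [hBm, pow_succ]
        ring
    _ ≤ _ := by
        gcongr
        linarith

end

end Pool.Agent.Y752.LP
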