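import Pool.Agent.Y752.LP.E2

set_option autoImplicit false

/-! The expansion of the product of the main functions on a cube. -/

namespace Pool.Agent.Y752.LP

open Complex MeasureTheory Set Matrix
open Pool.Agent.TH612.GS (z)
open Pool.Agent.Y752.KP

noncomputable section

variable {ι : Type} [Fintype ι] [DecidableEq ι] {d : ℕ}

/-- the real forms -/
def re (ψ : ι → Fin d → ℤ) (j : ι) (l : Fin d) : ℝ := (ψ j l : ℝ)

/-- total size of the coefficients -/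
def SS (ψ : ι → Fin d → ℤ) : ℕ := ∑ l, ∑ j, (ψ j l).natAbs

lemma om_low (ψ : ι → Fin d → ℤ) {Y : ℕ} (hY : 1 ≤ Y) {q : ι → ℕ × ℕ} (hq : q ∈ QQ (fun _ : ι => Y))
    {l : Fin d} (h : om (re ψ) q l ≠ 0) : ((Y : ℝ) ^ SS ψ)⁻¹ ≤ |om (re ψ) q l| := by
  have hYr : (1:ℝ) ≤ Y := by exact_mod_cast hY
  set P : ℕ := ∏ j, (if 0 ≤ ψ j l then (q j).1 else (q j).2) ^ (ψ j l).natAbs with hP
  set Q : ℕ := ∏ j, (if 0 ≤ ψ j l then (q j).2 else (q j).1) ^ (ψ j l).natAbs with hQ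
  have hb := fun j => qs_bd (mem_QQ.1 hq j)
  have hPpos : 0 < P := by
    rw [hP]
    refine Finset.prod_pos fun j _ => ?_
    obtain ⟨a, b, _, _⟩ := hb j
    split_ifs <;> positivity
  have hQpos : 0 < Q := by
    rw [hQ]
    refine Finset.prod_pos fun j _ => ?_
    obtain ⟨a, b, _, _⟩ := hb j
    split_ifs <;> positivity
  have hS : ∑ j, (ψ j l).natAbs ≤ SS ψ :=
    Finset.single_le_sum (f := fun l => ∑ j, (ψ j l).natAbs) (fun _ _ => Nat.zero_le _) (Finset.mem_univ l)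
  have hPle : P ≤ Y ^ SS ψ := by
    calc P ≤ ∏ j, Y ^ (ψ j l).natAbs := by
          refine Finset.prod_le_prod' fun j _ => ?_
          obtain ⟨_, _, c, e⟩ := hb j
          split_ifs
          · exact Nat.pow_le_pow_left c _
          · exact Nat.pow_le_pow_left e _
      _ = Y ^ ∑ j, (ψ j l).natAbs := by rw [Finset.prod_pow_eq_pow_sum]
      _ ≤ _ := Nat.pow_le_pow_right hY hS
  have hQle : Q ≤ Y ^ SS ψ := by
    calc Q ≤ ∏ j, Y ^ (ψ j l).natAbs := by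
          refine Finset.prod_le_prod' fun j _ => ?_
          obtain ⟨_, _, c, e⟩ := hb j
          split_ifs
          · exact Nat.pow_le_pow_left e _
          · exact Nat.pow_le_pow_left c _
      _ = Y ^ ∑ j, (ψ j l).natAbs := by rw [Finset.prod_pow_eq_pow_sum]
      _ ≤ _ := Nat.pow_le_pow_right hY hS
  have hlog : om (re ψ) q l = Real.log P - Real.log Q := by
    rw [hP, hQ]
    push_cast
    rw [Real.log_prod (fun j _ => by
      obtain ⟨a, b, _, _⟩ := hb j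
      split_ifs <;> positivity), Real.log_prod (fun j _ => by
      obtain ⟨a, b, _, _⟩ := hb j
      split_ifs <;> positivity), ← Finset.sum_sub_distrib]
    unfold om re fr
    refine Finset.sum_congr rfl fun j _ => ?_
    rw [Real.log_pow, Real.log_pow]
    split_ifs with h0
    · have : ((ψ j l).natAbs : ℝ) = (ψ j l : ℝ) := by
        rw [Nat.cast_natAbs, abs_of_nonneg h0]
      rw [this]
      ring
    · have : ((ψ j l).natAbs : ℝ) = -(ψ j l : ℝ) := by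
        rw [Nat.cast_natAbs, abs_of_neg (not_le.1 h0)]
        push_cast
        ring
      rw [this]
      ring
  have hne : P ≠ Q := by
    intro hPQ
    apply h
    rw [hlog, hPQ, sub_self]
  have h1 : (1:ℝ) ≤ |(P : ℝ) - Q| := by
    rcases lt_or_gt_of_ne hne with h2 | h2
    · have : (P : ℝ) + 1 ≤ Q := by exact_mod_cast h2
      rw [abs_of_neg (by linarith)]
      linarith
    · have : (Q : ℝ) + 1 ≤ P := by exact_mod_cast h2
      rw [abs_of_pos (by linarith)]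
      linarith
  rw [hlog]
  refine le_trans ?_ (log_sub_ge (x := (P : ℝ)) (y := (Q : ℝ)) (M := (Y : ℝ) ^ SS ψ)
    (by exact_mod_cast hPpos) (by exact_mod_cast hQpos) (by exact_mod_cast hPle) (by exact_mod_cast hQle))
  rw [inv_eq_one_div]
  gcongr

open Classical in
/-- the diagonal tuples -/
def DL (ψ : ι → Fin d → ℤ) (Y : ℕ) : Finset (ι → ℕ × ℕ) :=
  (QQ (fun _ : ι => Y)).filter fun q => ∀ l, om (re ψ) q l = 0

theorem mainE (ψ : ι → Fin d → ℤ) (hψ0 : ∀ j, re ψ j ≠ 0) {δ : ℝ} (hδ : 0 < δ)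
    (hδ1 : δ * (1000 * ((Fintype.card ι : ℝ) + 1) * ((SS ψ : ℝ) + 1)) ≤ 1) :
    ∃ T₀ : ℝ, 1000 ≤ T₀ ∧ ∀ T : ℝ, T₀ ≤ T → ∀ Y : ℕ, T ^ δ ≤ Y → (Y : ℝ) ≤ 2 * T ^ δ →
      ‖(∫ x in box d 0 T, ∏ j, gY Y (re ψ j ⬝ᵥ x)) -
        ((∑ q ∈ DL ψ Y, wtp q * ∫ x in box d 0 T, FL (re ψ) q x : ℝ) : ℂ)‖ ≤
        T ^ d * T ^ (-(1 / 2) : ℝ) := by
  classical
  obtain ⟨C, T1, hC, hT1, hoff⟩ := off_one (re ψ) hψ0
  set m := Fintype.card ι with hm
  set S := SS ψ with hS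
  have hm0 : (0:ℝ) ≤ m := by positivity
  have hS0 : (0:ℝ) ≤ S := by positivity
  have hδm : δ * m ≤ 1 / 1000 := by
    nlinarith [mul_nonneg hδ.le hm0, mul_nonneg hδ.le hS0, mul_nonneg (mul_nonneg hδ.le hm0) hS0]
  have hδS : δ * S ≤ 1 / 1000 := by
    nlinarith [mul_nonneg hδ.le hm0, mul_nonneg hδ.le hS0, mul_nonneg (mul_nonneg hδ.le hm0) hS0]
  have hδ2 : δ ≤ 1 / 1000 := by
    nlinarith [mul_nonneg hδ.le hm0, mul_nonneg hδ.le hS0, mul_nonneg (mul_nonneg hδ.le hm0) hS0]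
  obtain ⟨T2, hT2, hsz⟩ := Y_size hδ (by linarith)
  obtain ⟨T3, hT3, hlp1⟩ := logpow (16 * 2 ^ S) 0 (show (0:ℝ) < 1 / 4 by norm_num)
  obtain ⟨T4, hT4, hlp2⟩ := logpow (2 ^ (2 * m) * (C * (4 * 2 ^ S))) (m + 1) (show (0:ℝ) < 1 / 4 by norm_num)
  refine ⟨max T1 (max T2 (max T3 T4)), hT1.trans (le_max_left _ _), ?_⟩
  intro T hT Y hYl hYu
  have t1 : T1 ≤ T := (le_max_left _ _).trans hT
  have hT' := (le_max_right _ _).trans hT
  have t2 : T2 ≤ T := (le_max_left _ _).trans hT'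
  have hT'' := (le_max_right _ _).trans hT'
  have t3 : T3 ≤ T := (le_max_left _ _).trans hT''
  have t4 : T4 ≤ T := (le_max_right _ _).trans hT''
  have hT1000 : 1000 ≤ T := hT1.trans t1
  have hTp : 0 < T := by linarith
  have hT1' : 1 ≤ T := by linarith
  obtain ⟨hY1, hY20, hYT, hY6⟩ := hsz T t2 Y hYl hYu
  have hYr : (1:ℝ) ≤ Y := by exact_mod_cast hY1
  set L := Real.log T with hL
  have hL1 : 1 ≤ L := by
    rw [hL, Real.le_log_iff_exp_le hTp]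
    have := Real.exp_one_lt_d9
    linarith
  have hYS : (Y : ℝ) ^ S ≤ 2 ^ S * T ^ (1 / 1000 : ℝ) := by
    calc (Y : ℝ) ^ S ≤ (2 * T ^ δ) ^ S := by gcongr
      _ = 2 ^ S * T ^ (δ * S) := by
          rw [mul_pow, ← Real.rpow_natCast (T ^ δ) S, ← Real.rpow_mul hTp.le]
      _ ≤ _ := by
          have := Real.rpow_le_rpow_of_exponent_le hT1' hδS
          gcongr
  have htau : ∀ q ∈ QQ (fun _ : ι => Y), ∀ l, om (re ψ) q l ≠ 0 →
      |Real.pi / om (re ψ) q l| ≤ 4 * (2 ^ S * T ^ (1 / 1000 : ℝ)) := by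
    intro q hq l hom
    have h1 := om_low ψ hY1 hq hom
    have h2 : 0 < (Y : ℝ) ^ S := by positivity
    rw [abs_div, abs_of_pos Real.pi_pos, div_eq_mul_inv]
    have h3 : |om (re ψ) q l|⁻¹ ≤ (Y : ℝ) ^ S := by
      rw [inv_le_comm₀ (abs_pos.2 hom) h2]
      exact h1
    have h4 := Real.pi_lt_four
    calc Real.pi * |om (re ψ) q l|⁻¹ ≤ 4 * (Y : ℝ) ^ S := by gcongr
      _ ≤ _ := by gcongr
  have hbig : 4 * (4 * (2 ^ S * T ^ (1 / 1000 : ℝ))) ≤ T := by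
    have h1 := hlp1 T t3
    rw [pow_zero, mul_one] at h1
    calc 4 * (4 * (2 ^ S * T ^ (1 / 1000 : ℝ))) = (16 * 2 ^ S) * T ^ (1 / 1000 : ℝ) := by ring
      _ ≤ T ^ (1 / 4 : ℝ) * T ^ (1 / 1000 : ℝ) := by gcongr
      _ = T ^ (1 / 4 + 1 / 1000 : ℝ) := by rw [← Real.rpow_add hTp]
      _ ≤ T ^ (1 : ℝ) := Real.rpow_le_rpow_of_exponent_le hT1' (by norm_num)
      _ = T := Real.rpow_one T
  have e1 : ∫ x in box d 0 T, ∏ j, gY Y (re ψ j ⬝ᵥ x) = ∑ q ∈ QQ (fun _ : ι => Y),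
      ((wtp q : ℝ) : ℂ) * ∫ x in box d 0 T, (FL (re ψ) q x : ℂ) * EE (re ψ) q x := by
    have hint : ∀ q : ι → ℕ × ℕ, IntegrableOn (fun x => ((wtp q : ℝ) : ℂ) *
        ((FL (re ψ) q x : ℂ) * EE (re ψ) q x)) (box d 0 T) := by
      intro q
      have c1 := FL_cont (re ψ) q
      have c2 := EE_cont (re ψ) q
      have c3 : Continuous fun x => ((wtp q : ℝ) : ℂ) * ((FL (re ψ) q x : ℂ) * EE (re ψ) q x) := by fun_prop
      exact c3.continuousOn.integrableOn_compact isCompact_Icc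
    simp_rw [← integral_const_mul]
    rw [← integral_finsetSum _ (fun q _ => hint q)]
    congr 1
    ext x
    rw [expandL]
    refine Finset.sum_congr rfl fun q _ => ?_
    push_cast
    ring
  have e2 : ((∑ q ∈ DL ψ Y, wtp q * ∫ x in box d 0 T, FL (re ψ) q x : ℝ) : ℂ) =
      ∑ q ∈ DL ψ Y, ((wtp q : ℝ) : ℂ) * ∫ x in box d 0 T, (FL (re ψ) q x : ℂ) * EE (re ψ) q x := by
    push_cast
    refine Finset.sum_congr rfl fun q hq => ?_
    congr 1
    rw [← integral_complex_ofReal]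
    congr 1
    ext x
    rw [EE_diag (Finset.mem_filter.1 hq).2, mul_one]
  rw [e1, e2, ← Finset.sum_filter_add_sum_filter_not (QQ (fun _ : ι => Y))
    (fun q => ∀ l, om (re ψ) q l = 0)]
  have e3 : (QQ (fun _ : ι => Y)).filter (fun q => ∀ l, om (re ψ) q l = 0) = DL ψ Y := by
    unfold DL
    rfl
  rw [e3, add_sub_cancel_left]
  have hTd : 0 ≤ T ^ d / T := by positivity
  have hterm : ∀ q ∈ (QQ (fun _ : ι => Y)).filter (fun q => ¬ ∀ l, om (re ψ) q l = 0),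
      ‖((wtp q : ℝ) : ℂ) * ∫ x in box d 0 T, (FL (re ψ) q x : ℂ) * EE (re ψ) q x‖ ≤
      C * (4 * (2 ^ S * T ^ (1 / 1000 : ℝ))) * (T ^ d / T) * L ^ (m + 1) := by
    intro q hq
    obtain ⟨hq1, hq2⟩ := Finset.mem_filter.1 hq
    push Not at hq2
    obtain ⟨l, hl⟩ := hq2
    have h1 := htau q hq1 l hl
    have h2 := hoff T t1 Y (by linarith) q hq1 l hl (by linarith)
    rw [norm_mul, Complex.norm_real, Real.norm_of_nonneg (wtp_nonneg q)]
    calc wtp q * ‖∫ x in box d 0 T, (FL (re ψ) q x : ℂ) * EE (re ψ) q x‖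
        ≤ 1 * ‖∫ x in box d 0 T, (FL (re ψ) q x : ℂ) * EE (re ψ) q x‖ :=
          mul_le_mul_of_nonneg_right (wtp_le_one hq1) (norm_nonneg _)
      _ ≤ C * |Real.pi / om (re ψ) q l| * (T ^ d / T) * L ^ (m + 1) := by rw [one_mul]; exact h2
      _ ≤ _ := by gcongr
  refine (norm_sum_le _ _).trans ((Finset.sum_le_sum hterm).trans ?_)
  rw [Finset.sum_const, nsmul_eq_mul]
  have hcard : (((QQ (fun _ : ι => Y)).filter (fun q => ¬ ∀ l, om (re ψ) q l = 0)).card : ℝ) ≤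
      2 ^ (2 * m) * T ^ (2 / 1000 : ℝ) := by
    have h1 : (((QQ (fun _ : ι => Y)).filter (fun q => ¬ ∀ l, om (re ψ) q l = 0)).card : ℝ) ≤
        ((QQ (fun _ : ι => Y)).card : ℝ) := by exact_mod_cast Finset.card_filter_le _ _
    refine h1.trans ((QQ_card _).trans ?_)
    rw [Finset.prod_const, Finset.card_univ, ← hm]
    calc ((Y : ℝ) ^ 2) ^ m ≤ ((2 * T ^ δ) ^ 2) ^ m := by gcongr
      _ = 2 ^ (2 * m) * (T ^ δ) ^ (2 * m) := by rw [← pow_mul, mul_pow]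
      _ = 2 ^ (2 * m) * T ^ (δ * m * 2) := by
          rw [← Real.rpow_natCast (T ^ δ) (2 * m), ← Real.rpow_mul hTp.le]
          congr 2
          push_cast
          ring
      _ ≤ _ := by
          have := Real.rpow_le_rpow_of_exponent_le hT1' (show δ * m * 2 ≤ 2 / 1000 by linarith)
          gcongr
  have h1 := hlp2 T t4
  calc (((QQ (fun _ : ι => Y)).filter (fun q => ¬ ∀ l, om (re ψ) q l = 0)).card : ℝ) *
        (C * (4 * (2 ^ S * T ^ (1 / 1000 : ℝ))) * (T ^ d / T) * L ^ (m + 1))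
      ≤ (2 ^ (2 * m) * T ^ (2 / 1000 : ℝ)) *
        (C * (4 * (2 ^ S * T ^ (1 / 1000 : ℝ))) * (T ^ d / T) * L ^ (m + 1)) := by gcongr
    _ = (2 ^ (2 * m) * (C * (4 * 2 ^ S)) * L ^ (m + 1)) * (T ^ d / T) *
        (T ^ (2 / 1000 : ℝ) * T ^ (1 / 1000 : ℝ)) := by ring
    _ ≤ T ^ (1 / 4 : ℝ) * (T ^ d / T) * (T ^ (2 / 1000 : ℝ) * T ^ (1 / 1000 : ℝ)) := by gcongr
    _ = T ^ d * (T ^ (1 / 4 : ℝ) * T ^ (-1 : ℝ) * (T ^ (2 / 1000 : ℝ) * T ^ (1 / 1000 : ℝ))) := by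
        rw [Real.rpow_neg_one]
        ring
    _ = T ^ d * T ^ (1 / 4 + -1 + (2 / 1000 + 1 / 1000) : ℝ) := by
        rw [← Real.rpow_add hTp, ← Real.rpow_add hTp, ← Real.rpow_add hTp]
    _ ≤ _ := by
        have := Real.rpow_le_rpow_of_exponent_le hT1'
          (show (1 / 4 + -1 + (2 / 1000 + 1 / 1000) : ℝ) ≤ -(1 / 2) by norm_num)
        gcongr

end

end Pool.Agent.Y752.LP
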