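import Pool.Agent.Y752.LP.Std

set_option autoImplicit false

/-! Two examples. -/

namespace Pool.Agent.Y752.LP

open MeasureTheory Set Matrix Filter Asymptotics
open Pool.Agent.Y752.KP

noncomputable section

/-- coprime pairs -/
def Cop : Set (ℕ × ℕ) := {p | 0 < p.1 ∧ 0 < p.2 ∧ p.1.Coprime p.2}

/-- dilation of coprime pairs -/
def dil (x : ℕ × Cop) : ℕ × ℕ := ((x.1 + 1) * x.2.1.1, (x.1 + 1) * x.2.1.2)

lemma dil_gcd (x : ℕ × Cop) : (dil x).1.gcd (dil x).2 = x.1 + 1 := by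
  unfold dil
  rw [Nat.gcd_mul_left, x.2.2.2.2, mul_one]

lemma dil_inj : Function.Injective dil := by
  intro x y h
  have h1 : x.1 + 1 = y.1 + 1 := by rw [← dil_gcd x, ← dil_gcd y, h]
  have h2 : x.1 = y.1 := by omega
  obtain ⟨a, b⟩ := x
  obtain ⟨a', b'⟩ := y
  simp only at h2
  subst h2
  unfold dil at h
  simp only [Prod.mk.injEq, mul_eq_mul_left_iff, Nat.add_eq_zero_iff, one_ne_zero, and_false, or_false] at h
  have : b = b' := Subtype.ext (Prod.ext h.1 h.2)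
  rw [this]

lemma dil_range {p : ℕ × ℕ} (h1 : p.1 ≠ 0) (h2 : p.2 ≠ 0) : p ∈ range dil := by
  have hg : 0 < p.1.gcd p.2 := Nat.gcd_pos_of_pos_left _ (Nat.pos_of_ne_zero h1)
  refine ⟨(p.1.gcd p.2 - 1, ⟨(p.1 / p.1.gcd p.2, p.2 / p.1.gcd p.2), ?_, ?_, ?_⟩), ?_⟩
  · exact Nat.div_pos (Nat.gcd_le_left _ (Nat.pos_of_ne_zero h1)) hg
  · exact Nat.div_pos (Nat.gcd_le_right _ (Nat.pos_of_ne_zero h2)) hg
  · exact Nat.coprime_div_gcd_div_gcd hg
  · unfold dil
    have h3 : p.1.gcd p.2 - 1 + 1 = p.1.gcd p.2 := by omega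
    simp only [h3]
    rw [Nat.mul_div_cancel' (Nat.gcd_dvd_left _ _), Nat.mul_div_cancel' (Nat.gcd_dvd_right _ _)]

theorem cop_sum : ∑' p : Cop, (((p.1.1 : ℝ) * p.1.2) ^ 2)⁻¹ = 5 / 2 := by
  set f : ℕ × ℕ → ℝ := fun p => (((p.1 : ℝ) * p.2) ^ 2)⁻¹ with hf
  have hz := hasSum_zeta_two
  have hz2 : Summable fun x : ℕ × ℕ => (1 / (x.1 : ℝ) ^ 2) * (1 / (x.2 : ℝ) ^ 2) :=
    hz.summable.mul_of_nonneg hz.summable (fun _ => by positivity) fun _ => by positivity
  have hfe : f = fun x : ℕ × ℕ => (1 / (x.1 : ℝ) ^ 2) * (1 / (x.2 : ℝ) ^ 2) := by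
    ext x
    rw [hf]
    simp only
    rw [mul_pow, mul_inv, one_div, one_div]
  have h1 : HasSum f (Real.pi ^ 2 / 6 * (Real.pi ^ 2 / 6)) := by
    rw [hfe]
    exact hz.mul hz hz2
  have h2 : HasSum (f ∘ dil) (Real.pi ^ 2 / 6 * (Real.pi ^ 2 / 6)) := by
    refine (dil_inj.hasSum_iff fun p hp => ?_).2 h1
    rw [hf]
    simp only
    by_cases ha : p.1 = 0
    · simp [ha]
    by_cases hb : p.2 = 0
    · simp [hb]
    exact absurd (dil_range ha hb) hp
  have h4 : HasSum (fun n : ℕ => 1 / ((n + 1 : ℕ) : ℝ) ^ 4) (Real.pi ^ 4 / 90) := by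
    have h := (hasSum_nat_add_iff' (f := fun n : ℕ => 1 / (n : ℝ) ^ 4) 1).2 hasSum_zeta_four
    simpa using h
  have h5 : Summable fun p : Cop => (((p.1.1 : ℝ) * p.1.2) ^ 2)⁻¹ := h1.summable.subtype Cop
  have h6 : f ∘ dil = fun x : ℕ × Cop => (1 / ((x.1 + 1 : ℕ) : ℝ) ^ 4) * (((x.2.1.1 : ℝ) * x.2.1.2) ^ 2)⁻¹ := by
    ext x
    simp only [Function.comp, hf, dil]
    push_cast
    rw [one_div, ← mul_inv]
    congr 1
    ring
  have h7 : Summable fun x : ℕ × Cop => (1 / ((x.1 + 1 : ℕ) : ℝ) ^ 4) * (((x.2.1.1 : ℝ) * x.2.1.2) ^ 2)⁻¹ :=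
    h4.summable.mul_of_nonneg h5 (fun _ => by positivity) fun _ => by positivity
  have h8 := h4.mul h5.hasSum h7
  rw [h6] at h2
  have h9 := h2.unique h8
  have hpi : (Real.pi : ℝ) ^ 4 ≠ 0 := by positivity
  have h10 : Real.pi ^ 4 * (1 / 36 - 1 / 90 * ∑' p : Cop, (((p.1.1 : ℝ) * p.1.2) ^ 2)⁻¹) = 0 := by
    linear_combination h9
  rcases mul_eq_zero.1 h10 with h11 | h11
  · exact absurd h11 hpi
  · linarith

variable {m d : ℕ}

/-- the solution attached to a coprime pair -/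
def emb (c : Fin m → ℤ) (p : ℕ × ℕ) (i : Fin m) : ℕ × ℕ :=
  if 0 ≤ c i then (p.1 ^ (c i).natAbs, p.2 ^ (c i).natAbs) else (p.2 ^ (c i).natAbs, p.1 ^ (c i).natAbs)

lemma emb_pos {c : Fin m → ℤ} {p : ℕ × ℕ} (hp : p ∈ Cop) (i : Fin m) :
    0 < (emb c p i).1 ∧ 0 < (emb c p i).2 ∧ (emb c p i).1.Coprime (emb c p i).2 := by
  obtain ⟨a, b, h⟩ := hp
  unfold emb
  split_ifs
  · exact ⟨pow_pos a _, pow_pos b _, h.pow _ _⟩
  · exact ⟨pow_pos b _, pow_pos a _, h.symm.pow _ _⟩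

lemma emb_fr {c : Fin m → ℤ} {p : ℕ × ℕ} (i : Fin m) : fr (emb c p i) = c i * fr p := by
  unfold emb fr
  split_ifs with h0
  · have : ((c i).natAbs : ℝ) = (c i : ℝ) := by rw [Nat.cast_natAbs, abs_of_nonneg h0]
    push_cast
    rw [Real.log_pow, Real.log_pow, this]
    ring
  · have : ((c i).natAbs : ℝ) = -(c i : ℝ) := by
      rw [Nat.cast_natAbs, abs_of_neg (not_le.1 h0)]
      push_cast
      ring
    push_cast
    rw [Real.log_pow, Real.log_pow, this]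
    ring

lemma fr_inj {p q : ℕ × ℕ} (hp : p ∈ Cop) (hq : q ∈ Cop) (h : fr p = fr q) : p = q := by
  obtain ⟨a, b, h1⟩ := hp
  obtain ⟨a', b', h2⟩ := hq
  have ar : (0:ℝ) < p.1 := by exact_mod_cast a
  have br : (0:ℝ) < p.2 := by exact_mod_cast b
  have ar' : (0:ℝ) < q.1 := by exact_mod_cast a'
  have br' : (0:ℝ) < q.2 := by exact_mod_cast b'
  unfold fr at h
  have e : Real.log ((p.1 : ℝ) * q.2) = Real.log ((q.1 : ℝ) * p.2) := by
    rw [Real.log_mul ar.ne' br'.ne', Real.log_mul ar'.ne' br.ne']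
    linarith
  have e1 := Real.log_injOn_pos (mul_pos ar br') (mul_pos ar' br) e
  have e2 : p.1 * q.2 = q.1 * p.2 := by exact_mod_cast e1
  have d1 : p.1 ∣ q.1 := h1.dvd_of_dvd_mul_right (Dvd.intro _ e2)
  have d2 : q.1 ∣ p.1 := h2.dvd_of_dvd_mul_right (Dvd.intro _ e2.symm)
  have e3 : p.1 = q.1 := Nat.dvd_antisymm d1 d2
  rw [e3] at e2
  exact Prod.ext e3 (Nat.eq_of_mul_eq_mul_left a' e2).symm

lemma emb_wtp {c : Fin m → ℤ} (hs : ∑ i, (c i).natAbs = 4) (p : ℕ × ℕ) :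
    wtp (emb c p) = (((p.1 : ℝ) * p.2) ^ 2)⁻¹ := by
  unfold wtp wt
  have h : ∀ i, (Real.sqrt (((emb c p i).1 : ℝ) * (emb c p i).2))⁻¹ =
      (Real.sqrt ((p.1 : ℝ) * p.2))⁻¹ ^ (c i).natAbs := by
    intro i
    have h1 : ((emb c p i).1 : ℝ) * (emb c p i).2 = ((p.1 : ℝ) * p.2) ^ (c i).natAbs := by
      unfold emb
      split_ifs
      · push_cast
        rw [mul_pow]
      · push_cast
        rw [mul_pow, mul_comm]
    have h2 : Real.sqrt (((p.1 : ℝ) * p.2) ^ (c i).natAbs) = Real.sqrt ((p.1 : ℝ) * p.2) ^ (c i).natAbs := by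
      rw [Real.sqrt_eq_iff_eq_sq (by positivity) (by positivity), ← pow_mul, mul_comm _ 2, pow_mul,
        Real.sq_sqrt (by positivity)]
    rw [h1, inv_pow, h2]
  rw [Finset.prod_congr rfl fun i _ => h i, Finset.prod_pow_eq_pow_sum, hs, inv_pow]
  congr 1
  rw [show (4:ℕ) = 2 * 2 by norm_num, pow_mul, Real.sq_sqrt (by positivity)]

theorem lead_one {ψ : Fin m → Fin d → ℤ} {c : Fin m → ℤ} {i0 : Fin m} (hc0 : c i0 = 1)
    (hs : ∑ i, (c i).natAbs = 4) (hrel : ∀ l, ∑ i, (c i : ℝ) * ψ i l = 0)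
    (hker : ∀ v : Fin m → ℝ, (∀ l, ∑ i, v i * ψ i l = 0) → ∀ i, v i = c i * v i0) :
    ∑' q : rels ψ, ∏ i, (Real.sqrt ((q.1 i).1 * (q.1 i).2))⁻¹ = 5 / 2 := by
  rw [← cop_sum, ← rels_eq]
  change ∑' q : Rl ψ, wtp q.1 = _
  have h1 : ∀ p : Cop, emb c p.1 ∈ Rl ψ := by
    intro p
    refine ⟨emb_pos p.2, fun l => ?_⟩
    unfold om re
    have e : ∀ i, fr (emb c p.1 i) * (ψ i l : ℝ) = fr p.1 * ((c i : ℝ) * ψ i l) := by
      intro i
      rw [emb_fr]
      ring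
    rw [Finset.sum_congr rfl fun i _ => e i, ← Finset.mul_sum, hrel, mul_zero]
  have hb : Function.Bijective fun p : Cop => (⟨emb c p.1, h1 p⟩ : Rl ψ) := by
    constructor
    · intro p q h
      have h2 : emb c p.1 i0 = emb c q.1 i0 := congrFun (congrArg Subtype.val h) i0
      have h3 : fr p.1 = fr q.1 := by
        have := congrArg fr h2
        rw [emb_fr, emb_fr, hc0] at this
        push_cast at this
        linarith
      exact Subtype.ext (fr_inj p.2 q.2 h3)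
    · intro q
      have hq0 : q.1 i0 ∈ Cop := q.2.1 i0
      refine ⟨⟨q.1 i0, hq0⟩, Subtype.ext (funext fun i => ?_)⟩
      refine fr_inj (emb_pos hq0 i) (q.2.1 i) ?_
      rw [emb_fr]
      exact (hker (fun j => fr (q.1 j)) (fun l => q.2.2 l) i).symm
  rw [← (Equiv.ofBijective _ hb).tsum_eq]
  refine tsum_congr fun p => ?_
  exact emb_wtp hs p.1

theorem tend (ψ : Fin m → Fin d → ℤ) (hψ : ∀ i, ∃ A B : Finset (Fin m), (∀ j, j = i ∨ j ∈ A ∨ j ∈ B) ∧
      LinearIndepOn ℝ (fun j l => (ψ j l : ℝ)) (insert i A : Set (Fin m)) ∧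
      LinearIndepOn ℝ (fun j l => (ψ j l : ℝ)) (insert i B : Set (Fin m))) :
    Tendsto (fun T : ℝ => (∫ x in Icc (0 : Fin d → ℝ) (fun _ => T),
            ∏ i, ‖riemannZeta (1 / 2 + Complex.I * ∑ l, (ψ i l : ℂ) * (x l : ℂ))‖ ^ 2) /
          (T ^ d * Real.log T ^ m)) atTop
      (nhds (∑' q : rels ψ, ∏ i, (Real.sqrt ((q.1 i).1 * (q.1 i).2))⁻¹)) := by
  obtain ⟨P, hdeg, _, hlead, _, κ, hκ, hO⟩ := std ψ hψ
  rw [← hlead]
  set F : ℝ → ℝ := fun T => ∫ x in Icc (0 : Fin d → ℝ) (fun _ => T),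
            ∏ i, ‖riemannZeta (1 / 2 + Complex.I * ∑ l, (ψ i l : ℂ) * (x l : ℂ))‖ ^ 2 with hF
  have h1 : Tendsto (fun T : ℝ => P.eval (Real.log T) / Real.log T ^ m) atTop (nhds P.leadingCoeff) := by
    have h := Polynomial.isEquivalent_atTop_lead P
    rw [hdeg] at h
    have h2 : Tendsto (fun X : ℝ => P.eval X / X ^ m) atTop (nhds P.leadingCoeff) := by
      by_cases h0 : P.leadingCoeff = 0
      · rw [h0]
        have : P = 0 := Polynomial.leadingCoeff_eq_zero.1 h0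
        simp [this]
      · have h3 : ∀ᶠ X : ℝ in atTop, P.leadingCoeff * X ^ m ≠ 0 := by
          filter_upwards [eventually_gt_atTop 0] with X hX
          positivity
        have h4 := (isEquivalent_iff_tendsto_one h3).1 h
        have h5 := h4.const_mul P.leadingCoeff
        rw [mul_one] at h5
        refine h5.congr' ?_
        filter_upwards [eventually_gt_atTop 0] with X hX
        simp only [Pi.div_apply]
        field_simp
    exact h2.comp Real.tendsto_log_atTop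
  have h2 : Tendsto (fun T : ℝ => (F T - T ^ d * P.eval (Real.log T)) / (T ^ d * Real.log T ^ m)) atTop (nhds 0) := by
    have h3 : (fun T : ℝ => (F T - T ^ d * P.eval (Real.log T)) / (T ^ d * Real.log T ^ m)) =O[atTop]
        fun T : ℝ => T ^ (-κ) := by
      obtain ⟨C, hC⟩ := hO.bound
      refine IsBigO.of_bound C ?_
      filter_upwards [hC, eventually_ge_atTop (Real.exp 1)] with T hT hTe
      have hTp : 0 < T := lt_of_lt_of_le (Real.exp_pos 1) hTe
      have hl : 1 ≤ Real.log T := by rwa [Real.le_log_iff_exp_le hTp]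
      have hl2 : 1 ≤ Real.log T ^ m := one_le_pow₀ hl
      rw [Real.norm_of_nonneg (show 0 ≤ T ^ ((d : ℝ) - κ) by positivity)] at hT
      rw [norm_div, Real.norm_of_nonneg (show 0 ≤ T ^ (-κ) by positivity),
        Real.norm_of_nonneg (show 0 ≤ T ^ d * Real.log T ^ m by positivity), div_le_iff₀ (by positivity)]
      refine hT.trans ?_
      have hCn : 0 ≤ C * T ^ ((d : ℝ) - κ) := (norm_nonneg _).trans hT
      have e : C * T ^ (-κ) * (T ^ d * Real.log T ^ m) = C * T ^ ((d : ℝ) - κ) * Real.log T ^ m := by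
        rw [sub_eq_add_neg, Real.rpow_add hTp, Real.rpow_natCast]
        ring
      rw [e]
      exact le_mul_of_one_le_right hCn hl2
    exact h3.trans_tendsto (tendsto_rpow_neg_atTop hκ)
  have h3 := h1.add h2
  rw [add_zero] at h3
  refine h3.congr' ?_
  filter_upwards [eventually_ge_atTop (Real.exp 1)] with T hTe
  have hTp : 0 < T := lt_of_lt_of_le (Real.exp_pos 1) hTe
  have hl : 1 ≤ Real.log T := by rwa [Real.le_log_iff_exp_le hTp]
  have hl0 : Real.log T ^ m ≠ 0 := by positivity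
  have hT0 : T ^ d ≠ 0 := by positivity
  change _ = F T / _
  field_simp
  ring

/-- three terms of an arithmetic progression -/
theorem ap3 : Tendsto (fun T : ℝ => (∫ x in Icc (0 : Fin 2 → ℝ) (fun _ => T),
      ‖riemannZeta (1 / 2 + Complex.I * x 0)‖ ^ 2 *
      ‖riemannZeta (1 / 2 + Complex.I * (x 0 + x 1))‖ ^ 2 *
      ‖riemannZeta (1 / 2 + Complex.I * (x 0 + 2 * x 1))‖ ^ 2) /
      (T ^ 2 * Real.log T ^ 3)) atTop (nhds (5 / 2)) := by
  set ψ : Fin 3 → Fin 2 → ℤ := ![![1, 0], ![1, 1], ![1, 2]] with hψ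
  have hL : ∀ i j : Fin 3, i ≠ j → LinearIndepOn ℝ (fun j l => (ψ j l : ℝ)) ({i, j} : Set (Fin 3)) := by
    intro i j hij
    rw [LinearIndepOn.pair_iff _ hij]
    intro s t h
    have h0 := congrFun h 0
    have h1 := congrFun h 1
    fin_cases i <;> fin_cases j <;> simp [hψ] at h0 h1 hij ⊢ <;> constructor <;> linarith
  have hC : ∀ i, ∃ A B : Finset (Fin 3), (∀ j, j = i ∨ j ∈ A ∨ j ∈ B) ∧
      LinearIndepOn ℝ (fun j l => (ψ j l : ℝ)) (insert i A : Set (Fin 3)) ∧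
      LinearIndepOn ℝ (fun j l => (ψ j l : ℝ)) (insert i B : Set (Fin 3)) := by
    intro i
    refine ⟨{i + 1}, {i + 2}, by decide +revert, ?_, ?_⟩
    · rw [Finset.coe_singleton]
      exact hL i (i + 1) (by decide +revert)
    · rw [Finset.coe_singleton]
      exact hL i (i + 2) (by decide +revert)
  have h := tend ψ hC
  rw [lead_one (ψ := ψ) (c := ![1, -2, 1]) (i0 := 0) rfl (by decide) (fun l => by
    fin_cases l <;> simp [hψ, Fin.sum_univ_three] <;> norm_num) (fun v hv i => by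
    have h0 := hv 0
    have h1 := hv 1
    simp [hψ, Fin.sum_univ_three] at h0 h1
    fin_cases i <;> simp <;> linarith)] at h
  refine h.congr fun T => ?_
  congr 1
  refine setIntegral_congr_fun measurableSet_Icc fun x _ => ?_
  simp [hψ, Fin.prod_univ_three, Fin.sum_univ_two]

lemma indep_of_ker {ψ : Fin m → Fin d → ℤ} {c : Fin m → ℤ} {i0 : Fin m}
    (hker : ∀ v : Fin m → ℝ, (∀ l, ∑ i, v i * ψ i l = 0) → ∀ i, v i = c i * v i0)
    (s : Finset (Fin m)) (i1 : Fin m) (hi : i1 ∉ s) (hc : c i1 ≠ 0) :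
    LinearIndepOn ℝ (fun j l => (ψ j l : ℝ)) (s : Set (Fin m)) := by
  rw [linearIndepOn_finset_iff]
  intro f hf i his
  set g : Fin m → ℝ := fun j => if j ∈ s then f j else 0 with hg
  have h1 : ∀ l, ∑ j, g j * ψ j l = 0 := by
    intro l
    have h2 := congrFun hf l
    simp only [Finset.sum_apply, Pi.smul_apply, smul_eq_mul, Pi.zero_apply] at h2
    rw [← h2]
    simp only [hg, ite_mul, zero_mul, Finset.sum_ite_mem, Finset.univ_inter]
  have h3 := hker g h1 i1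
  have h4 : g i1 = 0 := by simp [hg, hi]
  have hcr : (c i1 : ℝ) ≠ 0 := by exact_mod_cast hc
  have h5 : g i0 = 0 := by
    rw [h4] at h3
    exact (mul_eq_zero.1 h3.symm).resolve_left hcr
  have h6 := hker g h1 i
  rw [h5, mul_zero] at h6
  simpa [hg, his] using h6

/-- parallelograms -/
theorem par4 : Tendsto (fun T : ℝ => (∫ x in Icc (0 : Fin 3 → ℝ) (fun _ => T),
      ‖riemannZeta (1 / 2 + Complex.I * x 0)‖ ^ 2 *
      ‖riemannZeta (1 / 2 + Complex.I * (x 0 + x 1))‖ ^ 2 *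
      ‖riemannZeta (1 / 2 + Complex.I * (x 0 + x 2))‖ ^ 2 *
      ‖riemannZeta (1 / 2 + Complex.I * (x 0 + x 1 + x 2))‖ ^ 2) /
      (T ^ 3 * Real.log T ^ 4)) atTop (nhds (5 / 2)) := by
  set ψ : Fin 4 → Fin 3 → ℤ := ![![1, 0, 0], ![1, 1, 0], ![1, 0, 1], ![1, 1, 1]] with hψ
  have hker : ∀ v : Fin 4 → ℝ, (∀ l, ∑ i, v i * ψ i l = 0) → ∀ i, v i = (![1, -1, -1, 1] : Fin 4 → ℤ) i * v 0 := by
    intro v hv i
    have h0 := hv 0
    have h1 := hv 1
    have h2 := hv 2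
    simp [hψ, Fin.sum_univ_four] at h0 h1 h2
    fin_cases i <;> simp <;> linarith
  have hC : ∀ i, ∃ A B : Finset (Fin 4), (∀ j, j = i ∨ j ∈ A ∨ j ∈ B) ∧
      LinearIndepOn ℝ (fun j l => (ψ j l : ℝ)) (insert i A : Set (Fin 4)) ∧
      LinearIndepOn ℝ (fun j l => (ψ j l : ℝ)) (insert i B : Set (Fin 4)) := by
    intro i
    refine ⟨{i + 1, i + 2}, {i + 1, i + 3}, by decide +revert, ?_, ?_⟩
    · rw [← Finset.coe_insert]
      exact indep_of_ker hker _ (i + 3) (by decide +revert) (by fin_cases i <;> simp)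
    · rw [← Finset.coe_insert]
      exact indep_of_ker hker _ (i + 2) (by decide +revert) (by fin_cases i <;> simp)
  have h := tend ψ hC
  rw [lead_one (ψ := ψ) (c := ![1, -1, -1, 1]) (i0 := 0) rfl (by decide) (fun l => by
    fin_cases l <;> simp [hψ, Fin.sum_univ_four]) hker] at h
  refine h.congr fun T => ?_
  congr 1
  refine setIntegral_congr_fun measurableSet_Icc fun x _ => ?_
  simp [hψ, Fin.prod_univ_four, Fin.sum_univ_three]

end

end Pool.Agent.Y752.LP
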