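import Pool.Agent.Y752.LP.E3

set_option autoImplicit false

/-! Summation over the solutions of the multiplicative equations. -/

namespace Pool.Agent.Y752.LP

open Set Matrix
open Pool.Agent.Y752.KP

noncomputable section

/-- every number all of whose prime factors occur to the third power is `a ^ 3 * b ^ 4 * c ^ 5` -/
lemma cube_full {N : ℕ} (hN : N ≠ 0) (h : ∀ p : ℕ, p.Prime → p ∣ N → p ^ 3 ∣ N) :
    ∃ a b c : ℕ, 0 < a ∧ 0 < b ∧ 0 < c ∧ N = a ^ 3 * b ^ 4 * c ^ 5 := by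
  set xx : ℕ → ℕ := fun e => if e % 3 = 0 then e / 3 else if e % 3 = 1 then (e - 4) / 3 else (e - 5) / 3
    with hxx
  set yy : ℕ → ℕ := fun e => if e % 3 = 1 then 1 else 0 with hyy
  set zz : ℕ → ℕ := fun e => if e % 3 = 2 then 1 else 0 with hzz
  have hsum : ∀ e : ℕ, 3 ≤ e → 3 * xx e + 4 * yy e + 5 * zz e = e := by
    intro e he
    simp only [hxx, hyy, hzz]
    split_ifs <;> omega
  refine ⟨∏ p ∈ N.primeFactors, p ^ xx (N.factorization p), ∏ p ∈ N.primeFactors, p ^ yy (N.factorization p),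
    ∏ p ∈ N.primeFactors, p ^ zz (N.factorization p), ?_, ?_, ?_, ?_⟩
  · exact Finset.prod_pos fun p hp => pow_pos (Nat.prime_of_mem_primeFactors hp).pos _
  · exact Finset.prod_pos fun p hp => pow_pos (Nat.prime_of_mem_primeFactors hp).pos _
  · exact Finset.prod_pos fun p hp => pow_pos (Nat.prime_of_mem_primeFactors hp).pos _
  · rw [← Finset.prod_pow, ← Finset.prod_pow, ← Finset.prod_pow, ← Finset.prod_mul_distrib,
      ← Finset.prod_mul_distrib]
    conv_lhs => rw [← Nat.prod_factorization_pow_eq_self hN]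
    rw [Finsupp.prod, Nat.support_factorization]
    refine Finset.prod_congr rfl fun p hp => ?_
    have hpp := Nat.prime_of_mem_primeFactors hp
    have h3 : 3 ≤ N.factorization p := by
      rw [← hpp.pow_dvd_iff_le_factorization hN]
      exact h p hpp (Nat.dvd_of_mem_primeFactors hp)
    rw [← pow_mul, ← pow_mul, ← pow_mul, ← pow_add, ← pow_add]
    congr 1
    have := hsum _ h3
    omega

lemma cube_sum : ∃ C : ℝ, 0 ≤ C ∧ ∀ t : Finset ℕ, (∀ N ∈ t, N ≠ 0 ∧ ∀ p : ℕ, p.Prime → p ∣ N → p ^ 3 ∣ N) →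
    ∑ N ∈ t, (N : ℝ) ^ (-(2 / 5) : ℝ) ≤ C := by
  have s1 : Summable fun a : ℕ => (a : ℝ) ^ (-(6 / 5) : ℝ) := Real.summable_nat_rpow.2 (by norm_num)
  have s2 : Summable fun a : ℕ => (a : ℝ) ^ (-(8 / 5) : ℝ) := Real.summable_nat_rpow.2 (by norm_num)
  have s3 : Summable fun a : ℕ => (a : ℝ) ^ (-(2) : ℝ) := Real.summable_nat_rpow.2 (by norm_num)
  have s12 : Summable fun x : ℕ × ℕ => (x.1 : ℝ) ^ (-(6 / 5) : ℝ) * (x.2 : ℝ) ^ (-(8 / 5) : ℝ) :=
    s1.mul_of_nonneg s2 (fun _ => by positivity) (fun _ => by positivity)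
  have s123 : Summable fun x : (ℕ × ℕ) × ℕ => ((x.1.1 : ℝ) ^ (-(6 / 5) : ℝ) * (x.1.2 : ℝ) ^ (-(8 / 5) : ℝ)) *
      (x.2 : ℝ) ^ (-(2) : ℝ) :=
    s12.mul_of_nonneg s3 (fun _ => by positivity) (fun _ => by positivity)
  refine ⟨∑' x : (ℕ × ℕ) × ℕ, ((x.1.1 : ℝ) ^ (-(6 / 5) : ℝ) * (x.1.2 : ℝ) ^ (-(8 / 5) : ℝ)) *
      (x.2 : ℝ) ^ (-(2) : ℝ), tsum_nonneg fun _ => by positivity, fun t ht => ?_⟩
  classical
  have hex : ∀ N : ℕ, ∃ x : (ℕ × ℕ) × ℕ, N ∈ t → (0 < x.1.1 ∧ 0 < x.1.2 ∧ 0 < x.2 ∧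
      N = x.1.1 ^ 3 * x.1.2 ^ 4 * x.2 ^ 5) := by
    intro N
    by_cases hN : N ∈ t
    · obtain ⟨a, b, c, ha, hb, hc, h⟩ := cube_full (ht N hN).1 (ht N hN).2
      exact ⟨((a, b), c), fun _ => ⟨ha, hb, hc, h⟩⟩
    · exact ⟨((0, 0), 0), fun h => absurd h hN⟩
  choose g hg using hex
  have hinj : Set.InjOn g (t : Set ℕ) := by
    intro N hN M hM h
    have h1 := (hg N hN).2.2.2
    have h2 := (hg M hM).2.2.2
    rw [h1, h2, h]
  have hval : ∀ N ∈ t, (N : ℝ) ^ (-(2 / 5) : ℝ) = (((g N).1.1 : ℝ) ^ (-(6 / 5) : ℝ) *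
      ((g N).1.2 : ℝ) ^ (-(8 / 5) : ℝ)) * ((g N).2 : ℝ) ^ (-(2) : ℝ) := by
    intro N hN
    obtain ⟨h1, h2, h3, h4⟩ := hg N hN
    have e1 : (N : ℝ) = ((g N).1.1 : ℝ) ^ 3 * ((g N).1.2 : ℝ) ^ 4 * ((g N).2 : ℝ) ^ 5 := by
      exact_mod_cast h4
    rw [e1, Real.mul_rpow (by positivity) (by positivity), Real.mul_rpow (by positivity) (by positivity),
      ← Real.rpow_natCast _ 3, ← Real.rpow_natCast _ 4, ← Real.rpow_natCast _ 5,
      ← Real.rpow_mul (by positivity), ← Real.rpow_mul (by positivity), ← Real.rpow_mul (by positivity)]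
    norm_num
  rw [Finset.sum_congr rfl hval, ← Finset.sum_image (f := fun x : (ℕ × ℕ) × ℕ =>
    ((x.1.1 : ℝ) ^ (-(6 / 5) : ℝ) * (x.1.2 : ℝ) ^ (-(8 / 5) : ℝ)) * (x.2 : ℝ) ^ (-(2) : ℝ)) hinj]
  exact s123.sum_le_tsum _ fun _ _ => by positivity

variable {ι : Type} [Fintype ι] [DecidableEq ι] {d : ℕ}

/-- the solutions -/
def Rl (ψ : ι → Fin d → ℤ) : Set (ι → ℕ × ℕ) :=
  {q | (∀ j, 0 < (q j).1 ∧ 0 < (q j).2 ∧ (q j).1.Coprime (q j).2) ∧ ∀ l, om (re ψ) q l = 0}

/-- product of the heights -/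
def Nh (q : ι → ℕ × ℕ) : ℕ := ∏ j, (q j).1 * (q j).2

lemma om_nat (ψ : ι → Fin d → ℤ) {q : ι → ℕ × ℕ} (hb : ∀ j, 0 < (q j).1 ∧ 0 < (q j).2) {l : Fin d}
    (h : om (re ψ) q l = 0) :
    ∏ j, (if 0 ≤ ψ j l then (q j).1 else (q j).2) ^ (ψ j l).natAbs =
      ∏ j, (if 0 ≤ ψ j l then (q j).2 else (q j).1) ^ (ψ j l).natAbs := by
  set P : ℕ := ∏ j, (if 0 ≤ ψ j l then (q j).1 else (q j).2) ^ (ψ j l).natAbs with hP
  set Q : ℕ := ∏ j, (if 0 ≤ ψ j l then (q j).2 else (q j).1) ^ (ψ j l).natAbs with hQ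
  have hPpos : 0 < P := by
    rw [hP]
    refine Finset.prod_pos fun j _ => ?_
    obtain ⟨a, b⟩ := hb j
    split_ifs <;> positivity
  have hQpos : 0 < Q := by
    rw [hQ]
    refine Finset.prod_pos fun j _ => ?_
    obtain ⟨a, b⟩ := hb j
    split_ifs <;> positivity
  have hlog : om (re ψ) q l = Real.log P - Real.log Q := by
    rw [hP, hQ]
    push_cast
    rw [Real.log_prod (fun j _ => by
      obtain ⟨a, b⟩ := hb j
      split_ifs <;> positivity), Real.log_prod (fun j _ => by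
      obtain ⟨a, b⟩ := hb j
      split_ifs <;> positivity), ← Finset.sum_sub_distrib]
    unfold om re fr
    refine Finset.sum_congr rfl fun j _ => ?_
    rw [Real.log_pow, Real.log_pow]
    split_ifs with h0
    · have : ((ψ j l).natAbs : ℝ) = (ψ j l : ℝ) := by
        rw [Nat.cast_natAbs, abs_of_nonneg h0]
      rw [this]
      ring
    · have : ((ψ j l).natAbs : ℝ) = -(ψ j l : ℝ) := by
        rw [Nat.cast_natAbs, abs_of_neg (not_le.1 h0)]
        push_cast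
        ring
      rw [this]
      ring
  have h1 : Real.log P = Real.log Q := by linarith
  have h2 := Real.log_injOn_pos (Set.mem_Ioi.2 (by exact_mod_cast hPpos : (0:ℝ) < P))
    (Set.mem_Ioi.2 (by exact_mod_cast hQpos : (0:ℝ) < Q)) h1
  exact_mod_cast h2

lemma val_rel (ψ : ι → Fin d → ℤ) {q : ι → ℕ × ℕ} (hq : q ∈ Rl ψ) (p : ℕ) (l : Fin d) :
    ∑ j, (((q j).1.factorization p : ℤ) - (q j).2.factorization p) * ψ j l = 0 := by
  obtain ⟨hb, hom⟩ := hq
  have h1 := om_nat ψ (fun j => ⟨(hb j).1, (hb j).2.1⟩) (hom l)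
  have h2 := congrArg (fun n => n.factorization p) h1
  rw [Nat.factorization_prod_apply (fun j _ => by
      obtain ⟨a, b, _⟩ := hb j
      split_ifs <;> positivity), Nat.factorization_prod_apply (fun j _ => by
      obtain ⟨a, b, _⟩ := hb j
      split_ifs <;> positivity)] at h2
  have h3 : (∑ j, (((if 0 ≤ ψ j l then (q j).1 else (q j).2) ^ (ψ j l).natAbs).factorization p : ℤ)) =
      ∑ j, (((if 0 ≤ ψ j l then (q j).2 else (q j).1) ^ (ψ j l).natAbs).factorization p : ℤ) := by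
    exact_mod_cast h2
  rw [← sub_eq_zero, ← Finset.sum_sub_distrib] at h3
  rw [← h3]
  refine Finset.sum_congr rfl fun j _ => ?_
  rw [Nat.factorization_pow, Nat.factorization_pow]
  simp only [Finsupp.smul_apply, smul_eq_mul, Nat.cast_mul, Int.natCast_natAbs]
  split_ifs with h0
  · rw [abs_of_nonneg h0]
    ring
  · rw [abs_of_neg (not_le.1 h0)]
    ring

/-- relations have at least three nonzero entries -/
lemma three {ψ : ι → Fin d → ℤ} (hψ0 : ∀ j, re ψ j ≠ 0)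
    (hp : ∀ i j, i ≠ j → LinearIndepOn ℝ (re ψ) ({i, j} : Set ι)) {a : ι → ℤ}
    (h : ∀ l, ∑ j, a j * ψ j l = 0) {i : ι} (hi : a i ≠ 0) :
    ∃ j k, i ≠ j ∧ i ≠ k ∧ j ≠ k ∧ a j ≠ 0 ∧ a k ≠ 0 := by
  have hR : ∑ j, (a j : ℝ) • re ψ j = 0 := by
    ext l
    rw [Finset.sum_apply]
    simp only [Pi.smul_apply, smul_eq_mul, Pi.zero_apply, re]
    exact_mod_cast h l
  have hex : ∃ j, i ≠ j ∧ a j ≠ 0 := by
    by_contra hcon
    push Not at hcon
    have h1 : ∑ j, (a j : ℝ) • re ψ j = (a i : ℝ) • re ψ i := by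
      refine Finset.sum_eq_single i (fun j _ hj => ?_) (fun h => absurd (Finset.mem_univ i) h)
      rw [hcon j hj.symm, Int.cast_zero, zero_smul]
    rw [h1, smul_eq_zero] at hR
    rcases hR with hR | hR
    · exact hi (by exact_mod_cast hR)
    · exact hψ0 i hR
  obtain ⟨j, hij, hj⟩ := hex
  by_contra hcon
  push Not at hcon
  have h1 : ∑ k, (a k : ℝ) • re ψ k = ∑ k ∈ ({i, j} : Finset ι), (a k : ℝ) • re ψ k := by
    symm
    refine Finset.sum_subset (Finset.subset_univ _) fun k _ hk => ?_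
    rw [Finset.mem_insert, Finset.mem_singleton, not_or] at hk
    have := hcon j k hij (fun h => hk.1 h.symm) (fun h => hk.2 h.symm) hj
    rw [this, Int.cast_zero, zero_smul]
  rw [h1] at hR
  have h2 := hp i j hij
  have h3 : LinearIndepOn ℝ (re ψ) (({i, j} : Finset ι) : Set ι) := by
    rw [Finset.coe_insert, Finset.coe_singleton]
    exact h2
  rw [linearIndepOn_finset_iff] at h3
  have h4 := h3 (fun k => (a k : ℝ)) hR i (Finset.mem_insert_self _ _)
  exact hi (by exact_mod_cast h4)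

lemma Nh_cube {ψ : ι → Fin d → ℤ} (hψ0 : ∀ j, re ψ j ≠ 0)
    (hp : ∀ i j, i ≠ j → LinearIndepOn ℝ (re ψ) ({i, j} : Set ι)) {q : ι → ℕ × ℕ} (hq : q ∈ Rl ψ) :
    Nh q ≠ 0 ∧ ∀ p : ℕ, p.Prime → p ∣ Nh q → p ^ 3 ∣ Nh q := by
  have hb := hq.1
  have hN : Nh q ≠ 0 := by
    unfold Nh
    rw [Finset.prod_ne_zero_iff]
    intro j _
    obtain ⟨a, b, _⟩ := hb j
    positivity
  refine ⟨hN, fun p hpp hpN => ?_⟩
  rw [hpp.pow_dvd_iff_le_factorization hN]
  set c : ι → ℕ := fun j => (q j).1.factorization p + (q j).2.factorization p with hc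
  set a : ι → ℤ := fun j => ((q j).1.factorization p : ℤ) - (q j).2.factorization p with ha
  have hfac : (Nh q).factorization p = ∑ j, c j := by
    unfold Nh
    rw [Nat.factorization_prod_apply (fun j _ => by
      obtain ⟨a, b, _⟩ := hb j
      positivity)]
    refine Finset.sum_congr rfl fun j _ => ?_
    obtain ⟨a, b, _⟩ := hb j
    rw [Nat.factorization_mul a.ne' b.ne', Finsupp.add_apply]
  have hac : ∀ j, c j ≠ 0 → a j ≠ 0 := by
    intro j hcj haj
    obtain ⟨x, y, hco⟩ := hb j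
    have h1 : (q j).1.factorization p = (q j).2.factorization p := by
      rw [ha] at haj
      simp only at haj
      omega
    have h2 : (q j).1.factorization p ≠ 0 := by
      intro h3
      apply hcj
      rw [hc]
      simp only
      omega
    have h3 : p ∣ (q j).1 := Nat.dvd_of_factorization_pos h2
    have h4 : p ∣ (q j).2 := Nat.dvd_of_factorization_pos (h1 ▸ h2)
    exact hpp.one_lt.ne' (Nat.eq_one_of_dvd_coprimes hco h3 h4)
  have hca : ∀ j, a j ≠ 0 → 1 ≤ c j := by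
    intro j haj
    by_contra h1
    apply haj
    rw [hc] at h1
    simp only at h1
    rw [ha]
    simp only
    omega
  have hpos : (Nh q).factorization p ≠ 0 := by
    have := hpp.factorization_pos_of_dvd hN hpN
    omega
  rw [hfac] at hpos ⊢
  obtain ⟨i, _, hi⟩ := Finset.exists_ne_zero_of_sum_ne_zero hpos
  obtain ⟨j, k, hij, hik, hjk, hj, hk⟩ := three hψ0 hp (a := a) (fun l => val_rel ψ hq p l) (hac i hi)
  have h1 : ∑ x ∈ ({i, j, k} : Finset ι), c x ≤ ∑ x, c x :=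
    Finset.sum_le_sum_of_subset (Finset.subset_univ _)
  have h2 : ∑ x ∈ ({i, j, k} : Finset ι), c x = c i + (c j + c k) := by
    rw [Finset.sum_insert (by simp [hij, hik]), Finset.sum_insert (by simp [hjk]), Finset.sum_singleton]
  have := hca i (hac i hi)
  have := hca j hj
  have := hca k hk
  omega

lemma Nh_dvd (q : ι → ℕ × ℕ) (j : ι) : (q j).1 ∣ Nh q ∧ (q j).2 ∣ Nh q := by
  have h : (q j).1 * (q j).2 ∣ Nh q := Finset.dvd_prod_of_mem _ (Finset.mem_univ j)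
  exact ⟨(dvd_mul_right _ _).trans h, (dvd_mul_left _ _).trans h⟩

theorem rel_sum {ψ : ι → Fin d → ℤ} (hψ0 : ∀ j, re ψ j ≠ 0)
    (hp : ∀ i j, i ≠ j → LinearIndepOn ℝ (re ψ) ({i, j} : Set ι)) : ∃ C : ℝ, 0 ≤ C ∧
    ∀ s : Finset (ι → ℕ × ℕ), (∀ q ∈ s, q ∈ Rl ψ) → ∑ q ∈ s, (Nh q : ℝ) ^ (-(9 / 20) : ℝ) ≤ C := by
  obtain ⟨C0, hC0, hcube⟩ := cube_sum
  set n := Fintype.card ι with hn
  set ε : ℝ := 1 / (40 * ((n : ℝ) + 1)) with hε
  have hεp : 0 < ε := by positivity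
  have hnε : 2 * n * ε ≤ 1 / 20 := by
    rw [hε, mul_one_div, div_le_div_iff₀ (by positivity) (by norm_num)]
    have : (0:ℝ) ≤ n := by positivity
    linarith
  obtain ⟨C1, hC1, hdiv⟩ := Pool.Agent.H510R2.divisor_bound ε hεp
  refine ⟨(C1 ^ 2) ^ n * C0, by positivity, fun s hs => ?_⟩
  calc ∑ q ∈ s, (Nh q : ℝ) ^ (-(9 / 20) : ℝ)
      = ∑ N ∈ s.image Nh, (s.filter fun q => Nh q = N).card • (N : ℝ) ^ (-(9 / 20) : ℝ) :=
        Finset.sum_comp (fun N : ℕ => (N : ℝ) ^ (-(9 / 20) : ℝ)) Nh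
    _ ≤ ∑ N ∈ s.image Nh, (C1 ^ 2) ^ n * (N : ℝ) ^ (-(2 / 5) : ℝ) := by
        refine Finset.sum_le_sum fun N hN => ?_
        obtain ⟨q0, hq0, rfl⟩ := Finset.mem_image.1 hN
        have hN0 := (Nh_cube hψ0 hp (hs q0 hq0)).1
        set N := Nh q0 with hNd
        have hN1 : 1 ≤ N := Nat.one_le_iff_ne_zero.2 hN0
        have hNr : (1:ℝ) ≤ N := by exact_mod_cast hN1
        have hNp : (0:ℝ) < N := by linarith
        have h1 : s.filter (fun q => Nh q = N) ⊆
            Fintype.piFinset fun _ : ι => N.divisors ×ˢ N.divisors := by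
          intro q hq
          obtain ⟨h1, h2⟩ := Finset.mem_filter.1 hq
          rw [Fintype.mem_piFinset]
          intro j
          obtain ⟨d1, d2⟩ := Nh_dvd q j
          rw [h2] at d1 d2
          simp only [Finset.mem_product, Nat.mem_divisors]
          exact ⟨⟨d1, hN0⟩, d2, hN0⟩
        have h2 := Finset.card_le_card h1
        rw [Fintype.card_piFinset, Finset.prod_const, Finset.card_product, Finset.card_univ, ← hn] at h2
        have h3 : ((s.filter fun q => Nh q = N).card : ℝ) ≤ (C1 ^ 2) ^ n * (N : ℝ) ^ (1 / 20 : ℝ) := by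
          calc ((s.filter fun q => Nh q = N).card : ℝ)
              ≤ (((N.divisors.card * N.divisors.card) ^ n : ℕ) : ℝ) := by exact_mod_cast h2
            _ = ((N.divisors.card : ℝ) ^ 2) ^ n := by push_cast; rw [sq]
            _ ≤ ((C1 * (N : ℝ) ^ ε) ^ 2) ^ n := by
                have := hdiv N hN1
                gcongr
            _ = (C1 ^ 2) ^ n * (N : ℝ) ^ (2 * n * ε) := by
                rw [mul_pow, mul_pow, ← Real.rpow_natCast ((N : ℝ) ^ ε) 2, ← Real.rpow_mul hNp.le,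
                  ← Real.rpow_natCast _ n, ← Real.rpow_natCast _ n, ← Real.rpow_mul hNp.le]
                congr 2
                push_cast
                ring
            _ ≤ _ := by
                have := Real.rpow_le_rpow_of_exponent_le hNr hnε
                gcongr
        rw [nsmul_eq_mul]
        calc ((s.filter fun q => Nh q = N).card : ℝ) * (N : ℝ) ^ (-(9 / 20) : ℝ)
            ≤ ((C1 ^ 2) ^ n * (N : ℝ) ^ (1 / 20 : ℝ)) * (N : ℝ) ^ (-(9 / 20) : ℝ) := by gcongr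
          _ = (C1 ^ 2) ^ n * (N : ℝ) ^ (-(2 / 5) : ℝ) := by
              rw [mul_assoc, ← Real.rpow_add hNp]
              norm_num
    _ = (C1 ^ 2) ^ n * ∑ N ∈ s.image Nh, (N : ℝ) ^ (-(2 / 5) : ℝ) := by rw [Finset.mul_sum]
    _ ≤ _ := by
        refine mul_le_mul_of_nonneg_left (hcube _ fun N hN => ?_) (by positivity)
        obtain ⟨q, hq, rfl⟩ := Finset.mem_image.1 hN
        exact Nh_cube hψ0 hp (hs q hq)

end

end Pool.Agent.Y752.LP
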