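import Pool.Agent.Y752.LP.E3

set_option autoImplicit false

/-! Logarithmic singularities on the unit cube. -/

namespace Pool.Agent.Y752.LP

open MeasureTheory Set Matrix
open Pool.Agent.Y752.KP
open scoped ENNReal

noncomputable section

variable {ι : Type} [Fintype ι] [DecidableEq ι] {d : ℕ}

lemma single_bound {c : Fin d → ℝ} (hc : c ≠ 0) : ∃ C K : ℝ, 1 ≤ C ∧ 1 ≤ K ∧
    ∀ G : ℝ → ℝ≥0∞, Measurable G → ∫⁻ x in cube d 1, G (c ⬝ᵥ x) ≤
      ENNReal.ofReal C * ∫⁻ u in Icc (-K) K, G u := by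
  have hs : LinearIndepOn ℝ (fun _ : Unit => c) ((Finset.univ : Finset Unit) : Set Unit) := by
    rw [Finset.coe_univ, linearIndepOn_univ_iff]
    exact LinearIndependent.of_subsingleton () hc
  obtain ⟨C, K, hC, hK, h⟩ := ind_bound (fun _ : Unit => c) Finset.univ hs
  refine ⟨C, K, hC, hK, fun G hG => ?_⟩
  have h1 := h (fun _ => G) (fun _ => hG) 1 one_pos
  simp only [Finset.univ_unique, Finset.prod_singleton, one_pow, mul_one, ENNReal.ofReal_one, inv_one,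
    one_mul] at h1
  exact h1

lemma null {c : Fin d → ℝ} (hc : c ≠ 0) : volume {x ∈ cube d 1 | c ⬝ᵥ x = 0} = 0 := by
  obtain ⟨C, K, _, _, h⟩ := single_bound hc
  have h1 := h (indicator {0} fun _ => 1) (measurable_const.indicator (measurableSet_singleton 0))
  have h2 : ∫⁻ u in Icc (-K) K, indicator {(0:ℝ)} (fun _ => (1:ℝ≥0∞)) u = 0 := by
    rw [lintegral_indicator (measurableSet_singleton 0)]
    simp only [lintegral_const, one_mul, Measure.restrict_apply_univ]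
    refine le_antisymm ?_ bot_le
    calc (volume.restrict (Icc (-K) K)) {(0:ℝ)} ≤ volume {(0:ℝ)} := Measure.restrict_apply_le _ _
      _ = 0 := Real.volume_singleton
  rw [h2, mul_zero] at h1
  have h3 : ∫⁻ x in cube d 1, indicator {(0:ℝ)} (fun _ => (1:ℝ≥0∞)) (c ⬝ᵥ x) =
      volume {x ∈ cube d 1 | c ⬝ᵥ x = 0} := by
    have e1 : ∀ x : Fin d → ℝ, indicator {(0:ℝ)} (fun _ => (1:ℝ≥0∞)) (c ⬝ᵥ x) =
        indicator {x : Fin d → ℝ | c ⬝ᵥ x = 0} (fun _ => (1:ℝ≥0∞)) x := by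
      intro x
      simp only [indicator_apply, mem_singleton_iff, mem_ofPred_eq]
    simp_rw [e1]
    have m1 : MeasurableSet {x : Fin d → ℝ | c ⬝ᵥ x = 0} :=
      (dot_meas c) (measurableSet_singleton 0)
    rw [lintegral_indicator m1]
    simp only [lintegral_const, one_mul, Measure.restrict_apply_univ]
    rw [Measure.restrict_apply m1, inter_comm]
    rfl
  rw [h3] at h1
  exact le_antisymm h1 bot_le

lemma sing_int {K : ℝ} (hK : 0 ≤ K) : IntegrableOn (fun u : ℝ => |u| ^ (-(3 / 4) : ℝ)) (Icc (-K) K) := by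
  have h1 : IntervalIntegrable (fun u : ℝ => |u| ^ (-(3 / 4) : ℝ)) volume 0 K := by
    have h2 : IntervalIntegrable (fun u : ℝ => u ^ (-(3 / 4) : ℝ)) volume 0 K :=
      intervalIntegral.intervalIntegrable_rpow' (by norm_num)
    refine h2.congr ?_
    intro u hu
    rw [uIoc_of_le hK] at hu
    simp only
    rw [abs_of_pos hu.1]
  have h3 : IntervalIntegrable (fun u : ℝ => |u| ^ (-(3 / 4) : ℝ)) volume (-K) 0 := by
    rw [IntervalIntegrable.iff_comp_neg]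
    simp only [abs_neg, neg_neg, neg_zero]
    exact h1.symm
  have h5 := h3.trans h1
  rw [intervalIntegrable_iff_integrableOn_Icc_of_le (by linarith)] at h5
  exact h5

lemma sing_cube {c : Fin d → ℝ} (hc : c ≠ 0) :
    IntegrableOn (fun x : Fin d → ℝ => |c ⬝ᵥ x| ^ (-(3 / 4) : ℝ)) (cube d 1) := by
  obtain ⟨C, K, _, hK, h⟩ := single_bound hc
  have mf : Measurable fun u : ℝ => |u| ^ (-(3 / 4) : ℝ) := by fun_prop
  have mg : Measurable fun x : Fin d → ℝ => |c ⬝ᵥ x| ^ (-(3 / 4) : ℝ) := mf.comp (dot_meas c)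
  refine ⟨mg.aestronglyMeasurable, ?_⟩
  rw [hasFiniteIntegral_iff_ofReal (Filter.Eventually.of_forall fun x => by positivity)]
  refine lt_of_le_of_lt (h (fun u => ENNReal.ofReal (|u| ^ (-(3 / 4) : ℝ))) mf.ennreal_ofReal) ?_
  refine ENNReal.mul_lt_top ENNReal.ofReal_lt_top ?_
  have h1 := (sing_int (K := K) (by linarith)).2
  rwa [hasFiniteIntegral_iff_ofReal (Filter.Eventually.of_forall fun x => by positivity)] at h1

/-- the majorant -/
def Wm (ψ : ι → Fin d → ℝ) (y : Fin d → ℝ) : ℝ := 1 + ∑ j, |ψ j ⬝ᵥ y| ^ (-(3 / 4) : ℝ)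

lemma Wm_one (ψ : ι → Fin d → ℝ) (y : Fin d → ℝ) : 1 ≤ Wm ψ y := by
  unfold Wm
  have : 0 ≤ ∑ j, |ψ j ⬝ᵥ y| ^ (-(3 / 4) : ℝ) := Finset.sum_nonneg fun _ _ => by positivity
  linarith

lemma box_cube : box d 0 1 ⊆ cube d 1 := by
  intro x hx
  rw [mem_box] at hx
  rw [mem_cube]
  intro l
  rw [abs_le]
  constructor <;> linarith [(hx l).1, (hx l).2]

lemma Wm_int {ψ : ι → Fin d → ℝ} (hψ0 : ∀ j, ψ j ≠ 0) : IntegrableOn (Wm ψ) (box d 0 1) := by
  refine IntegrableOn.mono_set ?_ box_cube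
  unfold Wm
  refine Integrable.add ?_ ?_
  · exact integrableOn_const (hs := by
      rw [cube_vol d zero_le_one]
      exact ENNReal.ofReal_ne_top)
  · exact integrable_finsetSum _ fun j _ => sing_cube (hψ0 j)

/-- the size of the logarithms -/
def Gs (K : ℝ) (u : ℝ) : ℝ := K + abs (Real.log (abs u))

lemma inv_le_W {ψ : ι → Fin d → ℝ} {y : Fin d → ℝ} {j : ι} (hu : ψ j ⬝ᵥ y ≠ 0) {s : ℝ} (hs : 0 ≤ s) :
    |ψ j ⬝ᵥ y| ^ (-s) ≤ Wm ψ y ^ (4 * s / 3) := by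
  have hup : 0 < |ψ j ⬝ᵥ y| := abs_pos.2 hu
  have h1 : |ψ j ⬝ᵥ y| ^ (-(3 / 4) : ℝ) ≤ Wm ψ y := by
    unfold Wm
    have := Finset.single_le_sum (f := fun j => |ψ j ⬝ᵥ y| ^ (-(3 / 4) : ℝ))
      (fun _ _ => by positivity) (Finset.mem_univ j)
    linarith
  calc |ψ j ⬝ᵥ y| ^ (-s) = (|ψ j ⬝ᵥ y| ^ (-(3 / 4) : ℝ)) ^ (4 * s / 3) := by
        rw [← Real.rpow_mul hup.le]; congr 1; ring
    _ ≤ _ := Real.rpow_le_rpow (by positivity) h1 (by positivity)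

lemma Gs_bd {ψ : ι → Fin d → ℝ} {K R : ℝ} (hK : 0 ≤ K) (hR : 1 ≤ R)
    (hR2 : ∀ j, ∀ y ∈ box d 0 1, |ψ j ⬝ᵥ y| ≤ R) {s : ℝ} (hs : 0 < s) :
    ∀ y ∈ box d 0 1, ∀ j, Gs K (ψ j ⬝ᵥ y) ≤ (K + 2 * R + s⁻¹) * Wm ψ y ^ (4 * s / 3) := by
  intro y hy j
  have hW := Wm_one ψ y
  have hWp : 1 ≤ Wm ψ y ^ (4 * s / 3) := Real.one_le_rpow hW (by positivity)
  have hsi : 0 < s⁻¹ := by positivity
  unfold Gs
  by_cases hu : ψ j ⬝ᵥ y = 0
  · rw [hu, abs_zero, Real.log_zero, abs_zero, add_zero]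
    nlinarith
  · have hup : 0 < |ψ j ⬝ᵥ y| := abs_pos.2 hu
    have h1 := inv_le_W hu hs.le
    have h2 : abs (Real.log (abs (ψ j ⬝ᵥ y))) ≤ R + s⁻¹ * |ψ j ⬝ᵥ y| ^ (-s) := by
      have hp : 0 < |ψ j ⬝ᵥ y| ^ (-s) := by positivity
      rw [abs_le]
      constructor
      · have h3 : -Real.log |ψ j ⬝ᵥ y| = s⁻¹ * Real.log (|ψ j ⬝ᵥ y| ^ (-s)) := by
          rw [Real.log_rpow hup]
          field_simp
        have h4 := Real.log_le_sub_one_of_pos hp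
        have h5 : s⁻¹ * Real.log (|ψ j ⬝ᵥ y| ^ (-s)) ≤ s⁻¹ * |ψ j ⬝ᵥ y| ^ (-s) := by
          gcongr
          linarith
        linarith
      · have h3 := Real.log_le_sub_one_of_pos hup
        have h4 := hR2 j y hy
        have : 0 < s⁻¹ * |ψ j ⬝ᵥ y| ^ (-s) := by positivity
        linarith
    have h3 : s⁻¹ * |ψ j ⬝ᵥ y| ^ (-s) ≤ s⁻¹ * Wm ψ y ^ (4 * s / 3) := by gcongr
    nlinarith

end

end Pool.Agent.Y752.LP
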