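import Pool.Agent.Y752.LP.G2

set_option autoImplicit false

/-! Comparison of the integrals of the logarithmic factors with polynomials in `log T`. -/

namespace Pool.Agent.Y752.LP

open MeasureTheory Set Matrix
open Pool.Agent.Y752.KP
open scoped ENNReal

noncomputable section

variable {ι : Type} [Fintype ι] [DecidableEq ι] {d : ℕ}

/-- the constant -/
def k0 : ℝ := 2 * Real.eulerMascheroniConstant - Real.log (2 * Real.pi)

/-- the logarithm of a form -/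
def aj (ψ : ι → Fin d → ℝ) (j : ι) (y : Fin d → ℝ) : ℝ := Real.log (abs (ψ j ⬝ᵥ y)) + k0

lemma aj_meas (ψ : ι → Fin d → ℝ) (j : ι) : Measurable (aj ψ j) := by
  unfold aj
  exact ((Real.measurable_log.comp (dot_meas (ψ j)).abs)).add_const _

/-- the common exponent and constant -/
theorem maj {ψ : ι → Fin d → ℝ} {K : ℝ} (hK : 1 ≤ K) : ∃ C : ℝ, 1 ≤ C ∧ ∀ y ∈ box d 0 1,
    ∏ j, Gs K (ψ j ⬝ᵥ y) ≤ C * Wm ψ y ^ (1 / 3 : ℝ) := by
  set m := Fintype.card ι with hm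
  set s : ℝ := 1 / (4 * ((m : ℝ) + 1)) with hs
  have hsp : 0 < s := by positivity
  set R : ℝ := 1 + ∑ j, sz (ψ j) with hR
  have hR1 : 1 ≤ R := by
    have := Finset.sum_nonneg fun j (_ : j ∈ Finset.univ) => sz_nonneg (ψ j)
    linarith
  have hR2 : ∀ j, ∀ y ∈ box d 0 1, |ψ j ⬝ᵥ y| ≤ R := by
    intro j y hy
    have h1 := dot_le (c := ψ j) (box_cube hy)
    have h2 := Finset.single_le_sum (f := fun j => sz (ψ j)) (fun j _ => sz_nonneg _) (Finset.mem_univ j)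
    linarith
  have hsi : 0 < s⁻¹ := by positivity
  set C1 := K + 2 * R + s⁻¹ with hC1
  have hC11 : 1 ≤ C1 := by linarith
  refine ⟨C1 ^ m, one_le_pow₀ hC11, fun y hy => ?_⟩
  have hW := Wm_one ψ y
  have hWp : 0 < Wm ψ y := by linarith
  calc ∏ j, Gs K (ψ j ⬝ᵥ y) ≤ ∏ _j : ι, (C1 * Wm ψ y ^ (4 * s / 3)) := by
        refine Finset.prod_le_prod (fun j _ => ?_) fun j _ => Gs_bd (by linarith) hR1 hR2 hsp y hy j
        unfold Gs
        positivity
    _ = C1 ^ m * Wm ψ y ^ (4 * s / 3 * m) := by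
        rw [Finset.prod_const, Finset.card_univ, ← hm, mul_pow, ← Real.rpow_natCast (Wm ψ y ^ (4 * s / 3)) m,
          ← Real.rpow_mul hWp.le]
    _ ≤ _ := by
        have h1 : 4 * s / 3 * m ≤ 1 / 3 := by
          rw [hs]
          have : (0:ℝ) ≤ m := by positivity
          rw [div_mul_eq_mul_div, div_le_div_iff₀ (by norm_num) (by norm_num)]
          field_simp
          linarith
        have := Real.rpow_le_rpow_of_exponent_le hW h1
        gcongr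

lemma W13 {ψ : ι → Fin d → ℝ} {y : Fin d → ℝ} : Wm ψ y ^ (1 / 3 : ℝ) ≤ Wm ψ y := by
  have := Real.rpow_le_rpow_of_exponent_le (Wm_one ψ y) (show (1 / 3 : ℝ) ≤ 1 by norm_num)
  rwa [Real.rpow_one] at this

lemma prod_le_all {f : ι → ℝ} (h : ∀ j, 1 ≤ f j) (A : Finset ι) : ∏ j ∈ A, f j ≤ ∏ j, f j := by
  have h1 := Finset.prod_sdiff (Finset.subset_univ A) (f := f)
  rw [← h1]
  have h2 : 1 ≤ ∏ j ∈ Finset.univ \ A, f j := by
    calc (1:ℝ) = ∏ _j ∈ Finset.univ \ A, (1:ℝ) := by rw [Finset.prod_const_one]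
      _ ≤ _ := Finset.prod_le_prod (fun _ _ => zero_le_one) fun j _ => h j
  have h3 : 0 ≤ ∏ j ∈ A, f j := Finset.prod_nonneg fun j _ => by linarith [h j]
  nlinarith

theorem int_sub {ψ : ι → Fin d → ℝ} (hψ0 : ∀ j, ψ j ≠ 0) : ∃ C : ℝ, 1 ≤ C ∧ ∀ (A : Finset ι) (b : ι → ℝ),
    IntegrableOn (fun y => ∏ j ∈ A, (aj ψ j y - b j)) (box d 0 1) ∧
    |∫ y in box d 0 1, ∏ j ∈ A, (aj ψ j y - b j)| ≤ C * ∏ j, (1 + |b j|) := by
  obtain ⟨C, hC, hmaj⟩ := maj (ψ := ψ) (K := 1 + |k0|) (by have := abs_nonneg k0; linarith)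
  have hWi := Wm_int hψ0
  have hWI0 : 0 ≤ ∫ y in box d 0 1, Wm ψ y := integral_nonneg fun y => by
    have := Wm_one ψ y
    simp only [Pi.zero_apply]
    linarith
  refine ⟨1 + C * ∫ y in box d 0 1, Wm ψ y, by
    have : 0 ≤ C * ∫ y in box d 0 1, Wm ψ y := mul_nonneg (by linarith) hWI0
    linarith, fun A b => ?_⟩
  have hmeas : Measurable fun y => ∏ j ∈ A, (aj ψ j y - b j) :=
    Finset.measurable_prod _ fun j _ => (aj_meas ψ j).sub_const _
  have hb1 : ∀ j, 1 ≤ 1 + |b j| := fun j => by have := abs_nonneg (b j); linarith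
  have hPb : 0 ≤ ∏ j, (1 + |b j|) := Finset.prod_nonneg fun j _ => by linarith [hb1 j]
  have hpt : ∀ y ∈ box d 0 1, ‖∏ j ∈ A, (aj ψ j y - b j)‖ ≤ (C * ∏ j, (1 + |b j|)) * Wm ψ y := by
    intro y hy
    have hG1 : ∀ j, 1 ≤ Gs (1 + |k0|) (ψ j ⬝ᵥ y) := fun j => by
      unfold Gs
      have := abs_nonneg k0
      have := abs_nonneg (Real.log (abs (ψ j ⬝ᵥ y)))
      linarith
    rw [norm_prod]
    calc ∏ j ∈ A, ‖aj ψ j y - b j‖ ≤ ∏ j ∈ A, ((1 + |b j|) * Gs (1 + |k0|) (ψ j ⬝ᵥ y)) := by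
          refine Finset.prod_le_prod (fun _ _ => norm_nonneg _) fun j _ => ?_
          rw [Real.norm_eq_abs]
          unfold aj Gs
          have h1 := abs_sub (Real.log (abs (ψ j ⬝ᵥ y)) + k0) (b j)
          have h2 := abs_add_le (Real.log (abs (ψ j ⬝ᵥ y))) k0
          have h3 := abs_nonneg (b j)
          have h4 := abs_nonneg k0
          have h5 := abs_nonneg (Real.log (abs (ψ j ⬝ᵥ y)))
          nlinarith [mul_nonneg h3 (add_nonneg h4 h5)]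
      _ ≤ ∏ j, ((1 + |b j|) * Gs (1 + |k0|) (ψ j ⬝ᵥ y)) :=
          prod_le_all (fun j => by nlinarith [hb1 j, hG1 j]) A
      _ = (∏ j, (1 + |b j|)) * ∏ j, Gs (1 + |k0|) (ψ j ⬝ᵥ y) := Finset.prod_mul_distrib
      _ ≤ (∏ j, (1 + |b j|)) * (C * Wm ψ y) := by
          refine mul_le_mul_of_nonneg_left ((hmaj y hy).trans ?_) hPb
          have := W13 (ψ := ψ) (y := y)
          gcongr
      _ = _ := by ring
  have hint : IntegrableOn (fun y => ∏ j ∈ A, (aj ψ j y - b j)) (box d 0 1) := by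
    refine Integrable.mono' (hWi.const_mul (C * ∏ j, (1 + |b j|))) hmeas.aestronglyMeasurable ?_
    exact (ae_restrict_iff' (box_meas d 0 1)).2 (Filter.Eventually.of_forall hpt)
  refine ⟨hint, ?_⟩
  calc |∫ y in box d 0 1, ∏ j ∈ A, (aj ψ j y - b j)| ≤ ∫ y in box d 0 1, ‖∏ j ∈ A, (aj ψ j y - b j)‖ := by
        rw [← Real.norm_eq_abs]
        exact norm_integral_le_integral_norm _
    _ ≤ ∫ y in box d 0 1, (C * ∏ j, (1 + |b j|)) * Wm ψ y :=
        setIntegral_mono_on hint.norm (hWi.const_mul _) (box_meas d 0 1) hpt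
    _ = (C * ∫ y in box d 0 1, Wm ψ y) * ∏ j, (1 + |b j|) := by rw [integral_const_mul]; ring
    _ ≤ _ := by
        gcongr
        linarith

lemma prod_diffM (s : Finset ι) (a b M : ι → ℝ) (hM : ∀ j, 1 ≤ M j) (ha : ∀ j ∈ s, |a j| ≤ M j)
    (hb : ∀ j ∈ s, |b j| ≤ M j) :
    |∏ j ∈ s, a j - ∏ j ∈ s, b j| ≤ (∑ j ∈ s, |a j - b j|) * ∏ j ∈ s, M j := by
  induction s using Finset.induction_on with
  | empty => simp
  | insert i s hi ih =>
    have ih' := ih (fun j hj => ha j (Finset.mem_insert_of_mem hj)) fun j hj =>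
      hb j (Finset.mem_insert_of_mem hj)
    have hai := ha i (Finset.mem_insert_self _ _)
    rw [Finset.prod_insert hi, Finset.prod_insert hi, Finset.sum_insert hi, Finset.prod_insert hi]
    have e1 : a i * ∏ j ∈ s, a j - b i * ∏ j ∈ s, b j =
        a i * (∏ j ∈ s, a j - ∏ j ∈ s, b j) + (a i - b i) * ∏ j ∈ s, b j := by ring
    have h1 : |∏ j ∈ s, b j| ≤ ∏ j ∈ s, M j := by
      rw [Finset.abs_prod]
      exact Finset.prod_le_prod (fun _ _ => abs_nonneg _) fun j hj => hb j (Finset.mem_insert_of_mem hj)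
    have hMp : 0 ≤ ∏ j ∈ s, M j := Finset.prod_nonneg fun j _ => by linarith [hM j]
    rw [e1]
    refine (abs_add_le _ _).trans ?_
    rw [abs_mul, abs_mul]
    have hs0 : 0 ≤ ∑ j ∈ s, |a j - b j| := Finset.sum_nonneg fun _ _ => abs_nonneg _
    calc |a i| * |∏ j ∈ s, a j - ∏ j ∈ s, b j| + |a i - b i| * |∏ j ∈ s, b j|
        ≤ M i * ((∑ j ∈ s, |a j - b j|) * ∏ j ∈ s, M j) + |a i - b i| * ∏ j ∈ s, M j := by
          have := hM i
          gcongr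
      _ ≤ M i * ((∑ j ∈ s, |a j - b j|) * ∏ j ∈ s, M j) + M i * (|a i - b i| * ∏ j ∈ s, M j) := by
          have h5 : 0 ≤ |a i - b i| * ∏ j ∈ s, M j := mul_nonneg (abs_nonneg _) hMp
          have := hM i
          nlinarith
      _ = _ := by ring

lemma log_one_add {x : ℝ} (hx : 0 ≤ x) : Real.log (1 + x) ≤ 2 * Real.sqrt x := by
  have h1 : Real.log (1 + x) = 2 * Real.log (Real.sqrt (1 + x)) := by
    rw [Real.log_sqrt (by linarith)]
    ring
  have h2 := Real.log_le_sub_one_of_pos (Real.sqrt_pos.2 (by linarith : 0 < 1 + x))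
  have h3 : Real.sqrt (1 + x) ≤ 1 + Real.sqrt x := by
    have h4 := Real.sqrt_nonneg x
    refine Real.sqrt_le_iff.2 ⟨by linarith, ?_⟩
    have := Real.sq_sqrt hx
    nlinarith
  linarith

/-- one point -/
lemma point {ψ : ι → Fin d → ℝ} : ∃ C : ℝ, 1 ≤ C ∧ ∀ T : ℝ, 3 ≤ T →
    ∀ b : ι → ℝ, ∀ y ∈ box d 0 1, (∀ j, ψ j ⬝ᵥ y ≠ 0) →
    |∏ j, (Lw (T * (ψ j ⬝ᵥ y)) - b j) - ∏ j, (Real.log T + (aj ψ j y - b j))| ≤
      C * (1 + Real.log T) ^ Fintype.card ι * (∏ j, (1 + |b j|)) * T ^ (-(1 / 2) : ℝ) * Wm ψ y := by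
  set R : ℝ := 1 + ∑ j, sz (ψ j) with hR
  have hR1 : 1 ≤ R := by
    have := Finset.sum_nonneg fun j (_ : j ∈ Finset.univ) => sz_nonneg (ψ j)
    linarith
  have hR2 : ∀ j, ∀ y ∈ box d 0 1, |ψ j ⬝ᵥ y| ≤ R := by
    intro j y hy
    have h1 := dot_le (c := ψ j) (box_cube hy)
    have h2 := Finset.single_le_sum (f := fun j => sz (ψ j)) (fun j _ => sz_nonneg _) (Finset.mem_univ j)
    linarith
  set K : ℝ := 1 + |k0| + R with hK
  have hk := abs_nonneg k0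
  obtain ⟨C, hC, hmaj⟩ := maj (ψ := ψ) (K := K) (by linarith)
  set m := Fintype.card ι with hm
  refine ⟨1 + m * 2 * C, by
    have : 0 ≤ (m : ℝ) * 2 * C := by positivity
    linarith, fun T hT b y hy hne => ?_⟩
  have hTp : 0 < T := by linarith
  set X := Real.log T with hX
  have hX1 : 0 ≤ X := Real.log_nonneg (by linarith)
  set M : ι → ℝ := fun j => (1 + X) * (1 + |b j|) * Gs K (ψ j ⬝ᵥ y) with hM
  have hGK : ∀ j, K ≤ Gs K (ψ j ⬝ᵥ y) := fun j => by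
    unfold Gs
    have := abs_nonneg (Real.log (abs (ψ j ⬝ᵥ y)))
    linarith
  have hK1 : 1 ≤ K := by linarith
  have hM1 : ∀ j, 1 ≤ M j := fun j => by
    have h1 := hGK j
    have h2 := abs_nonneg (b j)
    have h3 : 1 ≤ (1 + X) * (1 + |b j|) := by nlinarith
    simp only [hM]
    nlinarith
  have hLw : ∀ u : ℝ, Lw (T * u) = Real.log (1 + T * |u|) + k0 := by
    intro u
    unfold Lw k0
    rw [abs_mul, abs_of_pos hTp, Real.log_div (by positivity) (by positivity)]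
    ring
  have hkey : ∀ x b G : ℝ, 0 ≤ G → x ≤ X + G → 1 ≤ G → x + b ≤ (1 + X) * (1 + |b|) * G := by
    intro x b G hG h1 h2
    have h3 := abs_nonneg b
    have h4 := le_abs_self b
    nlinarith [mul_nonneg h3 hG, mul_nonneg hX1 hG, mul_nonneg (mul_nonneg hX1 h3) hG]
  have hA : ∀ j ∈ Finset.univ, |Lw (T * (ψ j ⬝ᵥ y)) - b j| ≤ M j := by
    intro j _
    have h1 := hR2 j y hy
    have h2 := abs_nonneg (ψ j ⬝ᵥ y)
    have h3 : 0 ≤ Real.log (1 + T * |ψ j ⬝ᵥ y|) := Real.log_nonneg (by nlinarith)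
    have h4 : Real.log (1 + T * |ψ j ⬝ᵥ y|) ≤ X + R := by
      have h5 : 1 + T * |ψ j ⬝ᵥ y| ≤ T * (1 + R) := by nlinarith
      calc Real.log (1 + T * |ψ j ⬝ᵥ y|) ≤ Real.log (T * (1 + R)) := Real.log_le_log (by positivity) h5
        _ = X + Real.log (1 + R) := Real.log_mul hTp.ne' (by linarith)
        _ ≤ X + R := by
            have := Real.log_le_sub_one_of_pos (show 0 < 1 + R by linarith)
            linarith
    have h6 : |Lw (T * (ψ j ⬝ᵥ y))| ≤ X + (|k0| + R) := by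
      rw [hLw]
      refine (abs_add_le _ _).trans ?_
      rw [abs_of_nonneg h3]
      linarith
    have h7 := abs_sub (Lw (T * (ψ j ⬝ᵥ y))) (b j)
    have h8 := hkey |Lw (T * (ψ j ⬝ᵥ y))| |b j| (Gs K (ψ j ⬝ᵥ y)) (by linarith [hGK j])
      (by linarith [hGK j]) (by linarith [hGK j])
    rw [abs_abs] at h8
    simp only [hM]
    linarith
  have hB : ∀ j ∈ Finset.univ, |X + (aj ψ j y - b j)| ≤ M j := by
    intro j _
    have h6 : |X + aj ψ j y| ≤ X + Gs K (ψ j ⬝ᵥ y) := by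
      refine (abs_add_le _ _).trans ?_
      rw [abs_of_nonneg hX1]
      have h1 : |aj ψ j y| ≤ abs (Real.log (abs (ψ j ⬝ᵥ y))) + |k0| := by
        unfold aj
        exact abs_add_le _ _
      unfold Gs
      linarith
    have h7 := abs_sub (X + aj ψ j y) (b j)
    have h8 := hkey |X + aj ψ j y| |b j| (Gs K (ψ j ⬝ᵥ y)) (by linarith [hGK j])
      h6 (by linarith [hGK j])
    rw [abs_abs] at h8
    have e1 : X + (aj ψ j y - b j) = X + aj ψ j y - b j := by ring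
    rw [e1]
    simp only [hM]
    linarith
  have hd : ∀ j ∈ Finset.univ, |(Lw (T * (ψ j ⬝ᵥ y)) - b j) - (X + (aj ψ j y - b j))| ≤
      2 * T ^ (-(1 / 2) : ℝ) * Wm ψ y ^ (2 / 3 : ℝ) := by
    intro j _
    have hup : 0 < |ψ j ⬝ᵥ y| := abs_pos.2 (hne j)
    have e1 : (Lw (T * (ψ j ⬝ᵥ y)) - b j) - (X + (aj ψ j y - b j)) =
        Real.log (1 + (T * |ψ j ⬝ᵥ y|)⁻¹) := by
      rw [hLw]
      unfold aj
      have h1 : 1 + T * |ψ j ⬝ᵥ y| = (T * |ψ j ⬝ᵥ y|) * (1 + (T * |ψ j ⬝ᵥ y|)⁻¹) := by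
        field_simp
        ring
      rw [h1, Real.log_mul (by positivity) (by positivity), Real.log_mul hTp.ne' hup.ne']
      ring
    have h2 : 0 ≤ (T * |ψ j ⬝ᵥ y|)⁻¹ := by positivity
    rw [e1, abs_of_nonneg (Real.log_nonneg (by linarith))]
    refine (log_one_add h2).trans ?_
    have h3 : Real.sqrt ((T * |ψ j ⬝ᵥ y|)⁻¹) = T ^ (-(1 / 2) : ℝ) * |ψ j ⬝ᵥ y| ^ (-(1 / 2) : ℝ) := by
      rw [Real.sqrt_eq_rpow, Real.inv_rpow (by positivity), Real.mul_rpow hTp.le hup.le, mul_inv,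
        Real.rpow_neg hTp.le, Real.rpow_neg hup.le]
    have h4 := inv_le_W (ψ := ψ) (y := y) (j := j) (hne j) (s := 1 / 2) (by norm_num)
    have h5 : (4 * (1 / 2) / 3 : ℝ) = 2 / 3 := by norm_num
    rw [h5] at h4
    rw [h3]
    have : 0 ≤ T ^ (-(1 / 2) : ℝ) := by positivity
    nlinarith
  have hWp : 0 < Wm ψ y := by linarith [Wm_one ψ y]
  have hT0 : 0 ≤ T ^ (-(1 / 2) : ℝ) := by positivity
  have hPb : 0 ≤ ∏ j, (1 + |b j|) := Finset.prod_nonneg fun j _ => by positivity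
  have hsum : ∑ j, |(Lw (T * (ψ j ⬝ᵥ y)) - b j) - (X + (aj ψ j y - b j))| ≤
      m * (2 * T ^ (-(1 / 2) : ℝ) * Wm ψ y ^ (2 / 3 : ℝ)) := by
    refine (Finset.sum_le_sum hd).trans ?_
    rw [Finset.sum_const, nsmul_eq_mul, Finset.card_univ]
  have hprodM : ∏ j, M j = (1 + X) ^ m * (∏ j, (1 + |b j|)) * ∏ j, Gs K (ψ j ⬝ᵥ y) := by
    simp only [hM]
    rw [Finset.prod_mul_distrib, Finset.prod_mul_distrib, Finset.prod_const, Finset.card_univ]
  have h1 := prod_diffM Finset.univ (fun j => Lw (T * (ψ j ⬝ᵥ y)) - b j)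
    (fun j => X + (aj ψ j y - b j)) M hM1 hA hB
  refine h1.trans ?_
  rw [hprodM]
  have h2 := hmaj y hy
  have hW23 : Wm ψ y ^ (2 / 3 : ℝ) * Wm ψ y ^ (1 / 3 : ℝ) = Wm ψ y := by
    rw [← Real.rpow_add hWp]; norm_num
  calc (∑ j, |(Lw (T * (ψ j ⬝ᵥ y)) - b j) - (X + (aj ψ j y - b j))|) *
        ((1 + X) ^ m * (∏ j, (1 + |b j|)) * ∏ j, Gs K (ψ j ⬝ᵥ y))
      ≤ (m * (2 * T ^ (-(1 / 2) : ℝ) * Wm ψ y ^ (2 / 3 : ℝ))) *
        ((1 + X) ^ m * (∏ j, (1 + |b j|)) * (C * Wm ψ y ^ (1 / 3 : ℝ))) := by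
        have hG0 : 0 ≤ ∏ j, Gs K (ψ j ⬝ᵥ y) := Finset.prod_nonneg fun j _ => by linarith [hGK j]
        gcongr
    _ = (m * 2 * C) * (1 + X) ^ m * (∏ j, (1 + |b j|)) * T ^ (-(1 / 2) : ℝ) *
        (Wm ψ y ^ (2 / 3 : ℝ) * Wm ψ y ^ (1 / 3 : ℝ)) := by ring
    _ = (m * 2 * C) * (1 + X) ^ m * (∏ j, (1 + |b j|)) * T ^ (-(1 / 2) : ℝ) * Wm ψ y := by rw [hW23]
    _ ≤ _ := by
        gcongr
        linarith

end

end Pool.Agent.Y752.LP
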