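import Pool.Agent.Y752.LP.G1
import Pool.Agent.Y752.LP.G3

set_option autoImplicit false

/-! The integrals over the large cube. -/

namespace Pool.Agent.Y752.LP

open MeasureTheory Set Matrix
open Pool.Agent.Y752.KP
open scoped ENNReal Pointwise

noncomputable section

variable {ι : Type} [Fintype ι] [DecidableEq ι] {d : ℕ}

lemma ae_ne {ψ : ι → Fin d → ℝ} (hψ0 : ∀ j, ψ j ≠ 0) :
    ∀ᵐ y ∂(volume.restrict (box d 0 1)), y ∈ box d 0 1 ∧ ∀ j, ψ j ⬝ᵥ y ≠ 0 := by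
  have h1 : ∀ j, ∀ᵐ y ∂(volume.restrict (box d 0 1)), ψ j ⬝ᵥ y ≠ 0 := by
    intro j
    rw [ae_iff]
    simp only [not_not]
    have m1 : MeasurableSet {x : Fin d → ℝ | ψ j ⬝ᵥ x = 0} :=
      (dot_meas (ψ j)) (measurableSet_singleton 0)
    rw [Measure.restrict_apply m1]
    refine measure_mono_null ?_ (null (hψ0 j))
    rintro x ⟨h1, h2⟩
    exact ⟨box_cube h2, h1⟩
  filter_upwards [ae_restrict_mem (box_meas d 0 1), ae_all_iff.2 h1] with y h2 h3
  exact ⟨h2, h3⟩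

/-- the polynomial attached to `b` -/
def Iq (ψ : ι → Fin d → ℝ) (b : ι → ℝ) (X : ℝ) : ℝ := ∫ y in box d 0 1, ∏ j, (X + (aj ψ j y - b j))

lemma Iq_int {ψ : ι → Fin d → ℝ} (hψ0 : ∀ j, ψ j ≠ 0) (b : ι → ℝ) (X : ℝ) :
    IntegrableOn (fun y => ∏ j, (X + (aj ψ j y - b j))) (box d 0 1) := by
  obtain ⟨C, _, h⟩ := int_sub hψ0
  have h1 := (h Finset.univ (fun j => b j - X)).1
  refine h1.congr (Filter.Eventually.of_forall fun y => ?_)
  simp only
  refine Finset.prod_congr rfl fun j _ => ?_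
  ring

theorem cmp {ψ : ι → Fin d → ℝ} (hψ0 : ∀ j, ψ j ≠ 0) : ∃ C : ℝ, 1 ≤ C ∧ ∀ T : ℝ, 3 ≤ T → ∀ b : ι → ℝ,
    |(∫ y in box d 0 1, ∏ j, (Lw (T * (ψ j ⬝ᵥ y)) - b j)) - Iq ψ b (Real.log T)| ≤
      C * (1 + Real.log T) ^ Fintype.card ι * (∏ j, (1 + |b j|)) * T ^ (-(1 / 2) : ℝ) := by
  obtain ⟨C, hC, hpt⟩ := point (ψ := ψ)
  have hWi := Wm_int hψ0
  have hWI0 : 0 ≤ ∫ y in box d 0 1, Wm ψ y := integral_nonneg fun y => by
    have := Wm_one ψ y
    simp only [Pi.zero_apply]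
    linarith
  refine ⟨1 + C * ∫ y in box d 0 1, Wm ψ y, by
    have : 0 ≤ C * ∫ y in box d 0 1, Wm ψ y := mul_nonneg (by linarith) hWI0
    linarith, fun T hT b => ?_⟩
  have hTp : 0 < T := by linarith
  have hX1 : 0 ≤ Real.log T := Real.log_nonneg (by linarith)
  have c1 : Continuous fun y : Fin d → ℝ => ∏ j, (Lw (T * (ψ j ⬝ᵥ y)) - b j) :=
    continuous_finsetProd _ fun j _ =>
      (Lw_cont.comp (continuous_const.mul (dot_cont (ψ j)))).sub continuous_const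
  have i1 : IntegrableOn (fun y : Fin d → ℝ => ∏ j, (Lw (T * (ψ j ⬝ᵥ y)) - b j)) (box d 0 1) :=
    c1.continuousOn.integrableOn_compact isCompact_Icc
  have i2 := Iq_int hψ0 b (Real.log T)
  unfold Iq
  rw [← integral_sub i1 i2]
  have hPb : 0 ≤ ∏ j, (1 + |b j|) := Finset.prod_nonneg fun j _ => by positivity
  calc |∫ y in box d 0 1, ((∏ j, (Lw (T * (ψ j ⬝ᵥ y)) - b j)) - ∏ j, (Real.log T + (aj ψ j y - b j)))|
      ≤ ∫ y in box d 0 1, ‖(∏ j, (Lw (T * (ψ j ⬝ᵥ y)) - b j)) -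
          ∏ j, (Real.log T + (aj ψ j y - b j))‖ := by
        rw [← Real.norm_eq_abs]
        exact norm_integral_le_integral_norm _
    _ ≤ ∫ y in box d 0 1, C * (1 + Real.log T) ^ Fintype.card ι * (∏ j, (1 + |b j|)) *
          T ^ (-(1 / 2) : ℝ) * Wm ψ y := by
        refine integral_mono_ae (i1.sub i2).norm (hWi.const_mul _) ?_
        filter_upwards [ae_ne hψ0] with y hy
        rw [Real.norm_eq_abs]
        exact hpt T hT b y hy.1 hy.2
    _ = (C * ∫ y in box d 0 1, Wm ψ y) * (1 + Real.log T) ^ Fintype.card ι * (∏ j, (1 + |b j|)) *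
          T ^ (-(1 / 2) : ℝ) := by rw [integral_const_mul]; ring
    _ ≤ _ := by
        gcongr
        linarith

lemma scale (ψ : ι → Fin d → ℝ) (q : ι → ℕ × ℕ) {T : ℝ} (hT : 0 < T) :
    ∫ x in box d 0 T, FL ψ q x = T ^ d * ∫ y in box d 0 1, ∏ j, (Lw (T * (ψ j ⬝ᵥ y)) - lh (q j)) := by
  have h1 := Measure.setIntegral_comp_smul_of_pos (μ := volume) (FL ψ q) (box d 0 1) hT
  have h2 : T • box d 0 1 = box d 0 T := by
    ext x
    rw [mem_smul_set_iff_inv_smul_mem₀ hT.ne', mem_box, mem_box]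
    refine forall_congr' fun l => ?_
    rw [Pi.smul_apply, smul_eq_mul, inv_mul_eq_div, div_le_one hT, le_div_iff₀ hT, zero_mul]
  rw [h2, Module.finrank_fintype_fun_eq_card, Fintype.card_fin] at h1
  have h3 : ∀ y : Fin d → ℝ, FL ψ q (T • y) = ∏ j, (Lw (T * (ψ j ⬝ᵥ y)) - lh (q j)) := by
    intro y
    unfold FL
    refine Finset.prod_congr rfl fun j _ => ?_
    rw [dotProduct_smul, smul_eq_mul]
  simp_rw [h3] at h1
  rw [h1, smul_eq_mul, ← mul_assoc, mul_inv_cancel₀ (by positivity), one_mul]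

/-- size of the polynomials -/
theorem Iq_bd {ψ : ι → Fin d → ℝ} (hψ0 : ∀ j, ψ j ≠ 0) : ∃ C : ℝ, 1 ≤ C ∧ ∀ (b : ι → ℝ) (X : ℝ),
    |Iq ψ b X| ≤ C * (1 + |X|) ^ Fintype.card ι * ∏ j, (1 + |b j|) := by
  obtain ⟨C, hC, h⟩ := int_sub hψ0
  refine ⟨C, hC, fun b X => ?_⟩
  have h1 := (h Finset.univ (fun j => b j - X)).2
  have e1 : Iq ψ b X = ∫ y in box d 0 1, ∏ j, (aj ψ j y - (b j - X)) := by
    unfold Iq
    congr 1
    ext y
    refine Finset.prod_congr rfl fun j _ => ?_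
    ring
  rw [e1]
  refine h1.trans ?_
  have h2 : ∏ j, (1 + |b j - X|) ≤ ∏ j, ((1 + |X|) * (1 + |b j|)) := by
    refine Finset.prod_le_prod (fun j _ => by positivity) fun j _ => ?_
    have h3 := abs_sub (b j) X
    have h4 := abs_nonneg X
    have h5 := abs_nonneg (b j)
    nlinarith
  rw [Finset.prod_mul_distrib, Finset.prod_const, Finset.card_univ] at h2
  have : 0 ≤ C := by linarith
  calc C * ∏ j, (1 + |b j - X|) ≤ C * ((1 + |X|) ^ Fintype.card ι * ∏ j, (1 + |b j|)) := by gcongr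
    _ = _ := by ring

/-- the coefficients -/
def cq (ψ : ι → Fin d → ℝ) (b : ι → ℝ) (S : Finset ι) : ℝ :=
  ∫ y in box d 0 1, ∏ j ∈ Finset.univ \ S, (aj ψ j y - b j)

lemma Iq_poly {ψ : ι → Fin d → ℝ} (hψ0 : ∀ j, ψ j ≠ 0) (b : ι → ℝ) (X : ℝ) :
    Iq ψ b X = ∑ S ∈ (Finset.univ : Finset ι).powerset, X ^ S.card * cq ψ b S := by
  obtain ⟨C, _, h⟩ := int_sub hψ0
  unfold Iq cq
  simp_rw [Finset.prod_add, ← integral_const_mul]
  rw [← integral_finsetSum _ fun S _ => ((h (Finset.univ \ S) b).1.const_mul (X ^ S.card))]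
  congr 1
  ext y
  refine Finset.sum_congr rfl fun S _ => ?_
  rw [Finset.prod_const]

lemma cq_univ (ψ : ι → Fin d → ℝ) (b : ι → ℝ) : cq ψ b Finset.univ = 1 := by
  unfold cq
  simp only [Finset.sdiff_self, Finset.prod_empty, integral_const, smul_eq_mul, mul_one]
  rw [Measure.real, Measure.restrict_apply_univ, box_vol d zero_le_one]
  simp

end

end Pool.Agent.Y752.LP
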