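import Pool.Agent.Y752.LP.G4

set_option autoImplicit false

/-! Summation of the polynomials over the solutions. -/

namespace Pool.Agent.Y752.LP

open MeasureTheory Set Matrix
open Pool.Agent.Y752.KP
open scoped ENNReal

noncomputable section

variable {ι : Type} [Fintype ι] [DecidableEq ι] {d : ℕ}

/-- product of the logarithmic sizes -/
def HQ (q : ι → ℕ × ℕ) : ℝ := ∏ j, (1 + |lh (q j)|)

lemma HQ_nonneg (q : ι → ℕ × ℕ) : 0 ≤ HQ q := Finset.prod_nonneg fun j _ => by positivity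

lemma HQ_le {q : ι → ℕ × ℕ} (hq : ∀ j, 0 < (q j).1 ∧ 0 < (q j).2) :
    HQ q ≤ 41 ^ Fintype.card ι * (Nh q : ℝ) ^ (1 / 40 : ℝ) := by
  have h1 : ∀ j, 1 + |lh (q j)| ≤ 41 * (((q j).1 * (q j).2 : ℕ) : ℝ) ^ (1 / 40 : ℝ) := by
    intro j
    obtain ⟨a, b⟩ := hq j
    have h2 : (1:ℝ) ≤ (((q j).1 * (q j).2 : ℕ) : ℝ) := by exact_mod_cast Nat.mul_pos a b
    have h3 : lh (q j) = Real.log (((q j).1 * (q j).2 : ℕ) : ℝ) := by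
      unfold lh
      push_cast
      rfl
    rw [h3, abs_of_nonneg (Real.log_nonneg h2)]
    have h4 := Real.log_le_rpow_div (x := (((q j).1 * (q j).2 : ℕ) : ℝ)) (by linarith)
      (show (0:ℝ) < 1 / 40 by norm_num)
    have h5 := Real.one_le_rpow h2 (show (0:ℝ) ≤ 1 / 40 by norm_num)
    have h6 : (((q j).1 * (q j).2 : ℕ) : ℝ) ^ (1 / 40 : ℝ) / (1 / 40) =
        40 * (((q j).1 * (q j).2 : ℕ) : ℝ) ^ (1 / 40 : ℝ) := by ring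
    rw [h6] at h4
    linarith
  unfold HQ
  calc ∏ j, (1 + |lh (q j)|) ≤ ∏ j, (41 * (((q j).1 * (q j).2 : ℕ) : ℝ) ^ (1 / 40 : ℝ)) :=
        Finset.prod_le_prod (fun _ _ => by positivity) fun j _ => h1 j
    _ = 41 ^ Fintype.card ι * ∏ j, (((q j).1 * (q j).2 : ℕ) : ℝ) ^ (1 / 40 : ℝ) := by
        rw [Finset.prod_mul_distrib, Finset.prod_const, Finset.card_univ]
    _ = _ := by
        rw [Real.finsetProd_rpow _ _ (fun _ _ => by positivity)]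
        unfold Nh
        push_cast
        rfl

lemma wtp_Nh {q : ι → ℕ × ℕ} : wtp q = (Nh q : ℝ) ^ (-(1 / 2) : ℝ) := by
  unfold wtp wt Nh
  rw [Real.rpow_neg (by positivity), ← Real.sqrt_eq_rpow]
  push_cast
  rw [Finset.prod_inv_distrib, Real.sqrt_eq_rpow, ← Real.finsetProd_rpow _ _ (fun _ _ => by positivity)]
  simp only [Real.sqrt_eq_rpow]

lemma wH {q : ι → ℕ × ℕ} (hq : ∀ j, 0 < (q j).1 ∧ 0 < (q j).2) :
    wtp q * HQ q ≤ 41 ^ Fintype.card ι * (Nh q : ℝ) ^ (-(19 / 40) : ℝ) := by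
  have hN : 0 < Nh q := Finset.prod_pos fun j _ => Nat.mul_pos (hq j).1 (hq j).2
  have hNr : (0:ℝ) < Nh q := by exact_mod_cast hN
  rw [wtp_Nh]
  calc (Nh q : ℝ) ^ (-(1 / 2) : ℝ) * HQ q
      ≤ (Nh q : ℝ) ^ (-(1 / 2) : ℝ) * (41 ^ Fintype.card ι * (Nh q : ℝ) ^ (1 / 40 : ℝ)) := by
        have := HQ_le hq
        gcongr
    _ = 41 ^ Fintype.card ι * ((Nh q : ℝ) ^ (-(1 / 2) : ℝ) * (Nh q : ℝ) ^ (1 / 40 : ℝ)) := by ring
    _ = _ := by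
        rw [← Real.rpow_add hNr]
        norm_num

lemma Nh_le {q : ι → ℕ × ℕ} (hq : ∀ j, 0 < (q j).1 ∧ 0 < (q j).2) :
    (Nh q : ℝ) ^ (-(19 / 40) : ℝ) ≤ (Nh q : ℝ) ^ (-(9 / 20) : ℝ) := by
  have hN : 1 ≤ Nh q := Finset.prod_pos fun j _ => Nat.mul_pos (hq j).1 (hq j).2
  exact Real.rpow_le_rpow_of_exponent_le (by exact_mod_cast hN) (by norm_num)

lemma summ0 {ψ : ι → Fin d → ℤ} (hψ0 : ∀ j, re ψ j ≠ 0)
    (hp : ∀ i j, i ≠ j → LinearIndepOn ℝ (re ψ) ({i, j} : Set ι)) :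
    Summable fun q : Rl ψ => (Nh q.1 : ℝ) ^ (-(9 / 20) : ℝ) := by
  obtain ⟨C, _, h⟩ := rel_sum hψ0 hp
  refine summable_of_sum_le (c := C) (fun _ => by positivity) fun s => ?_
  have h1 := h (s.map ⟨Subtype.val, Subtype.val_injective⟩) (fun q hq => by
    obtain ⟨x, _, rfl⟩ := Finset.mem_map.1 hq
    exact x.2)
  rwa [Finset.sum_map] at h1

lemma summ {ψ : ι → Fin d → ℤ} (hψ0 : ∀ j, re ψ j ≠ 0)
    (hp : ∀ i j, i ≠ j → LinearIndepOn ℝ (re ψ) ({i, j} : Set ι)) {f : (ι → ℕ × ℕ) → ℝ} {C : ℝ}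
    (hf : ∀ q ∈ Rl ψ, |f q| ≤ C * (wtp q * HQ q)) : Summable fun q : Rl ψ => f q.1 := by
  have hC : ∀ q : Rl ψ, C * (wtp q.1 * HQ q.1) ≤ |C| * 41 ^ Fintype.card ι * (Nh q.1 : ℝ) ^ (-(9 / 20) : ℝ) := by
    intro q
    have hq : ∀ j, 0 < (q.1 j).1 ∧ 0 < (q.1 j).2 := fun j => ⟨(q.2.1 j).1, (q.2.1 j).2.1⟩
    have h0 : 0 ≤ wtp q.1 * HQ q.1 := mul_nonneg (wtp_nonneg _) (HQ_nonneg _)
    calc C * (wtp q.1 * HQ q.1) ≤ |C| * (wtp q.1 * HQ q.1) := by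
          have := le_abs_self C
          gcongr
      _ ≤ |C| * (41 ^ Fintype.card ι * (Nh q.1 : ℝ) ^ (-(9 / 20) : ℝ)) := by
          refine mul_le_mul_of_nonneg_left ((wH hq).trans ?_) (abs_nonneg C)
          have := Nh_le hq
          gcongr
      _ = _ := by ring
  refine Summable.of_norm_bounded ((summ0 hψ0 hp).mul_left (|C| * 41 ^ Fintype.card ι)) fun q => ?_
  rw [Real.norm_eq_abs]
  exact (hf q.1 q.2).trans (hC q)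

lemma DL_sub (ψ : ι → Fin d → ℤ) (Y : ℕ) : ∀ q ∈ DL ψ Y, q ∈ Rl ψ := by
  intro q hq
  obtain ⟨h1, h2⟩ := Finset.mem_filter.1 hq
  refine ⟨fun j => ?_, h2⟩
  obtain ⟨a, b, c, _⟩ := mem_qs.1 (mem_QQ.1 h1 j)
  exact ⟨a, b, c⟩

lemma big {ψ : ι → Fin d → ℤ} {Y : ℕ} {q : ι → ℕ × ℕ} (hq : q ∈ Rl ψ) (h : q ∉ DL ψ Y) : Y ≤ Nh q := by
  by_contra hcon
  push Not at hcon
  apply h
  refine Finset.mem_filter.2 ⟨mem_QQ.2 fun j => mem_qs.2 ?_, hq.2⟩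
  obtain ⟨a, b, c⟩ := hq.1 j
  refine ⟨a, b, c, ?_⟩
  have h1 : (q j).1 * (q j).2 ∣ Nh q := Finset.dvd_prod_of_mem _ (Finset.mem_univ j)
  have hN : 0 < Nh q := Finset.prod_pos fun j _ => Nat.mul_pos (hq.1 j).1 (hq.1 j).2.1
  exact (Nat.le_of_dvd hN h1).trans hcon.le

theorem tail {ψ : ι → Fin d → ℤ} (hψ0 : ∀ j, re ψ j ≠ 0)
    (hp : ∀ i j, i ≠ j → LinearIndepOn ℝ (re ψ) ({i, j} : Set ι)) : ∃ C0 : ℝ, 1 ≤ C0 ∧
    ∀ (f : (ι → ℕ × ℕ) → ℝ) (C : ℝ), 0 ≤ C → (∀ q ∈ Rl ψ, |f q| ≤ C * (wtp q * HQ q)) →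
    ∀ Y : ℕ, 1 ≤ Y → |(∑' q : Rl ψ, f q.1) - ∑ q ∈ DL ψ Y, f q| ≤ C * C0 * (Y : ℝ) ^ (-(1 / 40) : ℝ) := by
  have hs0 := summ0 hψ0 hp
  set Z := ∑' q : Rl ψ, (Nh q.1 : ℝ) ^ (-(9 / 20) : ℝ) with hZ
  have hZ0 : 0 ≤ Z := tsum_nonneg fun _ => by positivity
  refine ⟨1 + 41 ^ Fintype.card ι * Z, by
    have : 0 ≤ 41 ^ Fintype.card ι * Z := by positivity
    linarith, fun f C hC hf Y hY => ?_⟩
  classical
  have hsf := summ hψ0 hp hf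
  have hYr : (1:ℝ) ≤ Y := by exact_mod_cast hY
  set D : Finset (Rl ψ) := Finset.subtype (fun q => q ∈ Rl ψ) (DL ψ Y) with hD
  have e1 : ∑ q ∈ D, f q.1 = ∑ q ∈ DL ψ Y, f q := by
    rw [hD]
    exact Finset.sum_subtype_of_mem f (DL_sub ψ Y)
  have e2 := hsf.sum_add_tsum_subtype_compl D
  have e3 : (∑' q : Rl ψ, f q.1) - ∑ q ∈ DL ψ Y, f q = ∑' x : {x // x ∉ D}, f x.1.1 := by
    rw [← e1, ← e2]
    ring
  rw [e3]
  have hb : ∀ x : {x // x ∉ D}, ‖f x.1.1‖ ≤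
      C * 41 ^ Fintype.card ι * (Y : ℝ) ^ (-(1 / 40) : ℝ) * (Nh x.1.1 : ℝ) ^ (-(9 / 20) : ℝ) := by
    intro x
    have hx : x.1.1 ∉ DL ψ Y := by
      intro h
      exact x.2 (Finset.mem_subtype.2 h)
    have hq : ∀ j, 0 < (x.1.1 j).1 ∧ 0 < (x.1.1 j).2 := fun j => ⟨(x.1.2.1 j).1, (x.1.2.1 j).2.1⟩
    have h1 := big x.1.2 hx
    have h2 : (Y : ℝ) ≤ Nh x.1.1 := by exact_mod_cast h1
    have hN : (0:ℝ) < Nh x.1.1 := by linarith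
    rw [Real.norm_eq_abs]
    calc |f x.1.1| ≤ C * (wtp x.1.1 * HQ x.1.1) := hf _ x.1.2
      _ ≤ C * (41 ^ Fintype.card ι * (Nh x.1.1 : ℝ) ^ (-(19 / 40) : ℝ)) :=
          mul_le_mul_of_nonneg_left (wH hq) hC
      _ = C * (41 ^ Fintype.card ι * ((Nh x.1.1 : ℝ) ^ (-(1 / 40) : ℝ) *
          (Nh x.1.1 : ℝ) ^ (-(9 / 20) : ℝ))) := by
          rw [← Real.rpow_add hN]; norm_num
      _ ≤ C * (41 ^ Fintype.card ι * ((Y : ℝ) ^ (-(1 / 40) : ℝ) *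
          (Nh x.1.1 : ℝ) ^ (-(9 / 20) : ℝ))) := by
          have := Real.rpow_le_rpow_of_nonpos (by linarith) h2 (show (-(1 / 40) : ℝ) ≤ 0 by norm_num)
          gcongr
      _ = _ := by ring
  have hs1 : Summable fun x : {x // x ∉ D} => (Nh x.1.1 : ℝ) ^ (-(9 / 20) : ℝ) :=
    hs0.comp_injective Subtype.val_injective
  have h3 := tsum_of_norm_bounded ((hs1.mul_left (C * 41 ^ Fintype.card ι * (Y : ℝ) ^ (-(1 / 40) : ℝ))).hasSum) hb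
  rw [Real.norm_eq_abs, tsum_mul_left] at h3
  refine h3.trans ?_
  have h4 : ∑' x : {x // x ∉ D}, (Nh x.1.1 : ℝ) ^ (-(9 / 20) : ℝ) ≤ Z :=
    tsum_comp_le_tsum_of_inj hs0 (fun _ => by positivity) Subtype.val_injective
  calc C * 41 ^ Fintype.card ι * (Y : ℝ) ^ (-(1 / 40) : ℝ) *
        ∑' x : {x // x ∉ D}, (Nh x.1.1 : ℝ) ^ (-(9 / 20) : ℝ)
      ≤ C * 41 ^ Fintype.card ι * (Y : ℝ) ^ (-(1 / 40) : ℝ) * Z := by gcongr
    _ = C * (41 ^ Fintype.card ι * Z) * (Y : ℝ) ^ (-(1 / 40) : ℝ) := by ring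
    _ ≤ _ := by
        gcongr
        linarith

end

end Pool.Agent.Y752.LP
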