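import Pool.Agent.Y752.LP.G5

set_option autoImplicit false

/-! The mean value in terms of a polynomial. -/

namespace Pool.Agent.Y752.LP

open MeasureTheory Set Matrix
open Pool.Agent.Y752.KP

noncomputable section

variable {ι : Type} [Fintype ι] [DecidableEq ι] {d : ℕ}

omit [Fintype ι] [DecidableEq ι] in
lemma Cx1.ne {ψ : ι → Fin d → ℝ} (h : Cx1 ψ) (j : ι) : ψ j ≠ 0 := by
  obtain ⟨A, B, _, hA, _⟩ := h j
  exact hA.ne_zero (mem_insert _ _)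

omit [Fintype ι] [DecidableEq ι] in
lemma Cx1.pair {ψ : ι → Fin d → ℝ} (h : Cx1 ψ) (i j : ι) (hij : i ≠ j) :
    LinearIndepOn ℝ ψ ({i, j} : Set ι) := by
  obtain ⟨A, B, hc, hA, hB⟩ := h i
  rcases hc j with h1 | h1 | h1
  · exact absurd h1.symm hij
  · refine hA.mono ?_
    rintro x (rfl | rfl)
    · exact mem_insert _ _
    · exact mem_insert_of_mem _ h1
  · refine hB.mono ?_
    rintro x (rfl | rfl)
    · exact mem_insert _ _
    · exact mem_insert_of_mem _ h1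

/-- the coefficient sums -/
def cf (ψ : ι → Fin d → ℤ) (S : Finset ι) : ℝ :=
  ∑' q : Rl ψ, wtp q.1 * cq (re ψ) (fun j => lh (q.1 j)) S

/-- the polynomial -/
def PP (ψ : ι → Fin d → ℤ) : Polynomial ℝ :=
  ∑ S ∈ (Finset.univ : Finset ι).powerset, Polynomial.monomial S.card (cf ψ S)

lemma s_cq {ψ : ι → Fin d → ℤ} (hψ : Cx1 (re ψ)) (S : Finset ι) :
    Summable fun q : Rl ψ => wtp q.1 * cq (re ψ) (fun j => lh (q.1 j)) S := by
  obtain ⟨C, hC, h⟩ := int_sub hψ.ne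
  refine summ (f := fun q => wtp q * cq (re ψ) (fun j => lh (q j)) S) (C := C) hψ.ne hψ.pair fun q _ => ?_
  rw [abs_mul, abs_of_nonneg (wtp_nonneg q)]
  have h1 := (h (Finset.univ \ S) (fun j => lh (q j))).2
  have h2 := wtp_nonneg q
  unfold cq HQ
  calc wtp q * |∫ y in box d 0 1, ∏ j ∈ Finset.univ \ S, (aj (re ψ) j y - lh (q j))|
      ≤ wtp q * (C * ∏ j, (1 + |lh (q j)|)) := by gcongr
    _ = _ := by ring

lemma s_wtp {ψ : ι → Fin d → ℤ} (hψ : Cx1 (re ψ)) : Summable fun q : Rl ψ => wtp q.1 := by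
  have h := s_cq hψ Finset.univ
  simpa only [cq_univ, mul_one] using h

lemma s_HQ {ψ : ι → Fin d → ℤ} (hψ : Cx1 (re ψ)) : Summable fun q : Rl ψ => wtp q.1 * HQ q.1 := by
  refine summ (f := fun q => wtp q * HQ q) (C := 1) hψ.ne hψ.pair fun q _ => ?_
  rw [abs_of_nonneg (mul_nonneg (wtp_nonneg q) (HQ_nonneg q)), one_mul]

lemma s_Iq {ψ : ι → Fin d → ℤ} (hψ : Cx1 (re ψ)) (X : ℝ) :
    Summable fun q : Rl ψ => wtp q.1 * Iq (re ψ) (fun j => lh (q.1 j)) X := by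
  have h : (fun q : Rl ψ => wtp q.1 * Iq (re ψ) (fun j => lh (q.1 j)) X) = fun q : Rl ψ =>
      ∑ S ∈ (Finset.univ : Finset ι).powerset, X ^ S.card * (wtp q.1 * cq (re ψ) (fun j => lh (q.1 j)) S) := by
    ext q
    rw [Iq_poly hψ.ne, Finset.mul_sum]
    refine Finset.sum_congr rfl fun S _ => ?_
    ring
  rw [h]
  exact summable_sum fun S _ => (s_cq hψ S).mul_left _

lemma PP_eval {ψ : ι → Fin d → ℤ} (hψ : Cx1 (re ψ)) (X : ℝ) :
    (PP ψ).eval X = ∑' q : Rl ψ, wtp q.1 * Iq (re ψ) (fun j => lh (q.1 j)) X := by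
  have h : ∀ q : Rl ψ, wtp q.1 * Iq (re ψ) (fun j => lh (q.1 j)) X =
      ∑ S ∈ (Finset.univ : Finset ι).powerset, X ^ S.card * (wtp q.1 * cq (re ψ) (fun j => lh (q.1 j)) S) := by
    intro q
    rw [Iq_poly hψ.ne, Finset.mul_sum]
    refine Finset.sum_congr rfl fun S _ => ?_
    ring
  simp_rw [h]
  rw [Summable.tsum_finsetSum fun S _ => (s_cq hψ S).mul_left _]
  unfold PP
  rw [Polynomial.eval_finsetSum]
  refine Finset.sum_congr rfl fun S _ => ?_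
  rw [Polynomial.eval_monomial, tsum_mul_left, mul_comm]
  rfl

lemma cf_univ (ψ : ι → Fin d → ℤ) : cf ψ Finset.univ = ∑' q : Rl ψ, wtp q.1 := by
  unfold cf
  simp only [cq_univ, mul_one]

lemma one_mem (ψ : ι → Fin d → ℤ) : (fun _ => (1, 1) : ι → ℕ × ℕ) ∈ Rl ψ := by
  refine ⟨fun j => ⟨one_pos, one_pos, Nat.coprime_one_left 1⟩, fun l => ?_⟩
  unfold om fr
  simp

lemma wtp_pos {ψ : ι → Fin d → ℤ} (q : Rl ψ) : 0 < wtp q.1 := by
  unfold wtp wt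
  refine Finset.prod_pos fun j _ => ?_
  obtain ⟨a, b, _⟩ := q.2.1 j
  positivity

lemma cf_pos {ψ : ι → Fin d → ℤ} (hψ : Cx1 (re ψ)) : 0 < ∑' q : Rl ψ, wtp q.1 :=
  (s_wtp hψ).tsum_pos (fun q => (wtp_pos q).le) ⟨_, one_mem ψ⟩ (wtp_pos _)

lemma PP_coeff {ψ : ι → Fin d → ℤ} : (PP ψ).coeff (Fintype.card ι) = ∑' q : Rl ψ, wtp q.1 := by
  unfold PP
  rw [Polynomial.finsetSum_coeff, Finset.sum_eq_single Finset.univ]
  · rw [Finset.card_univ, Polynomial.coeff_monomial, if_pos rfl, cf_univ]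
  · intro S _ hS
    rw [Polynomial.coeff_monomial, if_neg]
    intro h
    exact hS ((Finset.card_eq_iff_eq_univ S).1 h)
  · intro h
    exact absurd (Finset.mem_powerset.2 (Finset.subset_univ _)) h

lemma PP_deg {ψ : ι → Fin d → ℤ} (hψ : Cx1 (re ψ)) : (PP ψ).natDegree = Fintype.card ι := by
  refine Polynomial.natDegree_eq_of_le_of_coeff_ne_zero ?_ ?_
  · unfold PP
    refine Polynomial.natDegree_sum_le_of_forall_le _ _ fun S _ => ?_
    exact (Polynomial.natDegree_monomial_le _).trans (Finset.card_le_univ S)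
  · rw [PP_coeff]
    exact (cf_pos hψ).ne'

lemma PP_lead {ψ : ι → Fin d → ℤ} (hψ : Cx1 (re ψ)) : (PP ψ).leadingCoeff = ∑' q : Rl ψ, wtp q.1 := by
  rw [Polynomial.leadingCoeff, PP_deg hψ, PP_coeff]

theorem final (ψ : ι → Fin d → ℤ) (hψ : Cx1 (re ψ)) : ∃ κ T₀ : ℝ, 0 < κ ∧ 1000 ≤ T₀ ∧ ∀ T : ℝ, T₀ ≤ T →
    |(∫ x in box d 0 T, phr (re ψ) x) - T ^ d * (PP ψ).eval (Real.log T)| ≤ T ^ d * T ^ (-κ) := by
  set m := Fintype.card ι with hm
  set S := SS ψ with hS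
  have hm0 : (0:ℝ) ≤ m := by positivity
  have hS0 : (0:ℝ) ≤ S := by positivity
  set δ : ℝ := 1 / (1000 * ((m : ℝ) + 1) * ((S : ℝ) + 1)) with hδdef
  have hδ : 0 < δ := by positivity
  have hδ1 : δ * (1000 * ((m : ℝ) + 1) * ((S : ℝ) + 1)) ≤ 1 := by
    rw [hδdef, one_div_mul_cancel (by positivity)]
  have hδ2 : δ * (1000 * ((m : ℝ) + 1)) ≤ 1 := by
    refine le_trans ?_ hδ1
    have : (1:ℝ) ≤ (S:ℝ) + 1 := by linarith
    have h2 : 0 ≤ δ * (1000 * ((m : ℝ) + 1)) := by positivity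
    calc δ * (1000 * ((m : ℝ) + 1)) = δ * (1000 * ((m : ℝ) + 1)) * 1 := by ring
      _ ≤ δ * (1000 * ((m : ℝ) + 1)) * ((S:ℝ) + 1) := by gcongr
      _ = _ := by ring
  have hδ3 : δ ≤ 1 := by
    refine le_trans ?_ hδ2
    have : (1:ℝ) ≤ 1000 * ((m:ℝ) + 1) := by linarith
    nlinarith
  obtain ⟨T1, hT1, hrep⟩ := rep hψ hδ hδ2
  obtain ⟨T2, hT2, hmain⟩ := mainE ψ hψ.ne hδ hδ1
  obtain ⟨C1, hC1, hcmp⟩ := cmp hψ.ne
  obtain ⟨C2, hC2, hbd⟩ := Iq_bd hψ.ne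
  obtain ⟨C0, hC0, htail⟩ := tail hψ.ne hψ.pair
  set Z := ∑' q : Rl ψ, wtp q.1 * HQ q.1 with hZ
  have hZ0 : 0 ≤ Z := tsum_nonneg fun q => mul_nonneg (wtp_nonneg _) (HQ_nonneg _)
  obtain ⟨T3, hT3, hlp1⟩ := logpow (4 * (C1 * 2 ^ m * Z)) m (show (0:ℝ) < 1 / 4 by norm_num)
  obtain ⟨T4, hT4, hlp2⟩ := logpow (4 * (C2 * 2 ^ m * C0)) m (show (0:ℝ) < δ / 80 by positivity)
  obtain ⟨T5, hT5, hlp3⟩ := logpow 4 0 (show (0:ℝ) < δ / 80 by positivity)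
  refine ⟨δ / 80, max T1 (max T2 (max T3 (max T4 T5))), by positivity, hT1.trans (le_max_left _ _), ?_⟩
  intro T hT
  have t1 : T1 ≤ T := (le_max_left _ _).trans hT
  have hT' := (le_max_right _ _).trans hT
  have t2 : T2 ≤ T := (le_max_left _ _).trans hT'
  have hT'' := (le_max_right _ _).trans hT'
  have t3 : T3 ≤ T := (le_max_left _ _).trans hT''
  have hT3' := (le_max_right _ _).trans hT''
  have t4 : T4 ≤ T := (le_max_left _ _).trans hT3'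
  have t5 : T5 ≤ T := (le_max_right _ _).trans hT3'
  have hT1000 : 1000 ≤ T := hT1.trans t1
  have hTp : 0 < T := by linarith
  have hTd : 0 < T ^ d := by positivity
  have hlog : 1 ≤ Real.log T := by
    rw [Real.le_log_iff_exp_le hTp]
    have := Real.exp_one_lt_d9
    linarith
  set L := Real.log T with hL
  have hTδ : 1 ≤ T ^ δ := Real.one_le_rpow (by linarith) hδ.le
  set Y : ℕ := ⌈T ^ δ⌉₊ with hY
  have hYl : T ^ δ ≤ Y := Nat.le_ceil _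
  have hYu : (Y : ℝ) ≤ 2 * T ^ δ := by
    have := Nat.ceil_lt_add_one (show 0 ≤ T ^ δ by positivity)
    linarith
  have hY1 : 1 ≤ Y := by
    have : (1:ℝ) ≤ Y := hTδ.trans hYl
    exact_mod_cast this
  have a1 := hrep T t1 Y hYl hYu
  have a2 := hmain T t2 Y hYl hYu
  have a12 : |(∫ x in box d 0 T, phr (re ψ) x) - ∑ q ∈ DL ψ Y, wtp q * ∫ x in box d 0 T, FL (re ψ) q x| ≤
      T ^ d * T ^ (-(δ / 4)) + T ^ d * T ^ (-(1 / 2) : ℝ) := by
    have e : |(∫ x in box d 0 T, phr (re ψ) x) - ∑ q ∈ DL ψ Y, wtp q * ∫ x in box d 0 T, FL (re ψ) q x| =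
        ‖(((∫ x in box d 0 T, phr (re ψ) x : ℝ) : ℂ) - ∫ x in box d 0 T, ∏ j, gY Y (re ψ j ⬝ᵥ x)) +
        ((∫ x in box d 0 T, ∏ j, gY Y (re ψ j ⬝ᵥ x)) -
        ((∑ q ∈ DL ψ Y, wtp q * ∫ x in box d 0 T, FL (re ψ) q x : ℝ) : ℂ))‖ := by
      rw [sub_add_sub_cancel, ← Complex.ofReal_sub, Complex.norm_real, Real.norm_eq_abs]
    rw [e]
    exact (norm_add_le _ _).trans (add_le_add a1 a2)
  -- third step
  have hL1 : 1 + L ≤ 2 * L := by linarith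
  have hlogm : (1 + L) ^ m ≤ 2 ^ m * L ^ m := by
    rw [← mul_pow]
    have : 0 ≤ L := by linarith
    gcongr
  have a3 : |(∑ q ∈ DL ψ Y, wtp q * ∫ x in box d 0 T, FL (re ψ) q x) -
      T ^ d * ∑ q ∈ DL ψ Y, wtp q * Iq (re ψ) (fun j => lh (q j)) L| ≤
      T ^ d * (C1 * (1 + L) ^ m * Z * T ^ (-(1 / 2) : ℝ)) := by
    rw [Finset.mul_sum, ← Finset.sum_sub_distrib]
    have h1 : ∀ q ∈ DL ψ Y, |wtp q * (∫ x in box d 0 T, FL (re ψ) q x) -
        T ^ d * (wtp q * Iq (re ψ) (fun j => lh (q j)) L)| ≤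
        T ^ d * (C1 * (1 + L) ^ m * T ^ (-(1 / 2) : ℝ)) * (wtp q * HQ q) := by
      intro q _
      rw [scale (re ψ) q hTp]
      have e : wtp q * (T ^ d * ∫ y in box d 0 1, ∏ j, (Lw (T * (re ψ j ⬝ᵥ y)) - lh (q j))) -
          T ^ d * (wtp q * Iq (re ψ) (fun j => lh (q j)) L) = T ^ d * wtp q *
          ((∫ y in box d 0 1, ∏ j, (Lw (T * (re ψ j ⬝ᵥ y)) - lh (q j))) -
          Iq (re ψ) (fun j => lh (q j)) L) := by ring
      rw [e, abs_mul, abs_of_nonneg (mul_nonneg hTd.le (wtp_nonneg q))]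
      have h2 := hcmp T (by linarith) (fun j => lh (q j))
      have h3 := wtp_nonneg q
      calc T ^ d * wtp q * |(∫ y in box d 0 1, ∏ j, (Lw (T * (re ψ j ⬝ᵥ y)) - lh (q j))) -
              Iq (re ψ) (fun j => lh (q j)) L|
          ≤ T ^ d * wtp q * (C1 * (1 + L) ^ m * (∏ j, (1 + |lh (q j)|)) * T ^ (-(1 / 2) : ℝ)) := by
            gcongr
        _ = _ := by
            unfold HQ
            ring
    refine (Finset.abs_sum_le_sum_abs _ _).trans ((Finset.sum_le_sum h1).trans ?_)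
    rw [← Finset.mul_sum]
    have h4 : ∑ q ∈ DL ψ Y, wtp q * HQ q ≤ Z := by
      classical
      have e1 : ∑ q ∈ Finset.subtype (fun q => q ∈ Rl ψ) (DL ψ Y), wtp q.1 * HQ q.1 =
          ∑ q ∈ DL ψ Y, wtp q * HQ q :=
        Finset.sum_subtype_of_mem (fun q => wtp q * HQ q) (DL_sub ψ Y)
      rw [← e1]
      exact (s_HQ hψ).sum_le_tsum _ fun q _ => mul_nonneg (wtp_nonneg _) (HQ_nonneg _)
    have h5 : 0 ≤ 1 + L := by linarith
    calc T ^ d * (C1 * (1 + L) ^ m * T ^ (-(1 / 2) : ℝ)) * ∑ q ∈ DL ψ Y, wtp q * HQ q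
        ≤ T ^ d * (C1 * (1 + L) ^ m * T ^ (-(1 / 2) : ℝ)) * Z := by gcongr
      _ = _ := by ring
  -- fourth step
  have a4 : |(PP ψ).eval L - ∑ q ∈ DL ψ Y, wtp q * Iq (re ψ) (fun j => lh (q j)) L| ≤
      C2 * (1 + L) ^ m * C0 * (Y : ℝ) ^ (-(1 / 40) : ℝ) := by
    rw [PP_eval hψ]
    have h5 : 0 ≤ 1 + L := by linarith
    refine htail (fun q => wtp q * Iq (re ψ) (fun j => lh (q j)) L) (C2 * (1 + L) ^ m) (by positivity)
      (fun q _ => ?_) Y hY1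
    rw [abs_mul, abs_of_nonneg (wtp_nonneg q)]
    have h6 := hbd (fun j => lh (q j)) L
    rw [abs_of_nonneg (show 0 ≤ L by linarith)] at h6
    have h7 := wtp_nonneg q
    unfold HQ
    calc wtp q * |Iq (re ψ) (fun j => lh (q j)) L|
        ≤ wtp q * (C2 * (1 + L) ^ Fintype.card ι * ∏ j, (1 + |lh (q j)|)) := by gcongr
      _ = _ := by ring
  -- numerics
  have hu : T ^ (-(δ / 80)) ≤ 1 / 4 := by
    have h1 := hlp3 T t5
    rw [pow_zero, mul_one] at h1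
    rw [Real.rpow_neg hTp.le, ← one_div]
    exact one_div_le_one_div_of_le (by norm_num) h1
  have hκ0 : 0 ≤ T ^ (-(δ / 80)) := by positivity
  have hh : ∀ a : ℝ, δ / 40 ≤ a → T ^ (-a) ≤ T ^ (-(δ / 80)) / 4 := by
    intro a ha
    calc T ^ (-a) ≤ T ^ (-(δ / 80) + -(δ / 80)) :=
          Real.rpow_le_rpow_of_exponent_le (by linarith) (by linarith)
      _ = T ^ (-(δ / 80)) * T ^ (-(δ / 80)) := Real.rpow_add hTp _ _
      _ ≤ T ^ (-(δ / 80)) * (1 / 4) := by gcongr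
      _ = _ := by ring
  have b1 := hh (δ / 4) (by linarith)
  have b2 := hh (1 / 2) (by linarith)
  have hL0 : 0 ≤ L := by linarith
  have b3 : C1 * (1 + L) ^ m * Z * T ^ (-(1 / 2) : ℝ) ≤ T ^ (-(δ / 80)) / 4 := by
    have h1 := hlp1 T t3
    have h2 : C1 * (1 + L) ^ m * Z ≤ T ^ (1 / 4 : ℝ) / 4 := by
      calc C1 * (1 + L) ^ m * Z ≤ C1 * (2 ^ m * L ^ m) * Z := by gcongr
        _ = (4 * (C1 * 2 ^ m * Z) * L ^ m) / 4 := by ring
        _ ≤ _ := by gcongr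
    calc C1 * (1 + L) ^ m * Z * T ^ (-(1 / 2) : ℝ) ≤ T ^ (1 / 4 : ℝ) / 4 * T ^ (-(1 / 2) : ℝ) := by gcongr
      _ = T ^ (1 / 4 : ℝ) * T ^ (-(1 / 2) : ℝ) / 4 := by ring
      _ = T ^ (-(1 / 4) : ℝ) / 4 := by
          rw [← Real.rpow_add hTp]
          norm_num
      _ ≤ _ := by
          have := Real.rpow_le_rpow_of_exponent_le (show 1 ≤ T by linarith)
            (show (-(1 / 4) : ℝ) ≤ -(δ / 80) by linarith)
          gcongr
  have b4 : C2 * (1 + L) ^ m * C0 * (Y : ℝ) ^ (-(1 / 40) : ℝ) ≤ T ^ (-(δ / 80)) / 4 := by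
    have h1 := hlp2 T t4
    have h2 : C2 * (1 + L) ^ m * C0 ≤ T ^ (δ / 80) / 4 := by
      calc C2 * (1 + L) ^ m * C0 ≤ C2 * (2 ^ m * L ^ m) * C0 := by gcongr
        _ = (4 * (C2 * 2 ^ m * C0) * L ^ m) / 4 := by ring
        _ ≤ _ := by gcongr
    have h3 : (Y : ℝ) ^ (-(1 / 40) : ℝ) ≤ T ^ (-(δ / 80) + -(δ / 80)) := by
      calc (Y : ℝ) ^ (-(1 / 40) : ℝ) ≤ (T ^ δ) ^ (-(1 / 40) : ℝ) :=
            Real.rpow_le_rpow_of_nonpos (by positivity) hYl (by norm_num)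
        _ = T ^ (δ * (-(1 / 40))) := by rw [← Real.rpow_mul hTp.le]
        _ = _ := by
            congr 1
            ring
    calc C2 * (1 + L) ^ m * C0 * (Y : ℝ) ^ (-(1 / 40) : ℝ)
        ≤ T ^ (δ / 80) / 4 * T ^ (-(δ / 80) + -(δ / 80)) := by gcongr
      _ = T ^ (δ / 80) * T ^ (-(δ / 80) + -(δ / 80)) / 4 := by ring
      _ = _ := by
          rw [← Real.rpow_add hTp]
          congr 2
          ring
  set I := ∫ x in box d 0 T, phr (re ψ) x with hI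
  set E1 := ∑ q ∈ DL ψ Y, wtp q * ∫ x in box d 0 T, FL (re ψ) q x with hE1
  set E2 := ∑ q ∈ DL ψ Y, wtp q * Iq (re ψ) (fun j => lh (q j)) L with hE2
  have a4' : |T ^ d * E2 - T ^ d * (PP ψ).eval L| ≤ T ^ d * (C2 * (1 + L) ^ m * C0 * (Y : ℝ) ^ (-(1 / 40) : ℝ)) := by
    rw [← mul_sub, abs_mul, abs_of_pos hTd, abs_sub_comm]
    gcongr
  calc |I - T ^ d * (PP ψ).eval L| = |(I - E1) + (E1 - T ^ d * E2) + (T ^ d * E2 - T ^ d * (PP ψ).eval L)| := by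
        congr 1
        ring
    _ ≤ |I - E1| + |E1 - T ^ d * E2| + |T ^ d * E2 - T ^ d * (PP ψ).eval L| := abs_add_three _ _ _
    _ ≤ (T ^ d * T ^ (-(δ / 4)) + T ^ d * T ^ (-(1 / 2) : ℝ)) +
        T ^ d * (C1 * (1 + L) ^ m * Z * T ^ (-(1 / 2) : ℝ)) +
        T ^ d * (C2 * (1 + L) ^ m * C0 * (Y : ℝ) ^ (-(1 / 40) : ℝ)) := add_le_add (add_le_add a12 a3) a4'
    _ = T ^ d * (T ^ (-(δ / 4)) + T ^ (-(1 / 2) : ℝ) + C1 * (1 + L) ^ m * Z * T ^ (-(1 / 2) : ℝ) +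
        C2 * (1 + L) ^ m * C0 * (Y : ℝ) ^ (-(1 / 40) : ℝ)) := by ring
    _ ≤ T ^ d * T ^ (-(δ / 80)) := by
        refine mul_le_mul_of_nonneg_left ?_ hTd.le
        linarith

end

end Pool.Agent.Y752.LP
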