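import Pool.Agent.Y752.LP.H

set_option autoImplicit false

/-! Standard form. -/

namespace Pool.Agent.Y752.LP

open MeasureTheory Set Matrix Filter Asymptotics
open Pool.Agent.Y752.KP

noncomputable section

variable {m d : ℕ}

/-- The tuples of reduced fractions `a_i / b_i > 0` with `∏ (a_i / b_i) ^ ψ_il = 1` for every `l`. -/
def rels (ψ : Fin m → Fin d → ℤ) : Set (Fin m → ℕ × ℕ) :=
  {q | (∀ i, 0 < (q i).1 ∧ 0 < (q i).2 ∧ (q i).1.Coprime (q i).2) ∧
    ∀ l, ∏ i, (((q i).1 : ℝ) / (q i).2) ^ ψ i l = 1}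

lemma rels_eq (ψ : Fin m → Fin d → ℤ) : Rl ψ = rels ψ := by
  ext q
  refine and_congr_right fun h => forall_congr' fun l => ?_
  have hp : ∀ i ∈ (Finset.univ : Finset (Fin m)), (((q i).1 : ℝ) / (q i).2) ^ ψ i l ≠ 0 := by
    intro i _
    obtain ⟨a, b, _⟩ := h i
    have : (0:ℝ) < (q i).1 := by exact_mod_cast a
    have : (0:ℝ) < (q i).2 := by exact_mod_cast b
    positivity
  have hpos : 0 < ∏ i, (((q i).1 : ℝ) / (q i).2) ^ ψ i l := by
    refine Finset.prod_pos fun i _ => ?_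
    obtain ⟨a, b, _⟩ := h i
    have : (0:ℝ) < (q i).1 := by exact_mod_cast a
    have : (0:ℝ) < (q i).2 := by exact_mod_cast b
    positivity
  have e : Real.log (∏ i, (((q i).1 : ℝ) / (q i).2) ^ ψ i l) = om (re ψ) q l := by
    rw [Real.log_prod hp]
    unfold om re fr
    refine Finset.sum_congr rfl fun i _ => ?_
    obtain ⟨a, b, _⟩ := h i
    have : ((q i).1 : ℝ) ≠ 0 := by positivity
    have : ((q i).2 : ℝ) ≠ 0 := by positivity
    rw [Real.log_zpow, Real.log_div (by assumption) (by assumption), mul_comm]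
  rw [← e]
  constructor
  · intro h0
    exact Real.eq_one_of_pos_of_log_eq_zero hpos h0
  · intro h0
    rw [h0, Real.log_one]

theorem std (ψ : Fin m → Fin d → ℤ) (hψ : ∀ i, ∃ A B : Finset (Fin m), (∀ j, j = i ∨ j ∈ A ∨ j ∈ B) ∧
      LinearIndepOn ℝ (fun j l => (ψ j l : ℝ)) (insert i A : Set (Fin m)) ∧
      LinearIndepOn ℝ (fun j l => (ψ j l : ℝ)) (insert i B : Set (Fin m))) :
    ∃ P : Polynomial ℝ, P.natDegree = m ∧
      (Summable fun q : rels ψ => ∏ i, (Real.sqrt ((q.1 i).1 * (q.1 i).2))⁻¹) ∧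
      P.leadingCoeff = ∑' q : rels ψ, ∏ i, (Real.sqrt ((q.1 i).1 * (q.1 i).2))⁻¹ ∧
      (∀ X : ℝ, P.eval X = ∑' q : rels ψ, (∏ i, (Real.sqrt ((q.1 i).1 * (q.1 i).2))⁻¹) *
        ∫ y in Icc (0 : Fin d → ℝ) (fun _ => 1), ∏ i, (X + Real.log |∑ l, (ψ i l : ℝ) * y l| -
          Real.log (2 * Real.pi * (q.1 i).1 * (q.1 i).2) + 2 * Real.eulerMascheroniConstant)) ∧
      ∃ κ : ℝ, 0 < κ ∧
        (fun T : ℝ => (∫ x in Icc (0 : Fin d → ℝ) (fun _ => T),
            ∏ i, ‖riemannZeta (1 / 2 + Complex.I * ∑ l, (ψ i l : ℂ) * (x l : ℂ))‖ ^ 2) -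
          T ^ d * P.eval (Real.log T)) =O[atTop] fun T : ℝ => T ^ ((d : ℝ) - κ) := by
  have hC : Cx1 (re ψ) := hψ
  have hw : ∀ q : Fin m → ℕ × ℕ, wtp q = ∏ i, (Real.sqrt ((q i).1 * (q i).2))⁻¹ := fun q => rfl
  refine ⟨PP ψ, ?_, ?_, ?_, fun X => ?_, ?_⟩
  · rw [PP_deg hC, Fintype.card_fin]
  · have h := s_wtp hC
    rw [rels_eq ψ] at h
    exact h
  · rw [PP_lead hC, rels_eq ψ]
    rfl
  · rw [PP_eval hC]
    have e : ∀ q : Rl ψ, wtp q.1 * Iq (re ψ) (fun j => lh (q.1 j)) X =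
        (∏ i, (Real.sqrt ((q.1 i).1 * (q.1 i).2))⁻¹) *
        ∫ y in Icc (0 : Fin d → ℝ) (fun _ => 1), ∏ i, (X + Real.log |∑ l, (ψ i l : ℝ) * y l| -
          Real.log (2 * Real.pi * (q.1 i).1 * (q.1 i).2) + 2 * Real.eulerMascheroniConstant) := by
      intro q
      rw [hw]
      congr 1
      unfold Iq
      refine setIntegral_congr_fun measurableSet_Icc fun y _ => ?_
      refine Finset.prod_congr rfl fun i _ => ?_
      obtain ⟨a, b, _⟩ := q.2.1 i
      have ha : ((q.1 i).1 : ℝ) ≠ 0 := by positivity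
      have hb : ((q.1 i).2 : ℝ) ≠ 0 := by positivity
      have h2 : (2 * Real.pi) ≠ 0 := by positivity
      unfold aj k0 lh
      rw [mul_assoc (2 * Real.pi), Real.log_mul h2 (mul_ne_zero ha hb)]
      have e2 : re ψ i ⬝ᵥ y = ∑ l, (ψ i l : ℝ) * y l := rfl
      rw [e2]
      ring
    rw [tsum_congr e, rels_eq ψ]
  · obtain ⟨κ, T₀, hκ, hT₀, h⟩ := final ψ hC
    refine ⟨κ, hκ, IsBigO.of_bound 1 ?_⟩
    filter_upwards [eventually_ge_atTop T₀] with T hT
    have hTp : 0 < T := by linarith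
    have e1 : ∫ x in Icc (0 : Fin d → ℝ) (fun _ => T),
        ∏ i, ‖riemannZeta (1 / 2 + Complex.I * ∑ l, (ψ i l : ℂ) * (x l : ℂ))‖ ^ 2 =
        ∫ x in box d 0 T, phr (re ψ) x := by
      refine setIntegral_congr_fun measurableSet_Icc fun x _ => ?_
      unfold phr Pool.Agent.TH612.GS.z
      refine Finset.prod_congr rfl fun i _ => ?_
      congr 4
      simp only [dotProduct, re]
      push_cast
      rfl
    rw [e1, one_mul, Real.norm_eq_abs, Real.norm_of_nonneg (by positivity), Real.rpow_sub hTp,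
      Real.rpow_natCast, div_eq_mul_inv, ← Real.rpow_neg hTp.le]
    exact h T hT

end

end Pool.Agent.Y752.LP
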